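import Pool.Agent.Work.MP_327059_nt.LD.StmtsL
import Pool.Agent.Work.MP_327059_nt.UB.I_BD

/-!
# MP_327059_nt, block LD: the assembly
-/

set_option autoImplicit false

namespace Pool.Agent.Work.MP_327059_nt.LD

open Pool.Agent.Work.MP_327059_nt.AA Pool.Agent.Work.MP_327059_nt.FL Pool.Agent.Work.MP_327059_nt.UB

namespace ILD_FN

theorem ind_le {A B : Set ℕ} (h : A ⊆ B) (n : ℕ) : ind A n ≤ ind B n := by
  unfold ind
  by_cases hA : n ∈ A
  · rw [Set.indicator_of_mem hA, Set.indicator_of_mem (h hA)]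
  · rw [Set.indicator_of_notMem hA]
    exact Set.indicator_nonneg (fun _ _ => zero_le_one) n

theorem LNull_mono {A B : Set ℕ} (h : A ⊆ B) (hB : LNull B) : LNull A := by
  intro ε hε
  obtain ⟨C, hC⟩ := hB ε hε
  refine ⟨C, fun N => le_trans ?_ (hC N)⟩
  unfold ws
  refine Finset.sum_le_sum fun n _ => ?_
  exact div_le_div_of_nonneg_right (ind_le h n) (Nat.cast_nonneg n)

theorem lg_mul {m n : ℕ} (hm : 0 < m) (hn : 0 < n) : lg (m * n) = lg m + lg n := by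
  unfold lg
  have h1 : (m : ℝ) ≠ 0 := by exact_mod_cast hm.ne'
  have h2 : (n : ℝ) ≠ 0 := by exact_mod_cast hn.ne'
  rw [Nat.cast_mul, Real.log_mul h1 h2, Complex.ofReal_add]

theorem exp_lg {n : ℕ} (hn : 0 < n) : Complex.exp (lg n) = n := by
  unfold lg
  rw [← Complex.ofReal_exp, Real.exp_log (by exact_mod_cast hn), Complex.ofReal_natCast]

theorem sf_add_right (β : ℂ) (D D' : Derivation ℚ ℂ ℂ) (x y z : ℂ) :
    sf β D D' x (y + z) = sf β D D' x y + sf β D D' x z := by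
  unfold sf bf
  rw [map_add, map_add, map_add, map_add]
  ring

theorem sf_add_left (β : ℂ) (D D' : Derivation ℚ ℂ ℂ) (x y z : ℂ) :
    sf β D D' (x + y) z = sf β D D' x z + sf β D D' y z := by
  unfold sf bf
  rw [map_add, map_add, map_add, map_add]
  ring

theorem sf_comm (β : ℂ) (D D' : Derivation ℚ ℂ ℂ) (x y : ℂ) :
    sf β D D' x y = sf β D D' y x := by
  unfold sf
  ring

/-- every exceptional number is a zero of the form -/
theorem zero_of_dep (β : ℂ) (D D' : Derivation ℚ ℂ ℂ) (hBD : StBD) {n : ℕ} (hn : 1 ≤ n)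
    (h : ¬ AlgebraicIndependent ℚ ![lg n, Complex.exp (β * lg n)]) :
    sf β D D' (lg n) (lg n) = 0 := by
  by_cases h0 : lg n = 0
  · have e1 : D (0 : ℂ) = 0 := map_zero D
    have e2 : D' (0 : ℂ) = 0 := map_zero D'
    rw [h0]
    unfold sf bf
    rw [e1, e2]
    ring
  · have hb : Bad β (lg n) := by
      refine ⟨h0, ?_, h⟩
      rw [exp_lg hn]
      exact isAlgebraic_natCast n
    have h1 := ((hBD β (lg n)).1 hb).2.2 D D'
    unfold sf
    rw [h1, add_zero]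

end ILD_FN

open ILD_FN in
/-- item FN -/
theorem ld_FN (hTH : StTH) (hDJ : StDJ) (hNC : StNC) (hKY : StKY) (hBD : StBD) : StFN := by
  intro β hβ hβ2
  obtain ⟨D, D', P₀, hP, hK⟩ := hKY β hβ hβ2
  have hA : {n : ℕ | 1 ≤ n ∧ ¬ AlgebraicIndependent ℚ ![lg n, Complex.exp (β * lg n)]} ⊆
      {n : ℕ | 1 ≤ n ∧ sf β D D' (lg n) (lg n) = 0} := by
    rintro n ⟨h1, h2⟩
    exact ⟨h1, zero_of_dep β D D' hBD h1 h2⟩
  refine LNull_mono hA ?_
  refine hDJ _ {p | p.Prime ∧ p ∉ P₀} (fun h => Nat.not_prime_zero h.1) (hTH.2.2.2.2.1 P₀ hP) ?_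
  rintro p ⟨hp1, hp2⟩ q ⟨hq1, hq2⟩ hpq
  have h1 : {a : ℕ | a ∈ {n : ℕ | 1 ≤ n ∧ sf β D D' (lg n) (lg n) = 0} ∧
      ∃ a' ∈ {n : ℕ | 1 ≤ n ∧ sf β D D' (lg n) (lg n) = 0}, p * a = q * a'} ⊆
      {n : ℕ | sf β D D' (lg p - lg q) (lg n) =
        - (sf β D D' (lg p - lg q) (lg p - lg q) / 2)} := by
    rintro a ⟨⟨ha1, ha2⟩, a', ⟨hb1, hb2⟩, hab⟩
    have e1 : lg p + lg a = lg q + lg a' := by
      rw [← lg_mul hp1.pos ha1, ← lg_mul hq1.pos hb1, hab]
    have e2 : lg a' = (lg p - lg q) + lg a := by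
      linear_combination (-1 : ℂ) * e1
    rw [e2] at hb2
    rw [sf_add_right, sf_add_left, sf_add_left, ha2, add_zero,
      sf_comm β D D' (lg a) (lg p - lg q)] at hb2
    show sf β D D' (lg p - lg q) (lg a) = - (sf β D D' (lg p - lg q) (lg p - lg q) / 2)
    linear_combination (1 / 2 : ℂ) * hb2
  refine LNull_mono h1 ?_
  refine hNC (fun n => sf β D D' (lg p - lg q) (lg n)) ?_ ?_ _
  · intro m n hm hn
    rw [lg_mul hm hn, sf_add_right]
  · exact hK p q hp1 hq1 hp2 hq2 hpq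

end Pool.Agent.Work.MP_327059_nt.LD
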