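import Pool.Agent.Work.MP_327059_nt.LD.StmtsG
import Pool.Agent.Work.MP_327059_nt.LD.FN

/-!
# MP_327059_nt, block LE: the assembly
-/

set_option autoImplicit false

namespace Pool.Agent.Work.MP_327059_nt.LD

open Pool.Agent.Work.MP_327059_nt.AA Pool.Agent.Work.MP_327059_nt.FL Pool.Agent.Work.MP_327059_nt.UB
open MvPolynomial

namespace JLE_FG

variable {m : ℕ}

/-- the entries of a row as a rational linear map -/
noncomputable def col (b : Fin m → ℂ) (D : Derivation ℚ ℂ ℂ) (j : Fin (m + 1)) : ℂ →ₗ[ℚ] ℂ :=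
  Fin.cases (D : ℂ →ₗ[ℚ] ℂ) (fun i => ld (b i) D) j

theorem col_apply (b : Fin m → ℂ) (D : Derivation ℚ ℂ ℂ) (j : Fin (m + 1)) (z : ℂ) :
    col b D j z = rw' b D z j := by
  refine Fin.cases ?_ (fun i => ?_) j
  · rfl
  · rfl

/-- the additive function -/
noncomputable def FF (b : Fin m → ℂ) (D : Fin (m + 1) → Derivation ℚ ℂ ℂ) (n : ℕ) :
    Fin (m + 1) × Fin (m + 1) → ℂ := fun x => rw' b (D x.1) (lg n) x.2

theorem FF_mul (b : Fin m → ℂ) (D : Fin (m + 1) → Derivation ℚ ℂ ℂ) (k n : ℕ) (hk : 0 < k)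
    (hn : 0 < n) : FF b D (k * n) = FF b D k + FF b D n := by
  funext x
  rw [Pi.add_apply]
  unfold FF
  rw [← col_apply, ← col_apply, ← col_apply, ILD_FN.lg_mul hk hn, map_add]

theorem rw_lz (b : Fin m → ℂ) (D : Fin (m + 1) → Derivation ℚ ℂ ℂ) (c : ℕ →₀ ℚ)
    (x : Fin (m + 1) × Fin (m + 1)) :
    rw' b (D x.1) (lz c) x.2 = ∑ p ∈ c.support, ((c p : ℂ)) * FF b D p x := by
  rw [← col_apply]
  unfold lz Finsupp.sum
  rw [map_sum]
  refine Finset.sum_congr rfl fun p _ => ?_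
  have e1 : ((c p : ℂ)) * lg p = c p • lg p := (Rat.smul_def (c p) (lg p)).symm
  show col b (D x.1) x.2 (((c p : ℂ)) * lg p) = ((c p : ℂ)) * FF b D p x
  rw [e1, map_smul, Rat.smul_def, col_apply]
  rfl

end JLE_FG

open JLE_FG in
/-- item FG -/
theorem le_FG (hTH : StTH) (hPZ : StPZ) (hEG : StEG) (hDT : StDT) (hDZ : StDZ) (hGD : StGD)
    (hNV : StNV) : StFG := by
  intro m b hb hlin
  obtain ⟨en, hen⟩ := exists_surjective_nat (ℕ →₀ ℚ)
  obtain ⟨D, hD⟩ := hGD m b (fun i => lz (en i))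
  have hD' : ∀ c : ℕ →₀ ℚ, AlgebraicIndependent ℚ (ys b (lz c)) →
      (Matrix.of fun a j => rw' b (D a) (lz c) j).det ≠ 0 := by
    intro c hc
    obtain ⟨i, hi⟩ := hen c
    rw [← hi] at hc ⊢
    exact hD i hc
  obtain ⟨U, hU1, hU2⟩ := hEG (Fin (m + 1) × Fin (m + 1)) (FF b D)
  obtain ⟨P, hP1, hP2⟩ := hDT (m + 1)
  have hQ : {p : ℕ | p.Prime ∧ p ∉ {p : ℕ | p.Prime ∧ FF b D p ∉ U}}.Infinite :=
    hTH.2.2.2.2.2 _ hU1
  obtain ⟨c, hc1, hc2⟩ := hNV m b hb hlin _ hQ (fun p hp => hp.1)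
  have hmem : (fun x : Fin (m + 1) × Fin (m + 1) => rw' b (D x.1) (lz c) x.2) ∈ U := by
    have e1 : (fun x : Fin (m + 1) × Fin (m + 1) => rw' b (D x.1) (lz c) x.2) =
        ∑ p ∈ c.support, ((c p : ℂ)) • FF b D p := by
      funext x
      rw [rw_lz, Finset.sum_apply]
      rfl
    rw [e1]
    refine Submodule.sum_mem _ fun p hp => Submodule.smul_mem _ _ ?_
    by_contra hcon
    exact (hc1 p hp).2 ⟨(hc1 p hp).1, hcon⟩
  have hne : eval (fun x : Fin (m + 1) × Fin (m + 1) => rw' b (D x.1) (lz c) x.2)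
      (homogeneousComponent (m + 1) P) ≠ 0 := by
    rw [homogeneousComponent_of_mem ((mem_homogeneousSubmodule _ _).mpr hP1), if_pos rfl, hP2]
    exact hD' c hc2
  have hmain := hPZ (Fin (m + 1) × Fin (m + 1)) (FF b D) U (FF_mul b D) hU1 hU2 (m + 1) P
    hP1.totalDegree_le ⟨_, hmem, hne⟩
  refine ILD_FN.LNull_mono ?_ hmain
  rintro n ⟨hn1, hn2⟩
  refine ⟨hn1, ?_⟩
  rw [hP2]
  exact hDZ m b (lg n) D hn2

end Pool.Agent.Work.MP_327059_nt.LD
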