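import Pool.Agent.Work.MP_327059_nt.LD.Stmts

/-!
# MP_327059_nt, block LD, item CH: the chain inequality
-/

set_option autoImplicit false

namespace Pool.Agent.Work.MP_327059_nt.LD

namespace ILD_CH

/-- the averaging operator of a finite set of primes -/
noncomputable def K (P : Finset ℕ) (f : ℕ → ℝ) (n : ℕ) : ℝ :=
  ∑ p ∈ P, (1 / ((p : ℝ) * rs P)) * f (p * n)

/-- the functions `h` -/
noncomputable def h (a : ℕ → ℝ) : ℕ → (ℕ → Finset ℕ) → ℕ → ℝ
  | 0, _, n => a n
  | (T + 1), G, n => a n + K (G 0) (h a T (fun j => G (j + 1))) n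

/-- the sums of products -/
noncomputable def S (T : ℕ) (G : ℕ → Finset ℕ) (n : ℕ) : ℝ :=
  ∑ t ∈ Finset.range (T + 1), ∏ j ∈ Finset.range t, (om (G j) n / rs (G j))

theorem ws_add (f g : ℕ → ℝ) (N : ℕ) : ws (fun n => f n + g n) N = ws f N + ws g N := by
  unfold ws
  rw [← Finset.sum_add_distrib]
  exact Finset.sum_congr rfl fun n _ => by ring

theorem ws_le (f g : ℕ → ℝ) (N : ℕ) (hfg : ∀ n, 0 < n → f n ≤ g n) : ws f N ≤ ws g N := by
  unfold ws
  refine Finset.sum_le_sum fun n hn => ?_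
  have hn1 : 1 ≤ n := (Finset.mem_Icc.1 hn).1
  exact div_le_div_of_nonneg_right (hfg n hn1) (Nat.cast_nonneg n)

theorem ws_congr (f g : ℕ → ℝ) (N : ℕ) (hfg : ∀ n, 0 < n → f n = g n) : ws f N = ws g N :=
  le_antisymm (ws_le f g N fun n hn => (hfg n hn).le) (ws_le g f N fun n hn => (hfg n hn).ge)

theorem ws_sum (P : Finset ℕ) (f : ℕ → ℕ → ℝ) (c : ℕ → ℝ) (N : ℕ) :
    ws (fun n => ∑ p ∈ P, c p * f p n) N = ∑ p ∈ P, c p * ws (f p) N := by
  unfold ws
  simp_rw [Finset.mul_sum, Finset.sum_div]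
  rw [Finset.sum_comm]
  refine Finset.sum_congr rfl fun p _ => Finset.sum_congr rfl fun n _ => by ring

/-- the main inequality (1) -/
theorem step (hWS : StWS) (P : Finset ℕ) (hP : ∀ p ∈ P, p.Prime) (hE : 0 < rs P) (f : ℕ → ℝ)
    (hf : ∀ n, 0 ≤ f n) (N : ℕ) :
    ws (fun n => f n * (om P n / rs P)) N ≤ ws (K P f) N := by
  obtain ⟨ha, hb, -, -⟩ := hWS
  have e1 : (fun n => f n * (om P n / rs P)) =
      fun n => ∑ p ∈ P, (1 / rs P) * (if p ∣ n then f n else 0) := by
    funext n
    unfold om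
    rw [Finset.sum_div, Finset.mul_sum]
    refine Finset.sum_congr rfl fun p _ => ?_
    split_ifs <;> ring
  have e2 : K P f = fun n => ∑ p ∈ P, (1 / ((p : ℝ) * rs P)) * (fun n => f (p * n)) n := rfl
  rw [e1, ws_sum P (fun p n => if p ∣ n then f n else 0) (fun _ => 1 / rs P) N]
  rw [e2, ws_sum P (fun p n => f (p * n)) (fun p => 1 / ((p : ℝ) * rs P)) N]
  refine Finset.sum_le_sum fun p hp => ?_
  have hp0 : 0 < p := (hP p hp).pos
  rw [ha f p N hp0]
  have h1 : ws (fun n => f (p * n)) (N / p) ≤ ws (fun n => f (p * n)) N :=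
    hb _ _ _ (fun n => hf _) (Nat.div_le_self N p)
  have hp' : (0 : ℝ) < p := by exact_mod_cast hp0
  calc 1 / rs P * (1 / (p : ℝ) * ws (fun n => f (p * n)) (N / p))
      = (1 / ((p : ℝ) * rs P)) * ws (fun n => f (p * n)) (N / p) := by
        field_simp
    _ ≤ _ := mul_le_mul_of_nonneg_left h1 (by positivity)

theorem h_nonneg (a : ℕ → ℝ) (ha : ∀ n, 0 ≤ a n) (T : ℕ) : ∀ (G : ℕ → Finset ℕ),
    (∀ j, 0 < rs (G j)) → ∀ n, 0 ≤ h a T G n := by
  induction T with
  | zero =>
    intro G _ n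
    exact ha n
  | succ T ih =>
    intro G hG n
    have h1 := ih (fun j => G (j + 1)) (fun j => hG (j + 1))
    show 0 ≤ a n + K (G 0) (h a T (fun j => G (j + 1))) n
    have h2 : 0 ≤ K (G 0) (h a T (fun j => G (j + 1))) n :=
      Finset.sum_nonneg fun p _ => mul_nonneg (by have := hG 0; positivity) (h1 _)
    linarith [ha n]

theorem h_bound (lam : ℕ → ℝ) (c : ℝ)
    (hadd : ∀ m n : ℕ, 0 < m → 0 < n → lam (m * n) = lam m + lam n) (T : ℕ) :
    ∀ (G : ℕ → Finset ℕ), (∀ j, ∀ p ∈ G j, p.Prime ∧ 0 < lam p) → (∀ j, 0 < rs (G j)) →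
    ∀ n, 0 < n → h (ind {n | lam n = c}) T G n ≤ 1 ∧
      (c < lam n → h (ind {n | lam n = c}) T G n = 0) := by
  induction T with
  | zero =>
    intro G _ _ n hn
    show ind {n | lam n = c} n ≤ 1 ∧ (c < lam n → ind {n | lam n = c} n = 0)
    unfold ind
    by_cases e : lam n = c
    · simp [Set.indicator, e]
    · simp [Set.indicator, e]
  | succ T ih =>
    intro G hp hG n hn
    have ih' := ih (fun j => G (j + 1)) (fun j => hp (j + 1)) (fun j => hG (j + 1))
    show ind {n | lam n = c} n + K (G 0) (h (ind {n | lam n = c}) T (fun j => G (j + 1))) n ≤ 1 ∧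
      (c < lam n →
        ind {n | lam n = c} n + K (G 0) (h (ind {n | lam n = c}) T (fun j => G (j + 1))) n = 0)
    have hKz : c ≤ lam n → K (G 0) (h (ind {n | lam n = c}) T (fun j => G (j + 1))) n = 0 := by
      intro hc
      refine Finset.sum_eq_zero fun p hpG => ?_
      obtain ⟨hpr, hpl⟩ := hp 0 p hpG
      have e1 : c < lam (p * n) := by
        rw [hadd p n hpr.pos hn]
        linarith
      rw [(ih' (p * n) (Nat.mul_pos hpr.pos hn)).2 e1, mul_zero]
    have hE := hG 0
    have hK1 : K (G 0) (h (ind {n | lam n = c}) T (fun j => G (j + 1))) n ≤ 1 := by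
      have e1 : ∑ p ∈ G 0, (1 / ((p : ℝ) * rs (G 0))) = 1 := by
        have e2 : ∀ p ∈ G 0, (1 / ((p : ℝ) * rs (G 0))) = (1 / (p : ℝ)) * (1 / rs (G 0)) := by
          intro p _
          rw [one_div_mul_one_div]
        rw [Finset.sum_congr rfl e2, ← Finset.sum_mul]
        show rs (G 0) * (1 / rs (G 0)) = 1
        field_simp
      rw [← e1]
      refine Finset.sum_le_sum fun p hpG => ?_
      obtain ⟨hpr, hpl⟩ := hp 0 p hpG
      have e3 := (ih' (p * n) (Nat.mul_pos hpr.pos hn)).1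
      have e4 : (0 : ℝ) ≤ 1 / ((p : ℝ) * rs (G 0)) := by positivity
      calc 1 / ((p : ℝ) * rs (G 0)) * h (ind {n | lam n = c}) T (fun j => G (j + 1)) (p * n)
          ≤ 1 / ((p : ℝ) * rs (G 0)) * 1 := mul_le_mul_of_nonneg_left e3 e4
        _ = _ := mul_one _
    have hind1 : lam n = c → ind {n | lam n = c} n = 1 := fun e => by
      unfold ind
      simp [Set.indicator, e]
    have hind0 : lam n ≠ c → ind {n | lam n = c} n = 0 := fun e => by
      unfold ind
      simp [Set.indicator, e]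
    constructor
    · rcases lt_trichotomy (lam n) c with e | e | e
      · rw [hind0 e.ne, zero_add]
        exact hK1
      · rw [hind1 e, hKz e.ge, add_zero]
      · rw [hind0 e.ne', hKz e.le, add_zero]
        exact zero_le_one
    · intro e
      rw [hind0 e.ne', hKz e.le, add_zero]

theorem S_succ (T : ℕ) (G : ℕ → Finset ℕ) (n : ℕ) :
    S (T + 1) G n = 1 + (om (G 0) n / rs (G 0)) * S T (fun j => G (j + 1)) n := by
  unfold S
  rw [Finset.sum_range_succ' _ (T + 1)]
  simp only [Finset.prod_range_zero]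
  rw [add_comm, Finset.mul_sum]
  congr 1
  refine Finset.sum_congr rfl fun t _ => ?_
  rw [Finset.prod_range_succ', mul_comm]

theorem om_mul (P : Finset ℕ) (hP : ∀ q ∈ P, q.Prime) (p : ℕ) (hp : p.Prime) (hpP : p ∉ P) (n : ℕ) :
    om P (p * n) = om P n := by
  unfold om
  refine Finset.sum_congr rfl fun q hq => ?_
  have e : q ∣ p * n ↔ q ∣ n := by
    constructor
    · intro hd
      rcases (hP q hq).dvd_mul.1 hd with h1 | h1
      · exfalso
        have h2 : q = p := (Nat.prime_dvd_prime_iff_eq (hP q hq) hp).1 h1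
        exact hpP (h2 ▸ hq)
      · exact h1
    · intro hd
      exact hd.mul_left p
  simp only [e]

theorem om_nonneg (P : Finset ℕ) (n : ℕ) : 0 ≤ om P n :=
  Finset.sum_nonneg fun p _ => by split_ifs <;> norm_num

theorem chain (hWS : StWS) (a : ℕ → ℝ) (ha : ∀ n, 0 ≤ a n) (N T : ℕ) :
    ∀ (G : ℕ → Finset ℕ) (Q : ℕ → ℝ), (∀ j, ∀ p ∈ G j, p.Prime) →
    (∀ i j, i ≠ j → Disjoint (G i) (G j)) → (∀ j, 0 < rs (G j)) → (∀ n, 0 ≤ Q n) →
    (∀ j, ∀ p ∈ G j, ∀ n, Q (p * n) = Q n) →
    ws (fun n => a n * S T G n * Q n) N ≤ ws (fun n => h a T G n * Q n) N := by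
  induction T with
  | zero =>
    intro G Q _ _ _ _ _
    refine ws_le _ _ N fun n _ => ?_
    have e : S 0 G n = 1 := by
      unfold S
      simp
    show a n * S 0 G n * Q n ≤ a n * Q n
    rw [e, mul_one]
  | succ T ih =>
    intro G Q hp hdis hE hQ0 hQ
    have hQ'0 : ∀ n, 0 ≤ Q n * (om (G 0) n / rs (G 0)) := fun n =>
      mul_nonneg (hQ0 n) (div_nonneg (om_nonneg _ _) (hE 0).le)
    have ih' := ih (fun j => G (j + 1)) (fun n => Q n * (om (G 0) n / rs (G 0)))
      (fun j => hp (j + 1)) (fun i j hij => hdis (i + 1) (j + 1) (by omega)) (fun j => hE (j + 1))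
      hQ'0 (fun j p hpj n => by
        have hnot : p ∉ G 0 := by
          intro h0
          exact (Finset.disjoint_left.1 (hdis (j + 1) 0 (by omega)) hpj) h0
        show Q (p * n) * (om (G 0) (p * n) / rs (G 0)) = Q n * (om (G 0) n / rs (G 0))
        rw [hQ (j + 1) p hpj n, om_mul (G 0) (hp 0) p (hp (j + 1) p hpj) hnot n])
    have hh := h_nonneg a ha T (fun j => G (j + 1)) (fun j => hE (j + 1))
    have hst := step hWS (G 0) (hp 0) (hE 0) (fun n => h a T (fun j => G (j + 1)) n * Q n)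
      (fun n => mul_nonneg (hh n) (hQ0 n)) N
    have e1 : ws (fun n => a n * S (T + 1) G n * Q n) N =
        ws (fun n => a n * Q n) N +
        ws (fun n => a n * S T (fun j => G (j + 1)) n * (Q n * (om (G 0) n / rs (G 0)))) N := by
      rw [← ws_add]
      refine ws_congr _ _ N fun n _ => ?_
      show a n * S (T + 1) G n * Q n = _
      rw [S_succ]
      ring
    have e2 : ws (fun n => h a (T + 1) G n * Q n) N =
        ws (fun n => a n * Q n) N +
        ws (K (G 0) (fun n => h a T (fun j => G (j + 1)) n * Q n)) N := by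
      rw [← ws_add]
      refine ws_congr _ _ N fun n _ => ?_
      show (a n + K (G 0) (h a T (fun j => G (j + 1))) n) * Q n =
        a n * Q n + K (G 0) (fun n => h a T (fun j => G (j + 1)) n * Q n) n
      have e3 : K (G 0) (fun n => h a T (fun j => G (j + 1)) n * Q n) n =
          K (G 0) (h a T (fun j => G (j + 1))) n * Q n := by
        unfold K
        rw [Finset.sum_mul]
        refine Finset.sum_congr rfl fun p hpG => ?_
        show 1 / ((p : ℝ) * rs (G 0)) * (h a T (fun j => G (j + 1)) (p * n) * Q (p * n)) = _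
        rw [hQ 0 p hpG n]
        ring
      rw [e3]
      ring
    rw [e1, e2]
    have e4 : ws (fun n => h a T (fun j => G (j + 1)) n * (Q n * (om (G 0) n / rs (G 0)))) N =
        ws (fun n => h a T (fun j => G (j + 1)) n * Q n * (om (G 0) n / rs (G 0))) N :=
      ws_congr _ _ N fun n _ => by ring
    have e5 := ih'.trans (e4.le.trans hst)
    linarith

end ILD_CH

/-- item CH -/
theorem ld_CH (hWS : StWS) : StCH := by
  intro lam G T N c hadd hp hdis hE
  have ha : ∀ n, 0 ≤ ind {n | lam n = c} n := by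
    intro n
    unfold ind
    exact Set.indicator_nonneg (fun _ _ => zero_le_one) n
  have h1 := ILD_CH.chain hWS (ind {n | lam n = c}) ha N T G (fun _ => 1)
    (fun j p hpj => (hp j p hpj).1) hdis hE (fun _ => zero_le_one) (fun _ _ _ _ => rfl)
  have h2 := ILD_CH.h_bound lam c hadd T G hp hE
  refine le_trans (le_of_eq ?_) (h1.trans ?_)
  · refine ILD_CH.ws_congr _ _ N fun n _ => ?_
    show _ = ind {n | lam n = c} n * ILD_CH.S T G n * 1
    rw [mul_one]
    rfl
  · refine ILD_CH.ws_le _ _ N fun n hn => ?_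
    show ILD_CH.h (ind {n | lam n = c}) T G n * 1 ≤ 1
    rw [mul_one]
    exact (h2 n hn).1

end Pool.Agent.Work.MP_327059_nt.LD
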