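import Pool.Agent.Work.MP_327059_nt.LD.Stmts

/-!
# MP_327059_nt, block LD, item DJ: almost disjoint multiples
-/

set_option autoImplicit false

namespace Pool.Agent.Work.MP_327059_nt.LD

namespace ILD_DJ

theorem ws_mono {f g : ℕ → ℝ} (N : ℕ) (h : ∀ n, f n ≤ g n) : ws f N ≤ ws g N := by
  unfold ws
  exact Finset.sum_le_sum fun n _ => div_le_div_of_nonneg_right (h n) (Nat.cast_nonneg n)

theorem ws_add (f g : ℕ → ℝ) (N : ℕ) : ws (fun n => f n + g n) N = ws f N + ws g N := by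
  unfold ws
  rw [← Finset.sum_add_distrib]
  exact Finset.sum_congr rfl fun n _ => add_div _ _ _

theorem ws_sum {ι : Type} (s : Finset ι) (f : ι → ℕ → ℝ) (N : ℕ) :
    ws (fun n => ∑ i ∈ s, f i n) N = ∑ i ∈ s, ws (f i) N := by
  unfold ws
  rw [Finset.sum_comm]
  exact Finset.sum_congr rfl fun n _ => Finset.sum_div _ _ _

theorem ws_nonneg {f : ℕ → ℝ} (N : ℕ) (h : ∀ n, 0 ≤ f n) : 0 ≤ ws f N := by
  unfold ws
  exact Finset.sum_nonneg fun n _ => div_nonneg (h n) (Nat.cast_nonneg n)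

theorem ind_nonneg (A : Set ℕ) (n : ℕ) : 0 ≤ ind A n := by
  unfold ind
  exact Set.indicator_nonneg (fun _ _ => zero_le_one) n

theorem ind_le_one (A : Set ℕ) (n : ℕ) : ind A n ≤ 1 := by
  unfold ind
  exact Set.indicator_le_self' (fun _ _ => zero_le_one) n

theorem ind_sq (A : Set ℕ) (n : ℕ) : ind A n * ind A n = ind A n := by
  unfold ind
  by_cases h : n ∈ A
  · rw [Set.indicator_of_mem h, mul_one]
  · rw [Set.indicator_of_notMem h, mul_zero]

/-- the indicator function of `m A` -/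
noncomputable def gm (A : Set ℕ) (m n : ℕ) : ℝ := if m ∣ n then ind A (n / m) else 0

theorem gm_nonneg (A : Set ℕ) (m n : ℕ) : 0 ≤ gm A m n := by
  unfold gm
  split_ifs
  · exact ind_nonneg _ _
  · exact le_rfl

theorem gm_sq (A : Set ℕ) (m n : ℕ) : gm A m n * gm A m n = gm A m n := by
  unfold gm
  split_ifs
  · exact ind_sq _ _
  · exact mul_zero _

theorem pointwise (A : Set ℕ) (F : Finset ℕ) (n : ℕ) :
    ∑ m ∈ F, gm A m n ≤ 1 + ∑ m ∈ F, ∑ m' ∈ F, (if m = m' then 0 else gm A m n * gm A m' n) := by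
  have h1 : ∀ m ∈ F, ∑ m' ∈ F, (if m = m' then 0 else gm A m n * gm A m' n) =
      gm A m n * (∑ m' ∈ F, gm A m' n) - gm A m n := by
    intro m hm
    have h2 : ∀ m' ∈ F, (if m = m' then 0 else gm A m n * gm A m' n) =
        gm A m n * gm A m' n - (if m = m' then gm A m n * gm A m' n else 0) := by
      intro m' _
      split_ifs
      · rw [sub_self]
      · rw [sub_zero]
    rw [Finset.sum_congr rfl h2, Finset.sum_sub_distrib, Finset.sum_ite_eq, if_pos hm, gm_sq,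
      Finset.mul_sum]
  rw [Finset.sum_congr rfl h1, Finset.sum_sub_distrib, ← Finset.sum_mul]
  nlinarith [sq_nonneg (∑ m ∈ F, gm A m n - 1)]

theorem gm_ws (hWS : StWS) (A : Set ℕ) (m N : ℕ) (hm : 0 < m) :
    ws (gm A m) N = (1 / (m : ℝ)) * ws (ind A) (N / m) := by
  have h1 := hWS.1 (fun n => ind A (n / m)) m N hm
  have h2 : (fun n => ind A (m * n / m)) = ind A := by
    funext n
    rw [Nat.mul_div_cancel_left n hm]
  have h3 : (fun n => (fun n => ind A (n / m)) (m * n)) = ind A := h2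
  rw [h3] at h1
  exact h1

theorem gm_lower (hWS : StWS) (A : Set ℕ) (m N : ℕ) (hm : 0 < m) :
    (1 / (m : ℝ)) * ws (ind A) N - (1 / (m : ℝ)) * (Real.log m + 1) ≤ ws (gm A m) N := by
  rw [gm_ws hWS A m N hm, ← mul_sub]
  have h1 := hWS.2.2.2 (ind A) m N (fun n => ⟨ind_nonneg A n, ind_le_one A n⟩) hm
  apply mul_le_mul_of_nonneg_left _ (by positivity)
  linarith

theorem gm_pair (hWS : StWS) (A : Set ℕ) (m m' N : ℕ) (hm : 0 < m) :
    ws (fun n => gm A m n * gm A m' n) N ≤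
      ws (ind {a | a ∈ A ∧ ∃ a' ∈ A, m * a = m' * a'}) N := by
  have h1 := hWS.1 (fun n => ind A (n / m) * gm A m' n) m N hm
  have h2 : (fun n => gm A m n * gm A m' n) =
      fun n => if m ∣ n then (fun n => ind A (n / m) * gm A m' n) n else 0 := by
    funext n
    unfold gm
    by_cases h : m ∣ n
    · simp only [if_pos h]
    · simp only [if_neg h, zero_mul]
  rw [h2, h1]
  have h3 : ws (fun n => (fun n => ind A (n / m) * gm A m' n) (m * n)) (N / m) ≤
      ws (ind {a | a ∈ A ∧ ∃ a' ∈ A, m * a = m' * a'}) (N / m) := by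
    apply ws_mono
    intro n
    show ind A (m * n / m) * gm A m' (m * n) ≤ _
    rw [Nat.mul_div_cancel_left n hm]
    by_cases hn : n ∈ A
    · by_cases hd : m' ∣ m * n
      · by_cases ha : m * n / m' ∈ A
        · have hB : n ∈ {a | a ∈ A ∧ ∃ a' ∈ A, m * a = m' * a'} :=
            ⟨hn, _, ha, (Nat.mul_div_cancel' hd).symm⟩
          unfold gm
          rw [if_pos hd]
          unfold ind
          rw [Set.indicator_of_mem hn, Set.indicator_of_mem ha, Set.indicator_of_mem hB, mul_one]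
        · unfold gm
          rw [if_pos hd]
          have : ind A (m * n / m') = 0 := Set.indicator_of_notMem ha _
          rw [this, mul_zero]
          exact ind_nonneg _ _
      · unfold gm
        rw [if_neg hd, mul_zero]
        exact ind_nonneg _ _
    · have : ind A n = 0 := Set.indicator_of_notMem hn _
      rw [this, zero_mul]
      exact ind_nonneg _ _
  have h4 : ws (ind {a | a ∈ A ∧ ∃ a' ∈ A, m * a = m' * a'}) (N / m) ≤
      ws (ind {a | a ∈ A ∧ ∃ a' ∈ A, m * a = m' * a'}) N :=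
    hWS.2.1 _ _ _ (fun n => ind_nonneg _ n) (Nat.div_le_self N m)
  have h5 : (1 / (m : ℝ)) ≤ 1 := by
    rw [div_le_one (by exact_mod_cast hm)]
    exact_mod_cast hm
  have h6 : 0 ≤ ws (ind {a | a ∈ A ∧ ∃ a' ∈ A, m * a = m' * a'}) N :=
    ws_nonneg N fun n => ind_nonneg _ n
  calc (1 / (m : ℝ)) * ws (fun n => (fun n => ind A (n / m) * gm A m' n) (m * n)) (N / m)
      ≤ (1 / (m : ℝ)) * ws (ind {a | a ∈ A ∧ ∃ a' ∈ A, m * a = m' * a'}) N :=
        mul_le_mul_of_nonneg_left (h3.trans h4) (by positivity)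
    _ ≤ 1 * ws (ind {a | a ∈ A ∧ ∃ a' ∈ A, m * a = m' * a'}) N :=
        mul_le_mul_of_nonneg_right h5 h6
    _ = _ := one_mul _

theorem exists_finset (M : Set ℕ) (h : ¬ Thin M) (E : ℝ) :
    ∃ F : Finset ℕ, (∀ m ∈ F, m ∈ M) ∧ E ≤ rs F := by
  classical
  have h0 : ∀ n, 0 ≤ M.indicator (fun p : ℕ => (1 : ℝ) / p) n := by
    intro n
    exact Set.indicator_nonneg (fun p _ => by positivity) n
  have h1 := (not_summable_iff_tendsto_nat_atTop_of_nonneg h0).1 h
  obtain ⟨n, hn⟩ := (h1.eventually_ge_atTop E).exists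
  refine ⟨(Finset.range n).filter (fun m => m ∈ M), fun m hm => (Finset.mem_filter.1 hm).2, ?_⟩
  unfold rs
  rw [Finset.sum_filter]
  refine hn.trans (le_of_eq (Finset.sum_congr rfl fun i _ => ?_))
  by_cases hi : i ∈ M
  · rw [Set.indicator_of_mem hi, if_pos hi]
  · rw [Set.indicator_of_notMem hi, if_neg hi]

end ILD_DJ

open ILD_DJ in
theorem ld_DJ (hWS : StWS) : StDJ := by
  intro A M h0 hM hB ε hε
  obtain ⟨F, hFM, hF⟩ := exists_finset M hM (2 / ε)
  have hpos : ∀ m ∈ F, 0 < m := by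
    intro m hm
    rcases Nat.eq_zero_or_pos m with h | h
    · rw [h] at hm
      exact absurd (hFM 0 hm) h0
    · exact h
  obtain ⟨δ, hδ⟩ : ∃ δ : ℝ, δ = 1 / ((F.card : ℝ) ^ 2 + 1) := ⟨_, rfl⟩
  have hδ0 : 0 < δ := by
    rw [hδ]
    positivity
  have hδ1 : (F.card : ℝ) * ((F.card : ℝ) * δ) ≤ 1 := by
    rw [hδ, ← mul_assoc, ← pow_two, mul_one_div, div_le_one (by positivity)]
    linarith
  have hex : ∀ m m' : ℕ, ∃ C : ℝ, m ∈ F → m' ∈ F → m ≠ m' → ∀ N : ℕ,
      ws (ind {a | a ∈ A ∧ ∃ a' ∈ A, m * a = m' * a'}) N ≤ δ * Real.log N + C := by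
    intro m m'
    by_cases h : m ∈ F ∧ m' ∈ F ∧ m ≠ m'
    · obtain ⟨C, hC⟩ := hB m (hFM m h.1) m' (hFM m' h.2.1) h.2.2 δ hδ0
      exact ⟨C, fun _ _ _ => hC⟩
    · exact ⟨0, fun h1 h2 h3 => absurd ⟨h1, h2, h3⟩ h⟩
  choose C hC using hex
  have hR : 0 < rs F := lt_of_lt_of_le (by positivity) hF
  refine ⟨(1 + ∑ m ∈ F, ∑ m' ∈ F, |C m m'| + ∑ m ∈ F, (1 / (m : ℝ)) * (Real.log m + 1)) / rs F, ?_⟩
  intro N
  have hlog : 0 ≤ Real.log N := Real.log_natCast_nonneg N
  -- lower bound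
  have h1 : rs F * ws (ind A) N - ∑ m ∈ F, (1 / (m : ℝ)) * (Real.log m + 1) ≤
      ∑ m ∈ F, ws (gm A m) N := by
    unfold rs
    rw [Finset.sum_mul, ← Finset.sum_sub_distrib]
    exact Finset.sum_le_sum fun m hm => gm_lower hWS A m N (hpos m hm)
  -- upper bound
  have h2 : ∑ m ∈ F, ws (gm A m) N ≤ ws (fun _ => 1) N +
      ∑ m ∈ F, ∑ m' ∈ F, ws (fun n => if m = m' then 0 else gm A m n * gm A m' n) N := by
    have h3 := ws_mono N (pointwise A F)
    rw [ws_sum, ws_add, ws_sum] at h3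
    refine h3.trans (le_of_eq ?_)
    congr 1
    exact Finset.sum_congr rfl fun m _ => ws_sum F _ N
  have h4 : ∑ m ∈ F, ∑ m' ∈ F, ws (fun n => if m = m' then 0 else gm A m n * gm A m' n) N ≤
      ∑ m ∈ F, ∑ m' ∈ F, (δ * Real.log N + |C m m'|) := by
    refine Finset.sum_le_sum fun m hm => Finset.sum_le_sum fun m' hm' => ?_
    by_cases h : m = m'
    · simp only [if_pos h]
      have : ws (fun _ => (0 : ℝ)) N = 0 := by
        unfold ws
        simp
      rw [this]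
      positivity
    · simp only [if_neg h]
      refine (gm_pair hWS A m m' N (hpos m hm)).trans ((hC m m' hm hm' h N).trans ?_)
      have := le_abs_self (C m m')
      linarith
  have h5 : ∑ m ∈ F, ∑ m' ∈ F, (δ * Real.log N + |C m m'|) ≤
      Real.log N + ∑ m ∈ F, ∑ m' ∈ F, |C m m'| := by
    have e : ∑ m ∈ F, ∑ m' ∈ F, (δ * Real.log N + |C m m'|) =
        (F.card : ℝ) * ((F.card : ℝ) * δ) * Real.log N + ∑ m ∈ F, ∑ m' ∈ F, |C m m'| := by
      simp only [Finset.sum_add_distrib, Finset.sum_const, nsmul_eq_mul]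
      ring
    rw [e]
    have := mul_le_mul_of_nonneg_right hδ1 hlog
    linarith
  have h6 := hWS.2.2.1 N
  have h7 : rs F * ws (ind A) N ≤ 2 * Real.log N +
      (1 + ∑ m ∈ F, ∑ m' ∈ F, |C m m'| + ∑ m ∈ F, (1 / (m : ℝ)) * (Real.log m + 1)) := by
    linarith
  have h8 : ws (ind A) N ≤ (2 * Real.log N +
      (1 + ∑ m ∈ F, ∑ m' ∈ F, |C m m'| + ∑ m ∈ F, (1 / (m : ℝ)) * (Real.log m + 1))) / rs F := by
    rw [le_div_iff₀ hR, mul_comm]
    exact h7
  rw [add_div] at h8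
  have h9 : 2 * Real.log N / rs F ≤ ε * Real.log N := by
    rw [div_le_iff₀ hR]
    have h10 : 2 ≤ ε * rs F := by
      rw [div_le_iff₀ hε] at hF
      linarith
    have := mul_le_mul_of_nonneg_right h10 hlog
    linarith
  linarith

end Pool.Agent.Work.MP_327059_nt.LD
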