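import Pool.Agent.Work.MP_327059_nt.LD.StmtsL

/-!
# MP_327059_nt, block LD, item GP: a generic pair of derivations
-/

set_option autoImplicit false

namespace Pool.Agent.Work.MP_327059_nt.LD

open Pool.Agent.Work.MP_327059_nt.AA Pool.Agent.Work.MP_327059_nt.FL Pool.Agent.Work.MP_327059_nt.UB

namespace ILD_GP

open KaehlerDifferential

/-- the element of `Ω[ℂ⁄ℚ]` at which a derivation is evaluated -/
noncomputable def wt (β : ℂ) (D' : Derivation ℚ ℂ ℂ) (x y : ℂ) : Ω[ℂ⁄ℚ] :=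
  (ld β D' y) • (D ℚ ℂ x) - (D' x / Complex.exp (β * y)) • (D ℚ ℂ (Complex.exp (β * y))) +
    ((ld β D' x) • (D ℚ ℂ y) - (D' y / Complex.exp (β * x)) • (D ℚ ℂ (Complex.exp (β * x))))

theorem sf_wt (β : ℂ) (E D' : Derivation ℚ ℂ ℂ) (φ : Ω[ℂ⁄ℚ] →ₗ[ℂ] ℂ) (x y : ℂ)
    (h : ∀ z, φ (D ℚ ℂ z) = E z) : φ (wt β D' x y) = sf β E D' x y := by
  unfold wt sf bf
  rw [map_add, map_sub, map_sub, map_smul, map_smul, map_smul, map_smul, h, h, h, h]
  rw [ld_apply β E, ld_apply β E]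
  simp only [smul_eq_mul]
  ring

theorem sf_neg (β : ℂ) (E D' : Derivation ℚ ℂ ℂ) (x y : ℂ) : sf β E D' x y = -sf β D' E x y := by
  unfold sf bf
  ring

end ILD_GP

open ILD_GP in
theorem ld_GP (hGV : StGV) : StGP := by
  intro β x y h
  choose D1 D2 h12 using h
  have hl : ∀ (E : Derivation ℚ ℂ ℂ) (z : ℂ),
      E.liftKaehlerDifferential (KaehlerDifferential.D ℚ ℂ z) = E z :=
    fun E z => E.liftKaehlerDifferential_comp_D z
  have h1 : ∀ i, wt β (D2 i) (x i) (y i) ≠ 0 := by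
    intro i h0
    apply h12 i
    rw [← sf_wt β (D1 i) (D2 i) (D1 i).liftKaehlerDifferential (x i) (y i) (hl _), h0, map_zero]
  obtain ⟨φ, hφ⟩ := hGV _ _ h1
  set E : Derivation ℚ ℂ ℂ := φ.compDer (KaehlerDifferential.D ℚ ℂ) with hE
  have h2 : ∀ i, sf β E (D2 i) (x i) (y i) ≠ 0 := by
    intro i
    rw [← sf_wt β E (D2 i) φ (x i) (y i) (fun z => rfl)]
    exact hφ i
  have h3 : ∀ i, wt β E (x i) (y i) ≠ 0 := by
    intro i h0
    apply h2 i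
    rw [sf_neg, ← sf_wt β (D2 i) E (D2 i).liftKaehlerDifferential (x i) (y i) (hl _), h0, map_zero,
      neg_zero]
  obtain ⟨φ', hφ'⟩ := hGV _ _ h3
  refine ⟨E, φ'.compDer (KaehlerDifferential.D ℚ ℂ), fun i => ?_⟩
  rw [sf_neg, ← sf_wt β (φ'.compDer (KaehlerDifferential.D ℚ ℂ)) E φ' (x i) (y i) (fun z => rfl)]
  exact neg_ne_zero.2 (hφ' i)

end Pool.Agent.Work.MP_327059_nt.LD
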