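import Pool.Agent.Work.MP_327059_nt.LD.Stmts

/-!
# MP_327059_nt, block LD, item GV: a generic functional
-/

set_option autoImplicit false

namespace Pool.Agent.Work.MP_327059_nt.LD

namespace ILD_GV

/-- The polynomial with the coefficients `c j` at the exponents `K j`. -/
noncomputable def pol {ι : Type*} (c : ι →₀ ℂ) (K : ι → ℕ) : Polynomial ℂ :=
  ∑ j ∈ c.support, Polynomial.C (c j) * Polynomial.X ^ (K j)

theorem pol_ne {ι : Type*} (c : ι →₀ ℂ) (K : ι → ℕ) (hc : c ≠ 0)
    (hK : Set.InjOn K (c.support : Set ι)) : pol c K ≠ 0 := by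
  obtain ⟨j0, hj0⟩ := Finsupp.support_nonempty_iff.2 hc
  intro h
  have h1 : (pol c K).coeff (K j0) = c j0 := by
    unfold pol
    rw [Polynomial.finsetSum_coeff, Finset.sum_eq_single j0]
    · rw [Polynomial.coeff_C_mul_X_pow, if_pos rfl]
    · intro j hj hne
      rw [Polynomial.coeff_C_mul_X_pow, if_neg]
      intro hk
      exact hne (hK hj hj0 hk.symm)
    · intro hn
      exact absurd hj0 hn
  rw [h, Polynomial.coeff_zero] at h1
  exact (Finsupp.mem_support_iff.1 hj0) h1.symm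

theorem pol_eval {ι : Type*} (c : ι →₀ ℂ) (K : ι → ℕ) (t : ℂ) :
    (pol c K).eval t = ∑ j ∈ c.support, c j * t ^ (K j) := by
  unfold pol
  rw [Polynomial.eval_finsetSum]
  refine Finset.sum_congr rfl fun j _ => ?_
  rw [Polynomial.eval_mul, Polynomial.eval_C, Polynomial.eval_pow, Polynomial.eval_X]

end ILD_GV

theorem ld_GV : StGV := by
  intro M _ _ w hw
  obtain ⟨b, -⟩ : ∃ b : Module.Basis (Module.Basis.ofVectorSpaceIndex ℂ M) ℂ M, True :=
    ⟨Module.Basis.ofVectorSpace ℂ M, trivial⟩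
  have hJ : (⋃ i : ℕ, ((b.repr (w i)).support : Set (Module.Basis.ofVectorSpaceIndex ℂ M))).Countable :=
    Set.countable_iUnion fun i => (Finset.countable_toSet _)
  obtain ⟨K, hK⟩ := Set.countable_iff_exists_injOn.1 hJ
  have hne : ∀ i, ILD_GV.pol (b.repr (w i)) K ≠ 0 := by
    intro i
    apply ILD_GV.pol_ne
    · intro h
      exact hw i (b.repr.map_eq_zero_iff.1 h)
    · intro x hx y hy hxy
      exact hK (Set.mem_iUnion.2 ⟨i, hx⟩) (Set.mem_iUnion.2 ⟨i, hy⟩) hxy
  have hroots : (⋃ i : ℕ, {t : ℂ | (ILD_GV.pol (b.repr (w i)) K).eval t = 0}).Countable := by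
    refine Set.countable_iUnion fun i => ?_
    refine Set.Countable.mono ?_ (Finset.countable_toSet (ILD_GV.pol (b.repr (w i)) K).roots.toFinset)
    intro t ht
    rw [Finset.mem_coe, Multiset.mem_toFinset, Polynomial.mem_roots (hne i)]
    exact ht
  obtain ⟨t, ht⟩ : ∃ t : ℂ, t ∉ ⋃ i : ℕ, {t : ℂ | (ILD_GV.pol (b.repr (w i)) K).eval t = 0} := by
    by_contra hc
    push Not at hc
    exact not_countable_complex (hroots.mono fun t _ => hc t)
  refine ⟨b.constr ℂ (fun j => t ^ (K j)), fun i h => ht (Set.mem_iUnion.2 ⟨i, ?_⟩)⟩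
  show (ILD_GV.pol (b.repr (w i)) K).eval t = 0
  rw [ILD_GV.pol_eval, ← h, Module.Basis.constr_apply]
  rfl

end Pool.Agent.Work.MP_327059_nt.LD
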