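import Pool.Agent.Work.MP_327059_nt.LD.StmtsL
import Pool.Agent.Work.MP_327059_nt.UB.I_ND

/-!
# MP_327059_nt, block LD, item IN (helper59): only finitely many primes are orthogonal to a bad logarithm
-/

set_option autoImplicit false

namespace Pool.Agent.Work.MP_327059_nt.LD

open Pool.Agent.Work.MP_327059_nt.AA Pool.Agent.Work.MP_327059_nt.FL Pool.Agent.Work.MP_327059_nt.UB

namespace ILD_IN

theorem exp_lg {n : ℕ} (hn : n.Prime) : Complex.exp (lg n) = (n : ℂ) := by
  unfold lg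
  rw [← Complex.ofReal_exp, Real.exp_log (by exact_mod_cast hn.pos)]
  simp

theorem alg_nat (n : ℕ) : IsAlgebraic ℚ (n : ℂ) := by
  have h := isAlgebraic_algebraMap (R := ℚ) (A := ℂ) (n : ℚ)
  simpa using h

end ILD_IN

/-- Item IN. -/
theorem ld_IN (hLP : StLP) : StIN := by
  intro β r hβ hirr hbad
  by_contra hinf
  obtain ⟨t, ht, hc⟩ := Set.Infinite.exists_subset_card_eq (Set.not_finite.1 hinf) 3
  obtain ⟨p, q, s, hpq, hps, hqs, rfl⟩ := Finset.card_eq_three.1 hc
  have hp := ht (Finset.mem_coe.2 (show p ∈ ({p, q, s} : Finset ℕ) by simp))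
  have hq := ht (Finset.mem_coe.2 (show q ∈ ({p, q, s} : Finset ℕ) by simp))
  have hs := ht (Finset.mem_coe.2 (show s ∈ ({p, q, s} : Finset ℕ) by simp))
  have hst : Transcendental ℚ r := fun h => LW.transcendental_exp h hbad.ne hbad.exp
  have key : ∀ n : ℕ, (n.Prime ∧ ∀ D D' : Derivation ℚ ℂ ℂ, sf β D D' r (lg n) = 0) →
      Alg r (lg n) ∧ Alg r (Complex.exp (lg n)) ∧ Alg r (Complex.exp (β * lg n)) := by
    intro n hn
    obtain ⟨h1, h2⟩ := ub_ND β r (lg n) hβ hirr hbad (fun D D' => hn.2 D D')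
    refine ⟨h1, ?_, h2⟩
    rw [ILD_IN.exp_lg hn.1]
    exact FinB_rat (ILD_IN.alg_nat n)
  have kp := key p hp
  have kq := key q hq
  have ks := key s hs
  refine full_T23 r β ![lg p, lg q, lg s] hst hirr (hLP p q s hp.1 hq.1 hs.1 hpq hps hqs)
    (FinB_rat hβ) ?_ ?_ ?_
  · intro j
    fin_cases j
    · exact kp.1
    · exact kq.1
    · exact ks.1
  · intro j
    fin_cases j
    · exact kp.2.1
    · exact kq.2.1
    · exact ks.2.1
  · intro j
    fin_cases j
    · exact kp.2.2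
    · exact kq.2.2
    · exact ks.2.2

end Pool.Agent.Work.MP_327059_nt.LD
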