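import Pool.Agent.Work.MP_327059_nt.LD.StmtsL

set_option autoImplicit false

namespace Pool.Agent.Work.MP_327059_nt.LD

open Pool.Agent.Work.MP_327059_nt.AA Pool.Agent.Work.MP_327059_nt.FL Pool.Agent.Work.MP_327059_nt.UB

namespace ILD_KY

theorem exp_lg (n : ℕ) (hn : 0 < n) : Complex.exp (lg n) = n := by
  unfold lg
  rw [← Complex.ofReal_exp, Real.exp_log (by exact_mod_cast hn)]
  simp

theorem lg_inj {p q : ℕ} (hp : 0 < p) (hq : 0 < q) (h : lg p = lg q) : p = q := by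
  have h1 := congrArg Complex.exp h
  rw [exp_lg p hp, exp_lg q hq] at h1
  exact_mod_cast h1

theorem lg_zero : lg 0 = 0 := by
  unfold lg
  simp

/-- The functional `B u`. -/
noncomputable def Bf (u : Fin 4 → ℂ) : (Fin 4 → ℂ) →ₗ[ℂ] ℂ where
  toFun v := u 0 * v 3 - u 1 * v 2 + (v 0 * u 3 - v 1 * u 2)
  map_add' := by
    intro v w
    simp only [Pi.add_apply]
    ring
  map_smul' := by
    intro c v
    simp only [Pi.smul_apply, smul_eq_mul, RingHom.id_apply]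
    ring

theorem Bf_apply (u v : Fin 4 → ℂ) :
    Bf u v = u 0 * v 3 - u 1 * v 2 + (v 0 * u 3 - v 1 * u 2) := rfl

/-- The vector of a complex number. -/
noncomputable def Ph (β : ℂ) (D D' : Derivation ℚ ℂ ℂ) (z : ℂ) : Fin 4 → ℂ :=
  ![D z, D' z, ld β D z, ld β D' z]

theorem sf_eq (β : ℂ) (D D' : Derivation ℚ ℂ ℂ) (z w : ℂ) :
    sf β D D' z w = Bf (Ph β D D' z) (Ph β D D' w) := by
  rw [Bf_apply]
  simp [Ph, sf, bf]

theorem Ph_sub (β : ℂ) (D D' : Derivation ℚ ℂ ℂ) (z w : ℂ) :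
    Ph β D D' (z - w) = Ph β D D' z - Ph β D D' w := by
  funext i
  fin_cases i <;> simp [Ph, map_sub]

/-- The pairs. -/
noncomputable def pr (i : ℕ × ℕ × Option ℕ) : ℂ × ℂ :=
  (lg i.1 - lg i.2.1, match i.2.2 with
    | none => lg i.1 - lg i.2.1
    | some c => lg c)

end ILD_KY

open ILD_KY in
theorem ld_KY (hTH : StTH) (hES : StES) (hGP : StGP) (hQB : StQB) (hIN : StIN) : StKY := by
  intro β hβ hβ2
  obtain ⟨hT1, hT2, -, -, -, hT6⟩ := hTH
  -- the pairs with a non-zero form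
  let P : (ℕ × ℕ × Option ℕ) → Prop := fun i =>
    ∃ D D' : Derivation ℚ ℂ ℂ, sf β D D' (pr i).1 (pr i).2 ≠ 0
  have hne : Nonempty {i // P i} := by
    by_contra hno
    have hall : ∀ i, ∀ D D' : Derivation ℚ ℂ ℂ, sf β D D' (pr i).1 (pr i).2 = 0 := by
      intro i D D'
      by_contra hc
      exact hno ⟨⟨i, ⟨D, D', hc⟩⟩⟩
    have h20 : lg 2 ≠ 0 := by
      intro h0
      have h1 := exp_lg 2 (by norm_num)
      rw [h0, Complex.exp_zero] at h1
      norm_num at h1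
    have hx : ∀ D D' : Derivation ℚ ℂ ℂ, sf β D D' (lg 2) (lg 2) = 0 := by
      intro D D'
      have h1 := hall (2, 0, none) D D'
      simpa [pr, lg_zero] using h1
    have hbad : Bad β (lg 2) := by
      refine hQB β (lg 2) h20 ?_ hx
      rw [exp_lg 2 (by norm_num)]
      have h2 : (((2 : ℕ) : ℂ)) = algebraMap ℚ ℂ (2 : ℚ) := by
        simp
      rw [h2]
      exact isAlgebraic_algebraMap _
    have hfin := hIN β (lg 2) hβ hβ2 hbad
    refine Nat.infinite_setOfPred_prime (hfin.subset ?_)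
    intro s hs
    refine ⟨hs, ?_⟩
    intro D D'
    have h1 := hall (2, 0, some s) D D'
    simpa [pr, lg_zero] using h1
  obtain ⟨f, hf⟩ := exists_surjective_nat {i // P i}
  obtain ⟨D, D', hD⟩ := hGP β (fun n => (pr (f n).1).1) (fun n => (pr (f n).1).2)
    (fun n => (f n).2)
  have hstar : ∀ i, sf β D D' (pr i).1 (pr i).2 = 0 →
      ∀ D₁ D₂ : Derivation ℚ ℂ ℂ, sf β D₁ D₂ (pr i).1 (pr i).2 = 0 := by
    intro i hi D₁ D₂
    by_contra hc
    obtain ⟨n, hn⟩ := hf ⟨i, ⟨D₁, D₂, hc⟩⟩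
    have h1 := hD n
    rw [hn] at h1
    exact h1 hi
  obtain ⟨U, hU1, hU2⟩ := hES (fun p => Ph β D D' (lg p))
  refine ⟨D, D', {p | p.Prime ∧ Ph β D D' (lg p) ∉ U}, hU1, ?_⟩
  intro p q hp hq hpU hqU hpq hthin
  have hpU' : Ph β D D' (lg p) ∈ U := by
    by_contra hc
    exact hpU ⟨hp, hc⟩
  have hqU' : Ph β D D' (lg q) ∈ U := by
    by_contra hc
    exact hqU ⟨hq, hc⟩
  have hrU : Ph β D D' (lg p - lg q) ∈ U := by
    rw [Ph_sub]
    exact U.sub_mem hpU' hqU'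
  have hker : U ≤ LinearMap.ker (Bf (Ph β D D' (lg p - lg q))) := by
    by_contra hnot
    have hlt : U ⊓ LinearMap.ker (Bf (Ph β D D' (lg p - lg q))) < U :=
      lt_of_le_of_ne inf_le_left (fun he => hnot (inf_eq_left.mp he))
    refine hU2 _ hlt (hT1 _ _ ?_ (hT2 _ _ hU1 hthin))
    rintro s ⟨hs, hs2⟩
    by_cases hsU : Ph β D D' (lg s) ∈ U
    · right
      refine ⟨hs, ?_⟩
      rw [sf_eq]
      intro h0
      exact hs2 ⟨hsU, LinearMap.mem_ker.mpr h0⟩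
    · left
      exact ⟨hs, hsU⟩
  have hrr : sf β D D' (lg p - lg q) (lg p - lg q) = 0 := by
    rw [sf_eq]
    exact LinearMap.mem_ker.mp (hker hrU)
  have hrr' : ∀ D₁ D₂ : Derivation ℚ ℂ ℂ, sf β D₁ D₂ (lg p - lg q) (lg p - lg q) = 0 :=
    hstar (p, q, none) hrr
  have hbad : Bad β (lg p - lg q) := by
    refine hQB β _ ?_ ?_ hrr'
    · intro h0
      exact hpq (lg_inj hp.pos hq.pos (sub_eq_zero.mp h0))
    · rw [Complex.exp_sub, exp_lg p hp.pos, exp_lg q hq.pos]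
      have h1 : ((p : ℂ) / (q : ℂ)) = algebraMap ℚ ℂ ((p : ℚ) / (q : ℚ)) := by
        simp
      rw [h1]
      exact isAlgebraic_algebraMap _
  refine hT6 _ hU1 ((hIN β _ hβ hβ2 hbad).subset ?_)
  rintro s ⟨hs, hs2⟩
  refine ⟨hs, ?_⟩
  have hsU : Ph β D D' (lg s) ∈ U := by
    by_contra hc
    exact hs2 ⟨hs, hc⟩
  have h1 : sf β D D' (lg p - lg q) (lg s) = 0 := by
    rw [sf_eq]
    exact LinearMap.mem_ker.mp (hker hsU)
  exact hstar (p, q, some s) h1

end Pool.Agent.Work.MP_327059_nt.LD
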