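import Pool.Agent.Work.MP_327059_nt.LD.Stmts

/-!
# MP_327059_nt, block LD, item LP: logarithms of three different primes
-/

set_option autoImplicit false

namespace Pool.Agent.Work.MP_327059_nt.LD

namespace ILD_LP

theorem fac {p q r : ℕ} (hp : p.Prime) (hq : q.Prime) (hr : r.Prime) (a b c : ℕ) :
    (p ^ a * q ^ b * r ^ c).factorization =
      Finsupp.single p a + Finsupp.single q b + Finsupp.single r c := by
  rw [Nat.factorization_mul (mul_ne_zero (pow_ne_zero _ hp.ne_zero) (pow_ne_zero _ hq.ne_zero))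
    (pow_ne_zero _ hr.ne_zero), Nat.factorization_mul (pow_ne_zero _ hp.ne_zero)
    (pow_ne_zero _ hq.ne_zero), hp.factorization_pow, hq.factorization_pow, hr.factorization_pow]

theorem split (g : ℤ) : ∃ a b : ℕ, (g : ℤ) = a - b := ⟨g.toNat, (-g).toNat, by omega⟩

theorem log_prod {p q r : ℕ} (hp : p.Prime) (hq : q.Prime) (hr : r.Prime) (a b c : ℕ) :
    Real.log ((p ^ a * q ^ b * r ^ c : ℕ) : ℝ) =
      a * Real.log p + b * Real.log q + c * Real.log r := by
  have hp' : (p : ℝ) ≠ 0 := by exact_mod_cast hp.ne_zero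
  have hq' : (q : ℝ) ≠ 0 := by exact_mod_cast hq.ne_zero
  have hr' : (r : ℝ) ≠ 0 := by exact_mod_cast hr.ne_zero
  push_cast
  rw [Real.log_mul (mul_ne_zero (pow_ne_zero _ hp') (pow_ne_zero _ hq')) (pow_ne_zero _ hr'),
    Real.log_mul (pow_ne_zero _ hp') (pow_ne_zero _ hq'), Real.log_pow, Real.log_pow, Real.log_pow]

theorem main {p q r : ℕ} (hp : p.Prime) (hq : q.Prime) (hr : r.Prime) (hpq : p ≠ q) (hpr : p ≠ r)
    (hqr : q ≠ r) (x y z : ℤ)
    (h : (x : ℝ) * Real.log p + y * Real.log q + z * Real.log r = 0) : x = 0 ∧ y = 0 ∧ z = 0 := by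
  obtain ⟨a, a', ha⟩ := split x
  obtain ⟨b, b', hb⟩ := split y
  obtain ⟨c, c', hc⟩ := split z
  have hpos : ∀ a b c : ℕ, (0 : ℝ) < ((p ^ a * q ^ b * r ^ c : ℕ) : ℝ) := by
    intro a b c
    have := hp.pos
    have := hq.pos
    have := hr.pos
    positivity
  have hlog : Real.log ((p ^ a * q ^ b * r ^ c : ℕ) : ℝ) =
      Real.log ((p ^ a' * q ^ b' * r ^ c' : ℕ) : ℝ) := by
    rw [log_prod hp hq hr, log_prod hp hq hr]
    rw [ha, hb, hc] at h
    push_cast at h
    linarith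
  have heq := Real.log_injOn_pos (Set.mem_Ioi.2 (hpos a b c)) (Set.mem_Ioi.2 (hpos a' b' c')) hlog
  have heq' : p ^ a * q ^ b * r ^ c = p ^ a' * q ^ b' * r ^ c' := by exact_mod_cast heq
  have hf := congrArg Nat.factorization heq'
  rw [fac hp hq hr, fac hp hq hr] at hf
  have h1 := DFunLike.congr_fun hf p
  have h2 := DFunLike.congr_fun hf q
  have h3 := DFunLike.congr_fun hf r
  simp only [Finsupp.add_apply, Finsupp.single_apply, if_neg hpq.symm, if_neg hpr.symm,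
    if_neg hqr.symm, if_neg hpq, if_neg hpr, if_neg hqr, if_true, add_zero, zero_add] at h1 h2 h3
  refine ⟨?_, ?_, ?_⟩
  · rw [ha, h1, sub_self]
  · rw [hb, h2, sub_self]
  · rw [hc, h3, sub_self]

end ILD_LP

theorem ld_LP : StLP := by
  intro p q r hp hq hr hpq hpr hqr
  rw [← LinearIndependent.iff_fractionRing ℤ ℚ, Fintype.linearIndependent_iff]
  intro g hg
  rw [Fin.sum_univ_three] at hg
  have h1 : ((g 0 : ℤ) : ℂ) * ((Real.log p : ℝ) : ℂ) + ((g 1 : ℤ) : ℂ) * ((Real.log q : ℝ) : ℂ) +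
      ((g 2 : ℤ) : ℂ) * ((Real.log r : ℝ) : ℂ) = 0 := by
    simpa [zsmul_eq_mul] using hg
  have h2 : ((g 0 : ℤ) : ℝ) * Real.log p + (g 1 : ℤ) * Real.log q + (g 2 : ℤ) * Real.log r = 0 := by
    exact_mod_cast h1
  obtain ⟨e0, e1, e2⟩ := ILD_LP.main hp hq hr hpq hpr hqr _ _ _ h2
  intro i
  fin_cases i
  · exact e0
  · exact e1
  · exact e2

end Pool.Agent.Work.MP_327059_nt.LD
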