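import Pool.Agent.Work.MP_327059_nt.LD.Stmts

/-!
# MP_327059_nt, block LD, item NC: level sets of a complex additive function
-/

set_option autoImplicit false

namespace Pool.Agent.Work.MP_327059_nt.LD

theorem ILD_NC.equiv : Nonempty (ℂ ≃ₗ[ℚ] ℝ) :=
  nonempty_linearEquiv_of_rank_eq (by rw [Complex.rank_rat_complex, Real.rank_rat_real])

theorem ld_NC (hTH : StTH) (hNR : StNR) : StNC := by
  obtain ⟨hmono, hunion, -⟩ := hTH
  obtain ⟨e⟩ := ILD_NC.equiv
  intro L hL hT c
  have h1 : ∀ m n : ℕ, 0 < m → 0 < n → e (L (m * n)) = e (L m) + e (L n) := by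
    intro m n hm hn
    rw [hL m n hm hn, map_add]
  have h2 : ∀ m n : ℕ, 0 < m → 0 < n → -e (L (m * n)) = -e (L m) + -e (L n) := by
    intro m n hm hn
    rw [h1 m n hm hn]
    ring
  by_cases hp : Thin {p | p.Prime ∧ 0 < e (L p)}
  · have hn : ¬ Thin {p | p.Prime ∧ 0 < -e (L p)} := by
      intro hn
      refine hT (hmono _ _ ?_ (hunion _ _ hp hn))
      rintro p ⟨hpp, hp0⟩
      have hne : e (L p) ≠ 0 := by
        intro h
        exact hp0 (e.map_eq_zero_iff.1 h)
      rcases lt_or_gt_of_ne hne with h | h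
      · exact Or.inr ⟨hpp, by linarith⟩
      · exact Or.inl ⟨hpp, h⟩
    have h := hNR (fun n => -e (L n)) h2 hn (-e c)
    have hs : {n : ℕ | -e (L n) = -e c} = {n | L n = c} := by
      ext n
      show -e (L n) = -e c ↔ L n = c
      rw [neg_inj]
      exact e.injective.eq_iff
    rw [← hs]
    exact h
  · have h := hNR (fun n => e (L n)) h1 hp (e c)
    have hs : {n : ℕ | e (L n) = e c} = {n | L n = c} := by
      ext n
      show e (L n) = e c ↔ L n = c
      exact e.injective.eq_iff
    rw [← hs]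
    exact h

end Pool.Agent.Work.MP_327059_nt.LD
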