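import Pool.Agent.Work.MP_327059_nt.LD.Stmts

/-! Item NR of the block LD (problem MP_327059_nt): level sets of a real additive function. -/

set_option autoImplicit false

namespace Pool.Agent.Work.MP_327059_nt.LD

namespace ILD_NR

lemma pt (T : ℕ) (hT : 1 ≤ T) (x : ℕ → ℝ) (hx : ∀ j, 0 ≤ x j) (a : ℝ) (ha0 : 0 ≤ a) (ha1 : a ≤ 1) :
    a ≤ 2 / ((T : ℝ) + 1) * (a * ∑ t ∈ Finset.range (T + 1), ∏ j ∈ Finset.range t, x j) +
      ∑ j ∈ Finset.range T, 4 * (T : ℝ) ^ 2 * (x j - 1) ^ 2 := by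
  have hT0 : (0 : ℝ) < T := by exact_mod_cast hT
  have hT1 : (1 : ℝ) ≤ T := by exact_mod_cast hT
  have hsum0 : 0 ≤ ∑ j ∈ Finset.range T, 4 * (T : ℝ) ^ 2 * (x j - 1) ^ 2 :=
    Finset.sum_nonneg (fun j _ => by positivity)
  have hS0 : 0 ≤ ∑ t ∈ Finset.range (T + 1), ∏ j ∈ Finset.range t, x j :=
    Finset.sum_nonneg (fun t _ => Finset.prod_nonneg (fun j _ => hx j))
  by_cases h : ∀ j ∈ Finset.range T, |x j - 1| ≤ 1 / (2 * (T : ℝ))
  · have hq0 : 0 ≤ 1 - 1 / (2 * (T : ℝ)) := by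
      have : 1 / (2 * (T : ℝ)) ≤ 1 := by
        rw [div_le_one (by positivity)]
        linarith
      linarith
    have hq1 : 1 - 1 / (2 * (T : ℝ)) ≤ 1 := by
      have : 0 ≤ 1 / (2 * (T : ℝ)) := by positivity
      linarith
    have hqT : 1 / 2 ≤ (1 - 1 / (2 * (T : ℝ))) ^ T := by
      have h1 := one_add_mul_le_pow (a := -(1 / (2 * (T : ℝ)))) (by
        have : 1 / (2 * (T : ℝ)) ≤ 1 := by
          rw [div_le_one (by positivity)]
          linarith
        linarith) T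
      have h2 : 1 + (T : ℝ) * -(1 / (2 * (T : ℝ))) = 1 / 2 := by
        field_simp
        norm_num
      rw [h2] at h1
      have h3 : 1 + -(1 / (2 * (T : ℝ))) = 1 - 1 / (2 * (T : ℝ)) := by ring
      rwa [h3] at h1
    have hS : ((T : ℝ) + 1) / 2 ≤ ∑ t ∈ Finset.range (T + 1), ∏ j ∈ Finset.range t, x j := by
      have h4 : ∀ t ∈ Finset.range (T + 1), (1 / 2 : ℝ) ≤ ∏ j ∈ Finset.range t, x j := by
        intro t ht
        have htT : t ≤ T := Nat.lt_succ_iff.1 (Finset.mem_range.1 ht)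
        have h5 : ∏ _j ∈ Finset.range t, (1 - 1 / (2 * (T : ℝ))) ≤ ∏ j ∈ Finset.range t, x j := by
          refine Finset.prod_le_prod (fun _ _ => hq0) ?_
          intro j hj
          have hjT : j ∈ Finset.range T :=
            Finset.mem_range.2 (lt_of_lt_of_le (Finset.mem_range.1 hj) htT)
          have := (abs_le.1 (h j hjT)).1
          linarith
        rw [Finset.prod_const, Finset.card_range] at h5
        have h6 : (1 - 1 / (2 * (T : ℝ))) ^ T ≤ (1 - 1 / (2 * (T : ℝ))) ^ t :=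
          pow_le_pow_of_le_one hq0 hq1 htT
        linarith
      have h7 := Finset.sum_le_sum h4
      rw [Finset.sum_const, Finset.card_range, nsmul_eq_mul] at h7
      push_cast at h7
      linarith
    have h8 : a ≤ 2 / ((T : ℝ) + 1) *
        (a * ∑ t ∈ Finset.range (T + 1), ∏ j ∈ Finset.range t, x j) := by
      have h9 : a * (((T : ℝ) + 1) / 2) ≤
          a * ∑ t ∈ Finset.range (T + 1), ∏ j ∈ Finset.range t, x j :=
        mul_le_mul_of_nonneg_left hS ha0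
      have h10 := mul_le_mul_of_nonneg_left h9 (by positivity : 0 ≤ 2 / ((T : ℝ) + 1))
      have h11 : 2 / ((T : ℝ) + 1) * (a * (((T : ℝ) + 1) / 2)) = a := by
        field_simp
      rw [h11] at h10
      exact h10
    linarith
  · push Not at h
    obtain ⟨j, hj, hj2⟩ := h
    have h1 : 0 ≤ 2 / ((T : ℝ) + 1) *
        (a * ∑ t ∈ Finset.range (T + 1), ∏ j ∈ Finset.range t, x j) :=
      mul_nonneg (by positivity) (mul_nonneg ha0 hS0)
    have h2 : 4 * (T : ℝ) ^ 2 * (x j - 1) ^ 2 ≤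
        ∑ j ∈ Finset.range T, 4 * (T : ℝ) ^ 2 * (x j - 1) ^ 2 :=
      Finset.single_le_sum (f := fun j => 4 * (T : ℝ) ^ 2 * (x j - 1) ^ 2)
        (fun i _ => by positivity) hj
    have h3 : (1 / (2 * (T : ℝ))) ^ 2 ≤ (x j - 1) ^ 2 := by
      rw [← sq_abs (x j - 1)]
      exact pow_le_pow_left₀ (by positivity) hj2.le 2
    have h4 : 4 * (T : ℝ) ^ 2 * (1 / (2 * (T : ℝ))) ^ 2 = 1 := by
      field_simp
      norm_num
    have h5 : 4 * (T : ℝ) ^ 2 * (1 / (2 * (T : ℝ))) ^ 2 ≤ 4 * (T : ℝ) ^ 2 * (x j - 1) ^ 2 :=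
      mul_le_mul_of_nonneg_left h3 (by positivity)
    linarith

lemma ind_nonneg (A : Set ℕ) (n : ℕ) : 0 ≤ ind A n := by
  unfold ind
  exact Set.indicator_nonneg (fun _ _ => zero_le_one) n

lemma ind_le_one (A : Set ℕ) (n : ℕ) : ind A n ≤ 1 := by
  unfold ind
  by_cases h : n ∈ A
  · rw [Set.indicator_of_mem h]
  · rw [Set.indicator_of_notMem h]
    exact zero_le_one

lemma om_nonneg (P : Finset ℕ) (n : ℕ) : 0 ≤ om P n := by
  unfold om
  refine Finset.sum_nonneg (fun p _ => ?_)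
  split_ifs <;> norm_num

end ILD_NR

theorem ld_NR (hWS : StWS) (hSP : StSP) (hVR : StVR) (hCH : StCH) : StNR := by
  intro lam hadd hthin c ε hε
  obtain ⟨T, hT⟩ := exists_nat_ge (max (4 / ε) 1)
  have hT1 : (1 : ℝ) ≤ T := le_trans (le_max_right _ _) hT
  have hT2 : 4 / ε ≤ T := le_trans (le_max_left _ _) hT
  have hT0 : (0 : ℝ) < T := by linarith
  have hTn : 1 ≤ T := by exact_mod_cast hT1
  obtain ⟨G, hG1, hG2, hG3⟩ := hSP _ hthin (8 * (T : ℝ) ^ 3 / ε + 1)
  have hE0 : 0 < 8 * (T : ℝ) ^ 3 / ε + 1 := by positivity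
  have hGp : ∀ j, ∀ p ∈ G j, p.Prime ∧ 0 < lam p := fun j p hp => hG1 j (Finset.mem_coe.2 hp)
  have hr : ∀ j, 0 < rs (G j) := fun j => lt_of_lt_of_le hE0 (hG3 j)
  have hV : ∀ j, ∃ C : ℝ, ∀ N : ℕ,
      ws (fun n => (om (G j) n - rs (G j)) ^ 2) N ≤ rs (G j) * Real.log N + C :=
    fun j => hVR (G j) (fun p hp => (hGp j p hp).1)
  choose C hC using hV
  refine ⟨2 / ((T : ℝ) + 1) + ∑ j ∈ Finset.range T, 4 * (T : ℝ) ^ 2 / rs (G j) ^ 2 * C j,
    fun N => ?_⟩
  have hlog : 0 ≤ Real.log (N : ℝ) := Real.log_natCast_nonneg N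
  have h1 := hCH lam G T N c hadd hGp hG2 hr
  have h2 := hWS.2.2.1 N
  -- the pointwise inequality, summed
  have h3 : ws (ind {n | lam n = c}) N ≤ 2 / ((T : ℝ) + 1) *
      ws (fun n => ind {n | lam n = c} n *
        ∑ t ∈ Finset.range (T + 1), ∏ j ∈ Finset.range t, (om (G j) n / rs (G j))) N +
      ∑ j ∈ Finset.range T, 4 * (T : ℝ) ^ 2 / rs (G j) ^ 2 *
        ws (fun n => (om (G j) n - rs (G j)) ^ 2) N := by
    have h4 : ∀ n ∈ Finset.Icc 1 N, ind {n | lam n = c} n / (n : ℝ) ≤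
        2 / ((T : ℝ) + 1) * ((ind {n | lam n = c} n *
          ∑ t ∈ Finset.range (T + 1), ∏ j ∈ Finset.range t, (om (G j) n / rs (G j))) / (n : ℝ)) +
        ∑ j ∈ Finset.range T, 4 * (T : ℝ) ^ 2 / rs (G j) ^ 2 *
          ((om (G j) n - rs (G j)) ^ 2 / (n : ℝ)) := by
      intro n _
      have h5 := ILD_NR.pt T hTn (fun j => om (G j) n / rs (G j))
        (fun j => div_nonneg (ILD_NR.om_nonneg _ _) (hr j).le) (ind {n | lam n = c} n)
        (ILD_NR.ind_nonneg _ _) (ILD_NR.ind_le_one _ _)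
      have h6 := div_le_div_of_nonneg_right h5 (Nat.cast_nonneg n : (0 : ℝ) ≤ (n : ℝ))
      refine h6.trans (le_of_eq ?_)
      rw [add_div, mul_div_assoc, Finset.sum_div]
      congr 1
      refine Finset.sum_congr rfl (fun j _ => ?_)
      have hrj := (hr j).ne'
      have h7 : om (G j) n / rs (G j) - 1 = (om (G j) n - rs (G j)) / rs (G j) := by
        field_simp
      rw [h7, div_pow]
      ring
    have h8 := Finset.sum_le_sum h4
    rw [Finset.sum_add_distrib, ← Finset.mul_sum, Finset.sum_comm] at h8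
    simp only [← Finset.mul_sum] at h8
    exact h8
  have h9 : 2 / ((T : ℝ) + 1) *
      ws (fun n => ind {n | lam n = c} n *
        ∑ t ∈ Finset.range (T + 1), ∏ j ∈ Finset.range t, (om (G j) n / rs (G j))) N ≤
      2 / ((T : ℝ) + 1) * (Real.log N + 1) :=
    mul_le_mul_of_nonneg_left (h1.trans h2) (by positivity)
  have h10 : ∑ j ∈ Finset.range T, 4 * (T : ℝ) ^ 2 / rs (G j) ^ 2 *
        ws (fun n => (om (G j) n - rs (G j)) ^ 2) N ≤
      ∑ j ∈ Finset.range T, (ε / 2 / T * Real.log N + 4 * (T : ℝ) ^ 2 / rs (G j) ^ 2 * C j) := by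
    refine Finset.sum_le_sum (fun j _ => ?_)
    have hrj := hr j
    have h11 := mul_le_mul_of_nonneg_left (hC j N)
      (by positivity : 0 ≤ 4 * (T : ℝ) ^ 2 / rs (G j) ^ 2)
    have h12 : 4 * (T : ℝ) ^ 2 / rs (G j) ^ 2 * (rs (G j) * Real.log N + C j) =
        4 * (T : ℝ) ^ 2 / rs (G j) * Real.log N + 4 * (T : ℝ) ^ 2 / rs (G j) ^ 2 * C j := by
      field_simp
    have h13 : 4 * (T : ℝ) ^ 2 / rs (G j) ≤ ε / 2 / T := by
      rw [div_le_div_iff₀ hrj hT0]
      have h14 : 8 * (T : ℝ) ^ 3 / ε ≤ rs (G j) := by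
        have := hG3 j
        linarith
      rw [div_le_iff₀ hε] at h14
      nlinarith [h14]
    have h15 := mul_le_mul_of_nonneg_right h13 hlog
    linarith
  rw [Finset.sum_add_distrib, Finset.sum_const, Finset.card_range, nsmul_eq_mul] at h10
  have h16 : (T : ℝ) * (ε / 2 / T * Real.log N) = ε / 2 * Real.log N := by
    field_simp
  rw [h16] at h10
  have h17 : 2 / ((T : ℝ) + 1) ≤ ε / 2 := by
    rw [div_le_div_iff₀ (by positivity) (by norm_num)]
    rw [div_le_iff₀ hε] at hT2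
    nlinarith [hT2]
  have h18 := mul_le_mul_of_nonneg_right h17 hlog
  linarith

end Pool.Agent.Work.MP_327059_nt.LD
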