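import Pool.Agent.Work.MP_327059_nt.LD.StmtsL
import Pool.Agent.Work.MP_327059_nt.UB.I_BD

/-! Item QB of [327059 LD]: a vanishing quadratic form gives a bad point. -/

set_option autoImplicit false

namespace Pool.Agent.Work.MP_327059_nt.LD

open Pool.Agent.Work.MP_327059_nt.AA Pool.Agent.Work.MP_327059_nt.FL Pool.Agent.Work.MP_327059_nt.UB

theorem ld_QB : StQB := by
  intro β x hx hexp h
  have hst : Transcendental ℚ x := fun h' => LW.transcendental_exp h' hx hexp
  obtain ⟨D0, h0⟩ := exists_der_one hst
  refine (ub_BD β x).2 hx hexp (alg_of_der fun D hD => ?_)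
  have h1 := h D0 D
  unfold sf bf at h1
  rw [h0, hD] at h1
  have h2 : ld β D x = 0 := by linear_combination (1 / 2 : ℂ) * h1
  have h3 : ld β D x = D (Complex.exp (β * x)) / Complex.exp (β * x) := rfl
  rw [h3, div_eq_zero_iff] at h2
  exact h2.resolve_right (Complex.exp_ne_zero _)

end Pool.Agent.Work.MP_327059_nt.LD
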