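import Pool.Agent.Work.MP_327059_nt.LD.Stmts

/-!
[327059 LD SP] Splitting a set with divergent sum of reciprocals into finite blocks.
-/

set_option autoImplicit false

namespace Pool.Agent.Work.MP_327059_nt.LD

namespace ILD_SP

theorem step (P : Set ℕ) (hP : ¬ Thin P) (E : ℝ) (N : ℕ) : ∃ N' : ℕ, N ≤ N' ∧
    E ≤ ∑ p ∈ Finset.Ico N N', P.indicator (fun p => (1 : ℝ) / p) p := by
  have hnn : ∀ n : ℕ, 0 ≤ P.indicator (fun p : ℕ => (1 : ℝ) / p) n := by
    intro n
    apply Set.indicator_nonneg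
    intro x _
    positivity
  have ht := (not_summable_iff_tendsto_nat_atTop_of_nonneg hnn).1 hP
  obtain ⟨N', h1, h2⟩ := ((ht.eventually (Filter.eventually_ge_atTop
    (E + ∑ p ∈ Finset.range N, P.indicator (fun p : ℕ => (1 : ℝ) / p) p))).and
    (Filter.eventually_ge_atTop N)).exists
  refine ⟨N', h2, ?_⟩
  rw [Finset.sum_Ico_eq_sub _ h2]
  linarith

end ILD_SP

theorem ld_SP : StSP := by
  classical
  intro P hP E
  choose g hg1 hg2 using ILD_SP.step P hP E
  obtain ⟨a, ha0, hasucc⟩ : ∃ a : ℕ → ℕ, a 0 = 0 ∧ ∀ j, a (j + 1) = g (a j) :=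
    ⟨fun j => Nat.rec 0 (fun _ x => g x) j, rfl, fun _ => rfl⟩
  have hmono : Monotone a := by
    apply monotone_nat_of_le_succ
    intro j
    rw [hasucc]
    exact hg1 (a j)
  refine ⟨fun j => (Finset.Ico (a j) (a (j + 1))).filter (fun p => p ∈ P), ?_, ?_, ?_⟩
  · intro j p hp
    exact (Finset.mem_filter.1 (Finset.mem_coe.1 hp)).2
  · have key : ∀ i j, i < j → Disjoint ((Finset.Ico (a i) (a (i + 1))).filter (fun p => p ∈ P))
        ((Finset.Ico (a j) (a (j + 1))).filter (fun p => p ∈ P)) := by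
      intro i j hij
      rw [Finset.disjoint_left]
      intro x hx hx2
      have h1 := (Finset.mem_Ico.1 (Finset.mem_filter.1 hx).1).2
      have h2 := (Finset.mem_Ico.1 (Finset.mem_filter.1 hx2).1).1
      have h3 : a (i + 1) ≤ a j := hmono hij
      omega
    intro i j hij
    rcases lt_or_gt_of_ne hij with h | h
    · exact key i j h
    · exact (key j i h).symm
  · intro j
    have h1 := hg2 (a j)
    rw [← hasucc] at h1
    refine h1.trans (le_of_eq ?_)
    unfold rs
    rw [Finset.sum_filter]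
    apply Finset.sum_congr rfl
    intro p _
    rw [Set.indicator_apply]

end Pool.Agent.Work.MP_327059_nt.LD
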