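import Pool.Agent.Work.MP_327059_nt.LD.Stmts

/-!
# Item TH: thin sets
-/

set_option autoImplicit false

namespace Pool.Agent.Work.MP_327059_nt.LD

namespace ILD_TH

theorem TH_nonneg (P : Set ℕ) (n : ℕ) : 0 ≤ P.indicator (fun p => (1 : ℝ) / p) n :=
  Set.indicator_nonneg (fun p _ => by positivity) n

theorem TH_mono (P Q : Set ℕ) (h : P ⊆ Q) (hQ : Thin Q) : Thin P := by
  refine Summable.of_nonneg_of_le (TH_nonneg P) (fun n => ?_) hQ
  exact Set.indicator_le_indicator_of_subset h (fun p => by positivity) n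

theorem TH_union (P Q : Set ℕ) (hP : Thin P) (hQ : Thin Q) : Thin (P ∪ Q) := by
  refine Summable.of_nonneg_of_le (TH_nonneg _) (fun n => ?_) (hP.add hQ)
  by_cases h : n ∈ P
  · have hu : n ∈ P ∪ Q := Or.inl h
    rw [Set.indicator_of_mem hu, Set.indicator_of_mem h]
    have := TH_nonneg Q n
    linarith
  · by_cases h' : n ∈ Q
    · have hu : n ∈ P ∪ Q := Or.inr h'
      rw [Set.indicator_of_mem hu, Set.indicator_of_mem h']
      have := TH_nonneg P n
      linarith
    · have h'' : n ∉ P ∪ Q := fun hh => hh.elim h h'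
      rw [Set.indicator_of_notMem h'', Set.indicator_of_notMem h, Set.indicator_of_notMem h']
      norm_num

theorem TH_primes : ¬ Thin {p | p.Prime} := not_summable_one_div_on_primes

theorem TH_finite (P : Set ℕ) (hP : P.Finite) : Thin P := by
  refine summable_of_ne_finset_zero (s := hP.toFinset) (fun n hn => ?_)
  have h : n ∉ P := fun h => hn (hP.mem_toFinset.2 h)
  exact Set.indicator_of_notMem h _

theorem TH_compl (P : Set ℕ) (hP : Thin P) : ¬ Thin {p | p.Prime ∧ p ∉ P} := by
  intro h
  refine TH_primes (TH_mono _ _ ?_ (TH_union _ _ hP h))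
  intro p hp
  by_cases h' : p ∈ P
  · exact Or.inl h'
  · exact Or.inr ⟨hp, h'⟩

end ILD_TH

open ILD_TH in
theorem ld_TH : StTH := by
  refine ⟨TH_mono, TH_union, TH_primes, TH_finite, TH_compl, fun P hP h => ?_⟩
  exact TH_compl P hP (TH_finite _ h)

end Pool.Agent.Work.MP_327059_nt.LD
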