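import Pool.Agent.Work.MP_327059_nt.LD.Stmts

/-!
# MP_327059_nt, block LD, item VR: variance
-/

set_option autoImplicit false

namespace Pool.Agent.Work.MP_327059_nt.LD

namespace ILD_VR

theorem ws_sum {ι : Type} (s : Finset ι) (f : ι → ℕ → ℝ) (N : ℕ) :
    ws (fun n => ∑ i ∈ s, f i n) N = ∑ i ∈ s, ws (f i) N := by
  unfold ws
  simp only [Finset.sum_div]
  rw [Finset.sum_comm]

theorem ws_lin (f g h : ℕ → ℝ) (a b : ℝ) (N : ℕ) (hh : ∀ n, h n = f n + a * g n + b) :
    ws h N = ws f N + a * ws g N + b * ws (fun _ => 1) N := by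
  unfold ws
  rw [Finset.mul_sum, Finset.mul_sum, ← Finset.sum_add_distrib, ← Finset.sum_add_distrib]
  refine Finset.sum_congr rfl fun n _ => ?_
  rw [hh n]
  ring

theorem log_le (N : ℕ) : Real.log N ≤ ws (fun _ => 1) N := by
  rcases Nat.eq_zero_or_pos N with h | h
  · subst h
    simp [ws]
  · have h1 : ws (fun _ => 1) N = ((harmonic N : ℚ) : ℝ) := by
      unfold ws
      rw [harmonic_eq_sum_Icc]
      push_cast
      exact Finset.sum_congr rfl fun n _ => by rw [one_div]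
    rw [h1]
    refine le_trans ?_ (log_add_one_le_harmonic N)
    have hN : (0 : ℝ) < N := by exact_mod_cast h
    exact Real.log_le_log hN (by push_cast; linarith)

theorem single (hWS : StWS) (m N : ℕ) (hm : 0 < m) :
    ws (fun n => if m ∣ n then 1 else 0) N = (1 / (m : ℝ)) * ws (fun _ => 1) (N / m) :=
  hWS.1 (fun _ => 1) m N hm

theorem single_le (hWS : StWS) (m N : ℕ) (hm : 0 < m) :
    ws (fun n => if m ∣ n then 1 else 0) N ≤ (1 / (m : ℝ)) * (Real.log N + 1) := by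
  rw [single hWS m N hm]
  have h1 := hWS.2.1 (fun _ => 1) (N / m) N (fun _ => zero_le_one) (Nat.div_le_self N m)
  have h2 := hWS.2.2.1 N
  have h3 : (0 : ℝ) ≤ 1 / (m : ℝ) := by positivity
  exact mul_le_mul_of_nonneg_left (h1.trans h2) h3

theorem single_ge (hWS : StWS) (m N : ℕ) (hm : 0 < m) :
    (1 / (m : ℝ)) * (ws (fun _ => 1) N - (Real.log m + 1)) ≤
      ws (fun n => if m ∣ n then 1 else 0) N := by
  rw [single hWS m N hm]
  have h1 := hWS.2.2.2 (fun _ => 1) m N (fun _ => ⟨zero_le_one, le_rfl⟩) hm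
  have h3 : (0 : ℝ) ≤ 1 / (m : ℝ) := by positivity
  exact mul_le_mul_of_nonneg_left (by linarith) h3

theorem sq_eq (P : Finset ℕ) (n : ℕ) : om P n ^ 2 =
    ∑ p ∈ P, ∑ q ∈ P, (if p ∣ n then (1 : ℝ) else 0) * (if q ∣ n then (1 : ℝ) else 0) := by
  unfold om
  rw [sq, Finset.sum_mul_sum]

theorem pair_le (hWS : StWS) (p q N : ℕ) (hp : p.Prime) (hq : q.Prime) :
    ws (fun n => (if p ∣ n then (1 : ℝ) else 0) * (if q ∣ n then (1 : ℝ) else 0)) N ≤
      ((if p = q then 1 / (p : ℝ) else 0) + (1 / (p : ℝ)) * (1 / (q : ℝ))) * (Real.log N + 1) := by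
  have hl : (0 : ℝ) ≤ Real.log N + 1 := by
    have := Real.log_natCast_nonneg N
    linarith
  by_cases h : p = q
  · subst h
    have h1 : (fun n : ℕ => (if p ∣ n then (1 : ℝ) else 0) * (if p ∣ n then (1 : ℝ) else 0)) =
        fun n => if p ∣ n then (1 : ℝ) else 0 := by
      funext n
      split_ifs <;> simp
    rw [h1, if_pos rfl]
    refine (single_le hWS p N hp.pos).trans ?_
    apply mul_le_mul_of_nonneg_right _ hl
    have : (0 : ℝ) ≤ 1 / (p : ℝ) * (1 / (p : ℝ)) := by positivity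
    linarith
  · have hc : Nat.Coprime p q := (Nat.coprime_primes hp hq).mpr h
    have h1 : (fun n : ℕ => (if p ∣ n then (1 : ℝ) else 0) * (if q ∣ n then (1 : ℝ) else 0)) =
        fun n => if p * q ∣ n then (1 : ℝ) else 0 := by
      funext n
      by_cases hpn : p ∣ n
      · by_cases hqn : q ∣ n
        · rw [if_pos hpn, if_pos hqn, if_pos (hc.mul_dvd_of_dvd_of_dvd hpn hqn), mul_one]
        · rw [if_pos hpn, if_neg hqn, if_neg (fun hh => hqn ((dvd_mul_left q p).trans hh)), mul_zero]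
      · rw [if_neg hpn, if_neg (fun hh => hpn ((dvd_mul_right p q).trans hh)), zero_mul]
    rw [h1, if_neg h, zero_add]
    have h2 := single_le hWS (p * q) N (Nat.mul_pos hp.pos hq.pos)
    refine h2.trans (le_of_eq ?_)
    push_cast
    rw [one_div_mul_one_div]

theorem sq_le (hWS : StWS) (P : Finset ℕ) (hP : ∀ p ∈ P, p.Prime) (N : ℕ) :
    ws (fun n => om P n ^ 2) N ≤ (rs P + rs P ^ 2) * (Real.log N + 1) := by
  have h1 : (fun n => om P n ^ 2) = fun n =>
      ∑ p ∈ P, ∑ q ∈ P, (if p ∣ n then (1 : ℝ) else 0) * (if q ∣ n then (1 : ℝ) else 0) := by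
    funext n
    exact sq_eq P n
  rw [h1, ws_sum]
  have h2 : ∀ p ∈ P, ws (fun n =>
      ∑ q ∈ P, (if p ∣ n then (1 : ℝ) else 0) * (if q ∣ n then (1 : ℝ) else 0)) N ≤
      ∑ q ∈ P, ((if p = q then 1 / (p : ℝ) else 0) + (1 / (p : ℝ)) * (1 / (q : ℝ))) *
        (Real.log N + 1) := by
    intro p hp
    rw [ws_sum]
    exact Finset.sum_le_sum fun q hq => pair_le hWS p q N (hP p hp) (hP q hq)
  refine (Finset.sum_le_sum h2).trans (le_of_eq ?_)
  have h3 : ∀ p ∈ P, (∑ q ∈ P, ((if p = q then 1 / (p : ℝ) else 0) +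
      (1 / (p : ℝ)) * (1 / (q : ℝ))) * (Real.log N + 1)) =
      (1 / (p : ℝ) + (1 / (p : ℝ)) * rs P) * (Real.log N + 1) := by
    intro p hp
    rw [← Finset.sum_mul, Finset.sum_add_distrib, Finset.sum_ite_eq, if_pos hp, ← Finset.mul_sum]
    rfl
  rw [Finset.sum_congr rfl h3, ← Finset.sum_mul, Finset.sum_add_distrib, ← Finset.sum_mul]
  unfold rs
  ring

theorem om_ge (hWS : StWS) (P : Finset ℕ) (hP : ∀ p ∈ P, p.Prime) (N : ℕ) :
    rs P * ws (fun _ => 1) N - ∑ p ∈ P, (1 / (p : ℝ)) * (Real.log p + 1) ≤ ws (om P) N := by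
  have h1 : ws (om P) N = ∑ p ∈ P, ws (fun n => if p ∣ n then (1 : ℝ) else 0) N := by
    rw [← ws_sum]
    rfl
  rw [h1]
  unfold rs
  rw [Finset.sum_mul, ← Finset.sum_sub_distrib]
  refine Finset.sum_le_sum fun p hp => ?_
  refine le_trans (le_of_eq ?_) (single_ge hWS p N (hP p hp).pos)
  ring

end ILD_VR

open ILD_VR in
/-- Item VR. -/
theorem ld_VR (hWS : StWS) : StVR := by
  intro P hP
  refine ⟨rs P + rs P ^ 2 + 2 * rs P * ∑ p ∈ P, (1 / (p : ℝ)) * (Real.log p + 1), fun N => ?_⟩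
  have hE : 0 ≤ rs P := by
    unfold rs
    exact Finset.sum_nonneg fun p _ => by positivity
  have h1 := ws_lin (fun n => om P n ^ 2) (om P) (fun n => (om P n - rs P) ^ 2) (-2 * rs P)
    (rs P ^ 2) N (fun n => by ring)
  rw [h1]
  have h2 := sq_le hWS P hP N
  have h3 := om_ge hWS P hP N
  have h4 := log_le N
  have h5 := mul_le_mul_of_nonneg_left h3 (by positivity : (0 : ℝ) ≤ 2 * rs P)
  have h6 := mul_le_mul_of_nonneg_left h4 (by positivity : (0 : ℝ) ≤ rs P ^ 2)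
  nlinarith [h2, h5, h6]

end Pool.Agent.Work.MP_327059_nt.LD
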