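import Pool.Agent.Work.MP_327059_nt.LD.Stmts

/-!
# MP_327059_nt, block LD, item WS: weighted sums
-/

set_option autoImplicit false

namespace Pool.Agent.Work.MP_327059_nt.LD

namespace ILD_WS

theorem one_eq (N : ℕ) : ws (fun _ => 1) N = ((harmonic N : ℚ) : ℝ) := by
  rw [harmonic_eq_sum_Icc]
  unfold ws
  push_cast
  refine Finset.sum_congr rfl fun i _ => ?_
  rw [one_div]

theorem mult (f : ℕ → ℝ) (m N : ℕ) (hm : 0 < m) :
    ws (fun n => if m ∣ n then f n else 0) N = (1 / (m : ℝ)) * ws (fun n => f (m * n)) (N / m) := by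
  unfold ws
  rw [Finset.mul_sum]
  have h1 : ∑ n ∈ Finset.Icc 1 N, (if m ∣ n then f n else 0) / (n : ℝ) =
      ∑ n ∈ (Finset.Icc 1 N).filter (fun n => m ∣ n), f n / (n : ℝ) := by
    rw [Finset.sum_filter]
    refine Finset.sum_congr rfl fun n _ => ?_
    split_ifs
    · rfl
    · rw [zero_div]
  rw [h1]
  refine Finset.sum_nbij' (fun n => n / m) (fun k => m * k) ?_ ?_ ?_ ?_ ?_
  · intro n hn
    rw [Finset.mem_filter, Finset.mem_Icc] at hn
    obtain ⟨⟨h1, h2⟩, k, rfl⟩ := hn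
    have h3 : m * k / m = k := Nat.mul_div_cancel_left k hm
    rw [Finset.mem_Icc]
    show 1 ≤ m * k / m ∧ m * k / m ≤ N / m
    rw [h3]
    refine ⟨?_, (Nat.le_div_iff_mul_le hm).2 (by rw [mul_comm]; exact h2)⟩
    rcases Nat.eq_zero_or_pos k with h | h
    · rw [h, mul_zero] at h1
      omega
    · exact h
  · intro k hk
    rw [Finset.mem_Icc] at hk
    rw [Finset.mem_filter, Finset.mem_Icc]
    refine ⟨⟨Nat.mul_pos hm hk.1, ?_⟩, Dvd.intro k rfl⟩
    have := (Nat.le_div_iff_mul_le hm).1 hk.2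
    show m * k ≤ N
    rw [mul_comm]
    exact this
  · intro n hn
    rw [Finset.mem_filter] at hn
    exact Nat.mul_div_cancel' hn.2
  · intro k _
    exact Nat.mul_div_cancel_left k hm
  · intro n hn
    rw [Finset.mem_filter, Finset.mem_Icc] at hn
    obtain ⟨⟨h1, h2⟩, k, rfl⟩ := hn
    have h3 : m * k / m = k := Nat.mul_div_cancel_left k hm
    show f (m * k) / ((m * k : ℕ) : ℝ) = 1 / (m : ℝ) * (f (m * (m * k / m)) / ((m * k / m : ℕ) : ℝ))
    rw [h3]
    push_cast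
    have hm' : (m : ℝ) ≠ 0 := by
      have : 0 < (m : ℝ) := by exact_mod_cast hm
      exact this.ne'
    have hk' : (k : ℝ) ≠ 0 := by
      rcases Nat.eq_zero_or_pos k with h | h
      · rw [h, mul_zero] at h1
        omega
      · have : 0 < (k : ℝ) := by exact_mod_cast h
        exact this.ne'
    field_simp

theorem mono (f : ℕ → ℝ) (N N' : ℕ) (hf : ∀ n, 0 ≤ f n) (h : N ≤ N') : ws f N ≤ ws f N' := by
  unfold ws
  refine Finset.sum_le_sum_of_subset_of_nonneg (Finset.Icc_subset_Icc_right h) fun i _ _ => ?_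
  exact div_nonneg (hf i) (Nat.cast_nonneg i)

theorem shift (f : ℕ → ℝ) (m N : ℕ) (hf : ∀ n, 0 ≤ f n ∧ f n ≤ 1) (hm : 0 < m) :
    ws f N ≤ ws f (N / m) + Real.log m + 1 := by
  have hm1 : (1 : ℝ) ≤ m := by exact_mod_cast hm
  have hlm : 0 ≤ Real.log m := Real.log_nonneg hm1
  rcases Nat.eq_zero_or_pos N with rfl | hN
  · rw [Nat.zero_div]
    linarith
  have hk : N / m ≤ N := Nat.div_le_self N m
  have hsub : Finset.Icc 1 (N / m) ⊆ Finset.Icc 1 N := Finset.Icc_subset_Icc_right hk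
  have h1 : ws f N = (∑ n ∈ Finset.Icc 1 N \ Finset.Icc 1 (N / m), f n / (n : ℝ)) + ws f (N / m) := by
    unfold ws
    exact (Finset.sum_sdiff hsub).symm
  have h2 : ws (fun _ => 1) N =
      (∑ n ∈ Finset.Icc 1 N \ Finset.Icc 1 (N / m), (1 : ℝ) / (n : ℝ)) + ws (fun _ => 1) (N / m) := by
    unfold ws
    exact (Finset.sum_sdiff hsub).symm
  have h3 : ∑ n ∈ Finset.Icc 1 N \ Finset.Icc 1 (N / m), f n / (n : ℝ) ≤
      ∑ n ∈ Finset.Icc 1 N \ Finset.Icc 1 (N / m), (1 : ℝ) / (n : ℝ) :=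
    Finset.sum_le_sum fun n _ => div_le_div_of_nonneg_right (hf n).2 (Nat.cast_nonneg n)
  have h4 : ws (fun _ => 1) N ≤ 1 + Real.log N := by
    rw [one_eq]
    exact harmonic_le_one_add_log N
  have h5 : Real.log ((N / m + 1 : ℕ) : ℝ) ≤ ws (fun _ => 1) (N / m) := by
    rw [one_eq]
    exact log_add_one_le_harmonic (N / m)
  have h6 : (N : ℝ) ≤ m * ((N / m + 1 : ℕ) : ℝ) := by
    have : N < m * (N / m + 1) := Nat.lt_mul_div_succ N hm
    exact_mod_cast this.le
  have h7 : Real.log N ≤ Real.log m + Real.log ((N / m + 1 : ℕ) : ℝ) := by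
    rw [← Real.log_mul (by linarith) (by positivity)]
    exact Real.log_le_log (by exact_mod_cast hN) h6
  linarith

end ILD_WS

theorem ld_WS : StWS := by
  refine ⟨ILD_WS.mult, ILD_WS.mono, ?_, ILD_WS.shift⟩
  intro N
  rw [ILD_WS.one_eq]
  have := harmonic_le_one_add_log N
  linarith

end Pool.Agent.Work.MP_327059_nt.LD
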