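import Pool.Agent.Work.MP_327059_nt.LD.StmtsL

/-!
# MP_327059_nt, block LD: the density as a limit
-/

set_option autoImplicit false

namespace Pool.Agent.Work.MP_327059_nt.LD

open Filter Topology

/-- a set with `LNull` has logarithmic density zero -/
theorem tendsto_of_LNull (A : Set ℕ) (h : LNull {n | 1 ≤ n ∧ n ∈ A}) :
    Tendsto (fun N : ℕ => (∑ n ∈ Finset.Icc 1 N, A.indicator (fun n => (1 : ℝ) / n) n) /
      Real.log N) atTop (𝓝 0) := by
  have hnn : ∀ n : ℕ, 0 ≤ A.indicator (fun n : ℕ => (1 : ℝ) / n) n := by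
    intro n
    exact Set.indicator_nonneg (fun n _ => div_nonneg zero_le_one (Nat.cast_nonneg n)) n
  have heq : ∀ N : ℕ, (∑ n ∈ Finset.Icc 1 N, A.indicator (fun n : ℕ => (1 : ℝ) / n) n) =
      ws (ind {n | 1 ≤ n ∧ n ∈ A}) N := by
    intro N
    unfold ws ind
    refine Finset.sum_congr rfl fun n hn => ?_
    have h1 : 1 ≤ n := (Finset.mem_Icc.mp hn).1
    by_cases hA : n ∈ A
    · rw [Set.indicator_of_mem hA,
        Set.indicator_of_mem (show n ∈ {n : ℕ | 1 ≤ n ∧ n ∈ A} from ⟨h1, hA⟩)]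
    · rw [Set.indicator_of_notMem hA,
        Set.indicator_of_notMem (show n ∉ {n : ℕ | 1 ≤ n ∧ n ∈ A} from fun h2 => hA h2.2),
        zero_div]
  rw [Metric.tendsto_atTop]
  intro ε hε
  obtain ⟨C, hC⟩ := h (ε / 2) (by positivity)
  have hlog : Tendsto (fun N : ℕ => Real.log (N : ℝ)) atTop atTop :=
    Real.tendsto_log_atTop.comp tendsto_natCast_atTop_atTop
  obtain ⟨N₀, hN⟩ := (tendsto_atTop_atTop.mp hlog) (2 * |C| / ε + 1)
  refine ⟨N₀, fun N hNN => ?_⟩
  have hL := hN N hNN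
  have hpos : 0 < Real.log (N : ℝ) := by
    have : 0 ≤ 2 * |C| / ε := by positivity
    linarith
  have hsum : 0 ≤ ∑ n ∈ Finset.Icc 1 N, A.indicator (fun n : ℕ => (1 : ℝ) / n) n :=
    Finset.sum_nonneg fun n _ => hnn n
  rw [Real.dist_eq, sub_zero, abs_of_nonneg (div_nonneg hsum hpos.le), heq N,
    div_lt_iff₀ hpos]
  have h1 := hC N
  have h2 : |C| < ε / 2 * Real.log (N : ℝ) := by
    have h3 : 2 * |C| / ε < Real.log (N : ℝ) := by linarith
    rw [div_lt_iff₀ hε] at h3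
    linarith
  have h4 := le_abs_self C
  linarith

end Pool.Agent.Work.MP_327059_nt.LD
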