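import Pool.Agent.Work.MP_327059_nt.LD.FN
import Pool.Agent.Work.MP_327059_nt.LD.TL
import Pool.Agent.Work.MP_327059_nt.LD.I_WS
import Pool.Agent.Work.MP_327059_nt.LD.I_TH
import Pool.Agent.Work.MP_327059_nt.LD.I_SP
import Pool.Agent.Work.MP_327059_nt.LD.I_DJ
import Pool.Agent.Work.MP_327059_nt.LD.I_VR
import Pool.Agent.Work.MP_327059_nt.LD.I_CH
import Pool.Agent.Work.MP_327059_nt.LD.I_NR
import Pool.Agent.Work.MP_327059_nt.LD.I_NC
import Pool.Agent.Work.MP_327059_nt.LD.I_ES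
import Pool.Agent.Work.MP_327059_nt.LD.I_GV
import Pool.Agent.Work.MP_327059_nt.LD.I_LP
import Pool.Agent.Work.MP_327059_nt.LD.I_GP
import Pool.Agent.Work.MP_327059_nt.LD.I_QB
import Pool.Agent.Work.MP_327059_nt.LD.I_IN
import Pool.Agent.Work.MP_327059_nt.LD.I_KY

/-!
# MP_327059_nt, block LD: the closed theorem
-/

set_option autoImplicit false

namespace Pool.Agent.Work.MP_327059_nt.LD

open Filter Topology

theorem cNR : StNR := ld_NR ld_WS ld_SP (ld_VR ld_WS) (ld_CH ld_WS)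

theorem cNC : StNC := ld_NC ld_TH cNR

theorem cKY : StKY := ld_KY ld_TH ld_ES (ld_GP ld_GV) ld_QB (ld_IN ld_LP)

theorem cFN : StFN := ld_FN ld_TH (ld_DJ ld_WS) cNC cKY UB.ub_BD

theorem almostAll : ∀ β : ℂ, IsAlgebraic ℚ β → (∀ q : ℚ, β ≠ q) →
    Tendsto (fun N : ℕ => (∑ n ∈ Finset.Icc 1 N, {n : ℕ | ¬ AlgebraicIndependent ℚ
      ![((Real.log n : ℝ) : ℂ), Complex.exp (β * ((Real.log n : ℝ) : ℂ))]}.indicator
        (fun n => (1 : ℝ) / n) n) / Real.log N) atTop (𝓝 0) :=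
  fun β h1 h2 => tendsto_of_LNull _ (cFN β h1 h2)

end Pool.Agent.Work.MP_327059_nt.LD
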