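import Pool.Agent.Work.MP_327059_nt.LD.StmtsP
import Pool.Agent.Work.MP_327059_nt.LD.I_WS
import Pool.Agent.Work.MP_327059_nt.LD.I_SP
import Pool.Agent.Work.MP_327059_nt.LD.I_VR
import Pool.Agent.Work.MP_327059_nt.LD.I_CH
import Pool.Agent.Work.MP_327059_nt.LD.I_NR

/-!
# MP_327059_nt, block LE, item CJ: chains
-/

set_option autoImplicit false

namespace Pool.Agent.Work.MP_327059_nt.LD

open MvPolynomial

namespace JLE_CJ

/-- the weighted sums of `f` are at most `ε log N + C` for every `ε > 0` -/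
def NullF (f : ℕ → ℝ) : Prop :=
  ∀ ε : ℝ, 0 < ε → ∃ C : ℝ, ∀ N : ℕ, ws f N ≤ ε * Real.log N + C

theorem ws_mul (c : ℝ) (f : ℕ → ℝ) (N : ℕ) : ws (fun n => c * f n) N = c * ws f N := by
  unfold ws
  rw [Finset.mul_sum]
  exact Finset.sum_congr rfl fun n _ => by ring

theorem ws_zero (N : ℕ) : ws (fun _ => 0) N = 0 := by
  unfold ws
  simp

theorem nullF_zero : NullF (fun _ => 0) := by
  intro ε hε
  refine ⟨0, fun N => ?_⟩
  rw [ws_zero]
  have := Real.log_natCast_nonneg N
  positivity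

theorem nullF_congr (f g : ℕ → ℝ) (hf : NullF f) (h : ∀ n, g n = f n) : NullF g := by
  have e : g = f := funext h
  rw [e]
  exact hf

theorem nullF_add (f g : ℕ → ℝ) (hf : NullF f) (hg : NullF g) : NullF (fun n => f n + g n) := by
  intro ε hε
  obtain ⟨C, hC⟩ := hf (ε / 2) (by linarith)
  obtain ⟨D, hD⟩ := hg (ε / 2) (by linarith)
  refine ⟨C + D, fun N => ?_⟩
  rw [ILD_CH.ws_add]
  have h1 := hC N
  have h2 := hD N
  linarith

theorem nullF_mul (f : ℕ → ℝ) (hf : NullF f) (c : ℝ) (hc : 0 ≤ c) : NullF (fun n => c * f n) := by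
  intro ε hε
  have hc1 : 0 < c + 1 := by linarith
  obtain ⟨C, hC⟩ := hf (ε / (c + 1)) (by positivity)
  refine ⟨c * C, fun N => ?_⟩
  rw [ws_mul]
  have h1 := mul_le_mul_of_nonneg_left (hC N) hc
  have h2 : c * (ε / (c + 1)) ≤ ε := by
    rw [mul_div_assoc', div_le_iff₀ hc1]
    nlinarith
  have h3 := mul_le_mul_of_nonneg_right h2 (Real.log_natCast_nonneg N)
  linarith

theorem nullF_sum (P : Finset ℕ) (f : ℕ → ℕ → ℝ) (h : ∀ p ∈ P, NullF (f p)) :
    NullF (fun n => ∑ p ∈ P, f p n) := by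
  induction P using Finset.induction_on with
  | empty =>
    refine nullF_congr _ _ nullF_zero fun n => ?_
    exact Finset.sum_empty
  | insert a s ha ih =>
    have h1 := ih fun p hp => h p (Finset.mem_insert_of_mem hp)
    have h2 := h a (Finset.mem_insert_self a s)
    refine nullF_congr _ _ (nullF_add _ _ h2 h1) fun n => ?_
    exact Finset.sum_insert ha

theorem nullF_dil (f : ℕ → ℝ) (hf : NullF f) (h0 : ∀ n, 0 ≤ f n) (p : ℕ) (hp : 0 < p) :
    NullF (fun n => f (p * n)) := by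
  intro ε hε
  have hp' : (0 : ℝ) < p := by exact_mod_cast hp
  obtain ⟨C, hC⟩ := hf (ε / p) (by positivity)
  refine ⟨ε * Real.log p + p * |C|, fun N => ?_⟩
  have hlp : 0 ≤ Real.log (p : ℝ) := Real.log_natCast_nonneg p
  have hlN : 0 ≤ Real.log (N : ℝ) := Real.log_natCast_nonneg N
  rcases Nat.eq_zero_or_pos N with rfl | hN
  · have e : ws (fun n => f (p * n)) 0 = 0 := by
      unfold ws
      simp
    rw [e]
    positivity
  · have h1 := ld_WS.1 f p (p * N) hp
    rw [Nat.mul_div_cancel_left N hp] at h1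
    have h2 : ws (fun n => f (p * n)) N = p * ws (fun n => if p ∣ n then f n else 0) (p * N) := by
      rw [h1]
      field_simp
    have h3 : ws (fun n => if p ∣ n then f n else 0) (p * N) ≤ ws f (p * N) := by
      refine ILD_CH.ws_le _ _ _ fun n _ => ?_
      show (if p ∣ n then f n else 0) ≤ f n
      split_ifs
      · exact le_refl _
      · exact h0 n
    have h4 := hC (p * N)
    have hN' : (0 : ℝ) < N := by exact_mod_cast hN
    have h5 : Real.log ((p * N : ℕ) : ℝ) = Real.log p + Real.log N := by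
      push_cast
      exact Real.log_mul hp'.ne' hN'.ne'
    rw [h5] at h4
    rw [h2]
    have h6 := mul_le_mul_of_nonneg_left (h3.trans h4) hp'.le
    refine h6.trans ?_
    have h7 : (p : ℝ) * (ε / p * (Real.log p + Real.log N) + C) =
        ε * Real.log N + (ε * Real.log p + p * C) := by
      field_simp
      ring
    rw [h7]
    have h8 := mul_le_mul_of_nonneg_left (le_abs_self C) hp'.le
    linarith

/-- the products of pairs -/
theorem pairNull (A Q : Set ℕ) (hQ : ∀ p ∈ Q, p.Prime)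
    (hA : ∀ m : ℕ, 1 < m → (∀ p : ℕ, p.Prime → p ∣ m → p ∈ Q) → LNull {n | n ∈ A ∧ m * n ∈ A})
    (T : ℕ) : ∀ (G : ℕ → Finset ℕ), (∀ j, ∀ p ∈ G j, p ∈ Q) → (∀ j, 0 < rs (G j)) →
    ∀ m : ℕ, 1 < m → (∀ p : ℕ, p.Prime → p ∣ m → p ∈ Q) →
    NullF (fun n => ind A n * ILD_CH.h (ind A) T G (m * n)) := by
  have base : ∀ m : ℕ, 1 < m → (∀ p : ℕ, p.Prime → p ∣ m → p ∈ Q) →
      NullF (fun n => ind A n * ind A (m * n)) := by
    intro m hm hmQ
    refine nullF_congr (ind {n | n ∈ A ∧ m * n ∈ A}) _ (hA m hm hmQ) fun n => ?_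
    unfold ind
    by_cases h1 : n ∈ A
    · by_cases h2 : m * n ∈ A
      · rw [Set.indicator_of_mem h1, Set.indicator_of_mem h2,
          Set.indicator_of_mem (show n ∈ {n | n ∈ A ∧ m * n ∈ A} from ⟨h1, h2⟩), mul_one]
      · rw [Set.indicator_of_notMem h2,
          Set.indicator_of_notMem (show n ∉ {n | n ∈ A ∧ m * n ∈ A} from fun h => h2 h.2), mul_zero]
    · rw [Set.indicator_of_notMem h1,
          Set.indicator_of_notMem (show n ∉ {n | n ∈ A ∧ m * n ∈ A} from fun h => h1 h.1), zero_mul]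
  induction T with
  | zero =>
    intro G _ _ m hm hmQ
    exact base m hm hmQ
  | succ T ih =>
    intro G hG hE m hm hmQ
    have ih' := ih (fun j => G (j + 1)) (fun j => hG (j + 1)) (fun j => hE (j + 1))
    have hsum : NullF (fun n => ∑ p ∈ G 0, (1 / ((p : ℝ) * rs (G 0))) *
        (ind A n * ILD_CH.h (ind A) T (fun j => G (j + 1)) ((p * m) * n))) := by
      refine nullF_sum (G 0) (fun p n => (1 / ((p : ℝ) * rs (G 0))) *
        (ind A n * ILD_CH.h (ind A) T (fun j => G (j + 1)) ((p * m) * n))) fun p hp => ?_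
      have hpQ := hG 0 p hp
      have hpp := hQ p hpQ
      have hE0 := hE 0
      refine nullF_mul _ (ih' (p * m) ?_ ?_) _ (by positivity)
      · exact lt_of_lt_of_le hm (Nat.le_mul_of_pos_left m hpp.pos)
      · intro q hq hqd
        rcases hq.dvd_mul.1 hqd with h1 | h1
        · have h2 : q = p := (Nat.prime_dvd_prime_iff_eq hq hpp).1 h1
          rw [h2]
          exact hpQ
        · exact hmQ q hq h1
    refine nullF_congr _ _ (nullF_add _ _ (base m hm hmQ) hsum) fun n => ?_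
    show ind A n * (ind A (m * n) +
      ILD_CH.K (G 0) (ILD_CH.h (ind A) T (fun j => G (j + 1))) (m * n)) = _
    rw [mul_add]
    congr 1
    unfold ILD_CH.K
    rw [Finset.mul_sum]
    refine Finset.sum_congr rfl fun p _ => ?_
    rw [mul_assoc p m n]
    ring

/-- the average of a constant -/
theorem K_one (P : Finset ℕ) (hE : 0 < rs P) : ∑ p ∈ P, (1 / ((p : ℝ) * rs P)) = 1 := by
  have e2 : ∀ p ∈ P, (1 / ((p : ℝ) * rs P)) = (1 / (p : ℝ)) * (1 / rs P) := by
    intro p _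
    rw [one_div_mul_one_div]
  rw [Finset.sum_congr rfl e2, ← Finset.sum_mul]
  show rs P * (1 / rs P) = 1
  field_simp

/-- the functions `h` are at most `1` and an error -/
theorem hBound (A Q : Set ℕ) (hQ : ∀ p ∈ Q, p.Prime)
    (hA : ∀ m : ℕ, 1 < m → (∀ p : ℕ, p.Prime → p ∣ m → p ∈ Q) → LNull {n | n ∈ A ∧ m * n ∈ A})
    (T : ℕ) : ∀ (G : ℕ → Finset ℕ), (∀ j, ∀ p ∈ G j, p ∈ Q) → (∀ j, 0 < rs (G j)) →
    ∃ D : ℕ → ℝ, (∀ n, 0 ≤ D n) ∧ NullF D ∧ ∀ n, ILD_CH.h (ind A) T G n ≤ 1 + D n := by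
  induction T with
  | zero =>
    intro G _ _
    refine ⟨fun _ => 0, fun _ => le_refl _, nullF_zero, fun n => ?_⟩
    show ind A n ≤ 1 + 0
    rw [add_zero]
    exact ILD_NR.ind_le_one A n
  | succ T ih =>
    intro G hG hE
    obtain ⟨D, hD0, hDn, hD⟩ := ih (fun j => G (j + 1)) (fun j => hG (j + 1)) (fun j => hE (j + 1))
    have hE0 := hE 0
    have hh0 : ∀ n, 0 ≤ ILD_CH.h (ind A) T (fun j => G (j + 1)) n :=
      ILD_CH.h_nonneg (ind A) (ILD_NR.ind_nonneg A) T _ (fun j => hE (j + 1))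
    have hK0 : ∀ (f : ℕ → ℝ), (∀ n, 0 ≤ f n) → ∀ n, 0 ≤ ILD_CH.K (G 0) f n := by
      intro f hf n
      exact Finset.sum_nonneg fun p _ => mul_nonneg (by positivity) (hf _)
    refine ⟨fun n => ind A n * ILD_CH.K (G 0) (ILD_CH.h (ind A) T (fun j => G (j + 1))) n +
      ILD_CH.K (G 0) D n, fun n => ?_, ?_, fun n => ?_⟩
    · exact add_nonneg (mul_nonneg (ILD_NR.ind_nonneg A n) (hK0 _ hh0 n)) (hK0 _ hD0 n)
    · refine nullF_add _ _ ?_ ?_
      · have hsum : NullF (fun n => ∑ p ∈ G 0, (1 / ((p : ℝ) * rs (G 0))) *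
            (ind A n * ILD_CH.h (ind A) T (fun j => G (j + 1)) (p * n))) := by
          refine nullF_sum (G 0) (fun p n => (1 / ((p : ℝ) * rs (G 0))) *
            (ind A n * ILD_CH.h (ind A) T (fun j => G (j + 1)) (p * n))) fun p hp => ?_
          have hpQ := hG 0 p hp
          have hpp := hQ p hpQ
          refine nullF_mul _ (pairNull A Q hQ hA T (fun j => G (j + 1)) (fun j => hG (j + 1))
            (fun j => hE (j + 1)) p hpp.one_lt ?_) _ (by positivity)
          intro q hq hqd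
          have h2 : q = p := (Nat.prime_dvd_prime_iff_eq hq hpp).1 hqd
          rw [h2]
          exact hpQ
        refine nullF_congr _ _ hsum fun n => ?_
        unfold ILD_CH.K
        rw [Finset.mul_sum]
        refine Finset.sum_congr rfl fun p _ => ?_
        ring
      · refine nullF_sum (G 0) (fun p n => (1 / ((p : ℝ) * rs (G 0))) * D (p * n)) fun p hp => ?_
        have hpp := hQ p (hG 0 p hp)
        exact nullF_mul _ (nullF_dil D hDn hD0 p hpp.pos) _ (by positivity)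
    · show ind A n + ILD_CH.K (G 0) (ILD_CH.h (ind A) T (fun j => G (j + 1))) n ≤
        1 + (ind A n * ILD_CH.K (G 0) (ILD_CH.h (ind A) T (fun j => G (j + 1))) n +
          ILD_CH.K (G 0) D n)
      by_cases hn : n ∈ A
      · have e : ind A n = 1 := by
          unfold ind
          rw [Set.indicator_of_mem hn]
        rw [e, one_mul]
        have := hK0 D hD0 n
        linarith
      · have e : ind A n = 0 := by
          unfold ind
          rw [Set.indicator_of_notMem hn]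
        rw [e, zero_mul, zero_add, zero_add]
        have h1 : ILD_CH.K (G 0) (ILD_CH.h (ind A) T (fun j => G (j + 1))) n ≤
            ∑ p ∈ G 0, ((1 / ((p : ℝ) * rs (G 0))) + (1 / ((p : ℝ) * rs (G 0))) * D (p * n)) := by
          refine Finset.sum_le_sum fun p _ => ?_
          have h2 := mul_le_mul_of_nonneg_left (hD (p * n))
            (by positivity : 0 ≤ 1 / ((p : ℝ) * rs (G 0)))
          linarith
        rw [Finset.sum_add_distrib, K_one (G 0) hE0] at h1
        exact h1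

end JLE_CJ

/-- item CJ -/
theorem le_CJ : StCJ := by
  intro A Q hQ hthin hA ε hε
  obtain ⟨T, hT⟩ := exists_nat_ge (max (8 / ε) 1)
  have hT1 : (1 : ℝ) ≤ T := le_trans (le_max_right _ _) hT
  have hT2 : 8 / ε ≤ T := le_trans (le_max_left _ _) hT
  have hT0 : (0 : ℝ) < T := by linarith
  have hTn : 1 ≤ T := by exact_mod_cast hT1
  obtain ⟨G, hG1, hG2, hG3⟩ := ld_SP _ hthin (8 * (T : ℝ) ^ 3 / ε + 1)
  have hE0 : 0 < 8 * (T : ℝ) ^ 3 / ε + 1 := by positivity
  have hGQ : ∀ j, ∀ p ∈ G j, p ∈ Q := fun j p hp => hG1 j (Finset.mem_coe.2 hp)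
  have hGp : ∀ j, ∀ p ∈ G j, p.Prime := fun j p hp => hQ p (hGQ j p hp)
  have hr : ∀ j, 0 < rs (G j) := fun j => lt_of_lt_of_le hE0 (hG3 j)
  have hV : ∀ j, ∃ C : ℝ, ∀ N : ℕ,
      ws (fun n => (om (G j) n - rs (G j)) ^ 2) N ≤ rs (G j) * Real.log N + C :=
    fun j => ld_VR ld_WS (G j) (hGp j)
  choose C hC using hV
  obtain ⟨D, -, hDn, hD⟩ := JLE_CJ.hBound A Q hQ hA T G hGQ hr
  obtain ⟨C', hC'⟩ := hDn 1 one_pos
  refine ⟨2 / ((T : ℝ) + 1) * (1 + C') +
    ∑ j ∈ Finset.range T, 4 * (T : ℝ) ^ 2 / rs (G j) ^ 2 * C j, fun N => ?_⟩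
  have hlog : 0 ≤ Real.log (N : ℝ) := Real.log_natCast_nonneg N
  -- the chain inequality
  have h0 : ws (fun n => ind A n * ∑ t ∈ Finset.range (T + 1),
      ∏ j ∈ Finset.range t, (om (G j) n / rs (G j))) N ≤ 2 * Real.log N + (1 + C') := by
    have h1 := ILD_CH.chain ld_WS (ind A) (ILD_NR.ind_nonneg A) N T G (fun _ => 1) hGp hG2 hr
      (fun _ => zero_le_one) (fun _ _ _ _ => rfl)
    have h2 : ws (fun n => ILD_CH.h (ind A) T G n * 1) N ≤ ws (fun n => 1 + D n) N := by
      refine ILD_CH.ws_le _ _ N fun n _ => ?_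
      show ILD_CH.h (ind A) T G n * 1 ≤ 1 + D n
      rw [mul_one]
      exact hD n
    have h3 : ws (fun n => 1 + D n) N = ws (fun _ => 1) N + ws D N :=
      ILD_CH.ws_add (fun _ => 1) D N
    have h4 := ld_WS.2.2.1 N
    have h5 := hC' N
    have h6 : ws (fun n => ind A n * ∑ t ∈ Finset.range (T + 1),
        ∏ j ∈ Finset.range t, (om (G j) n / rs (G j))) N =
        ws (fun n => ind A n * ILD_CH.S T G n * 1) N := by
      refine ILD_CH.ws_congr _ _ N fun n _ => ?_
      show _ = ind A n * ILD_CH.S T G n * 1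
      rw [mul_one]
      rfl
    rw [h6]
    linarith
  -- the pointwise inequality, summed
  have h3 : ws (ind A) N ≤ 2 / ((T : ℝ) + 1) *
      ws (fun n => ind A n *
        ∑ t ∈ Finset.range (T + 1), ∏ j ∈ Finset.range t, (om (G j) n / rs (G j))) N +
      ∑ j ∈ Finset.range T, 4 * (T : ℝ) ^ 2 / rs (G j) ^ 2 *
        ws (fun n => (om (G j) n - rs (G j)) ^ 2) N := by
    have h4 : ∀ n ∈ Finset.Icc 1 N, ind A n / (n : ℝ) ≤
        2 / ((T : ℝ) + 1) * ((ind A n *
          ∑ t ∈ Finset.range (T + 1), ∏ j ∈ Finset.range t, (om (G j) n / rs (G j))) / (n : ℝ)) +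
        ∑ j ∈ Finset.range T, 4 * (T : ℝ) ^ 2 / rs (G j) ^ 2 *
          ((om (G j) n - rs (G j)) ^ 2 / (n : ℝ)) := by
      intro n _
      have h5 := ILD_NR.pt T hTn (fun j => om (G j) n / rs (G j))
        (fun j => div_nonneg (ILD_NR.om_nonneg _ _) (hr j).le) (ind A n)
        (ILD_NR.ind_nonneg _ _) (ILD_NR.ind_le_one _ _)
      have h6 := div_le_div_of_nonneg_right h5 (Nat.cast_nonneg n : (0 : ℝ) ≤ (n : ℝ))
      refine h6.trans (le_of_eq ?_)
      rw [add_div, mul_div_assoc, Finset.sum_div]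
      congr 1
      refine Finset.sum_congr rfl (fun j _ => ?_)
      have hrj := (hr j).ne'
      have h7 : om (G j) n / rs (G j) - 1 = (om (G j) n - rs (G j)) / rs (G j) := by
        field_simp
      rw [h7, div_pow]
      ring
    have h8 := Finset.sum_le_sum h4
    rw [Finset.sum_add_distrib, ← Finset.mul_sum, Finset.sum_comm] at h8
    simp only [← Finset.mul_sum] at h8
    exact h8
  have h9 : 2 / ((T : ℝ) + 1) *
      ws (fun n => ind A n *
        ∑ t ∈ Finset.range (T + 1), ∏ j ∈ Finset.range t, (om (G j) n / rs (G j))) N ≤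
      2 / ((T : ℝ) + 1) * (2 * Real.log N + (1 + C')) :=
    mul_le_mul_of_nonneg_left h0 (by positivity)
  have h10 : ∑ j ∈ Finset.range T, 4 * (T : ℝ) ^ 2 / rs (G j) ^ 2 *
        ws (fun n => (om (G j) n - rs (G j)) ^ 2) N ≤
      ∑ j ∈ Finset.range T, (ε / 2 / T * Real.log N + 4 * (T : ℝ) ^ 2 / rs (G j) ^ 2 * C j) := by
    refine Finset.sum_le_sum (fun j _ => ?_)
    have hrj := hr j
    have h11 := mul_le_mul_of_nonneg_left (hC j N)
      (by positivity : 0 ≤ 4 * (T : ℝ) ^ 2 / rs (G j) ^ 2)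
    have h12 : 4 * (T : ℝ) ^ 2 / rs (G j) ^ 2 * (rs (G j) * Real.log N + C j) =
        4 * (T : ℝ) ^ 2 / rs (G j) * Real.log N + 4 * (T : ℝ) ^ 2 / rs (G j) ^ 2 * C j := by
      field_simp
    have h13 : 4 * (T : ℝ) ^ 2 / rs (G j) ≤ ε / 2 / T := by
      rw [div_le_div_iff₀ hrj hT0]
      have h14 : 8 * (T : ℝ) ^ 3 / ε ≤ rs (G j) := by
        have := hG3 j
        linarith
      rw [div_le_iff₀ hε] at h14
      nlinarith [h14]
    have h15 := mul_le_mul_of_nonneg_right h13 hlog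
    linarith
  rw [Finset.sum_add_distrib, Finset.sum_const, Finset.card_range, nsmul_eq_mul] at h10
  have h16 : (T : ℝ) * (ε / 2 / T * Real.log N) = ε / 2 * Real.log N := by
    field_simp
  rw [h16] at h10
  have h17 : 2 / ((T : ℝ) + 1) * 2 ≤ ε / 2 := by
    rw [div_mul_eq_mul_div, div_le_div_iff₀ (by positivity) (by norm_num)]
    rw [div_le_iff₀ hε] at hT2
    nlinarith [hT2]
  have h18 := mul_le_mul_of_nonneg_right h17 hlog
  linarith

end Pool.Agent.Work.MP_327059_nt.LD
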