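import Pool.Agent.Work.MP_327059_nt.LD.StmtsP

/-! Item [327059 LE DT]: the determinant as a homogeneous polynomial. -/

set_option autoImplicit false

namespace Pool.Agent.Work.MP_327059_nt.LD

open MvPolynomial

/-- The determinant is a homogeneous polynomial of degree `k` in the entries. -/
theorem le_DT : StDT := by
  intro k
  refine ⟨(Matrix.of fun a j => (X (a, j) : MvPolynomial (Fin k × Fin k) ℂ)).det, ?_, ?_⟩
  · rw [Matrix.det_apply']
    refine IsHomogeneous.sum _ _ _ fun τ _ => ?_
    have h1 : (((Equiv.Perm.sign τ : ℤ) : ℤ) : MvPolynomial (Fin k × Fin k) ℂ) =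
        C ((Equiv.Perm.sign τ : ℤ) : ℂ) :=
      (map_intCast (C : ℂ →+* MvPolynomial (Fin k × Fin k) ℂ) _).symm
    have h2 : (∏ i : Fin k, (Matrix.of fun a j => (X (a, j) : MvPolynomial (Fin k × Fin k) ℂ))
        (τ i) i).IsHomogeneous (∑ _i : Fin k, 1) := by
      refine IsHomogeneous.prod _ _ _ fun i _ => ?_
      rw [Matrix.of_apply]
      exact isHomogeneous_X ℂ _
    have h3 := (isHomogeneous_C (Fin k × Fin k) ((Equiv.Perm.sign τ : ℤ) : ℂ)).mul h2
    rw [Finset.sum_const, Finset.card_univ, Fintype.card_fin, smul_eq_mul, mul_one, zero_add] at h3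
    rw [h1]
    exact h3
  · intro x
    rw [RingHom.map_det]
    apply congrArg
    ext i j
    rw [RingHom.mapMatrix_apply, Matrix.map_apply, Matrix.of_apply, Matrix.of_apply, eval_X]

end Pool.Agent.Work.MP_327059_nt.LD
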