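import Pool.Agent.Work.MP_327059_nt.LD.StmtsG

/-!
# Dependent numbers have determinant zero
-/

set_option autoImplicit false

namespace Pool.Agent.Work.MP_327059_nt.LD

open Pool.Agent.Work.MP_327059_nt.AA Pool.Agent.Work.MP_327059_nt.FL Pool.Agent.Work.MP_327059_nt.UB

namespace JLE_DZ

/-- The chain rule. -/
theorem chain {k : ℕ} (y : Fin k → ℂ) (D : Derivation ℚ ℂ ℂ) (P : MvPolynomial (Fin k) ℚ) :
    D (MvPolynomial.aeval y P) =
      ∑ j, MvPolynomial.aeval y (MvPolynomial.pderiv j P) * D (y j) := by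
  induction P using MvPolynomial.induction_on with
  | C a =>
    rw [MvPolynomial.aeval_C, Derivation.map_algebraMap]
    symm
    apply Finset.sum_eq_zero
    intro j _
    rw [MvPolynomial.pderiv_C, map_zero, zero_mul]
  | add p q hp hq =>
    rw [map_add, map_add, hp, hq, ← Finset.sum_add_distrib]
    apply Finset.sum_congr rfl
    intro j _
    rw [map_add, map_add, add_mul]
  | mul_X p i hp =>
    rw [map_mul, MvPolynomial.aeval_X, Derivation.leibniz, hp, smul_eq_mul, smul_eq_mul,
      Finset.mul_sum]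
    have h1 : ∀ j, MvPolynomial.aeval y (MvPolynomial.pderiv j (p * MvPolynomial.X i)) * D (y j) =
        y i * (MvPolynomial.aeval y (MvPolynomial.pderiv j p) * D (y j)) +
          MvPolynomial.aeval y p * (if j = i then D (y i) else 0) := by
      intro j
      rw [Derivation.leibniz, smul_eq_mul, smul_eq_mul, map_add, map_mul, map_mul,
        MvPolynomial.aeval_X, MvPolynomial.pderiv_X]
      by_cases hji : j = i
      · subst hji
        rw [Pi.single_eq_same, map_one, if_pos rfl]
        ring
      · rw [if_neg hji, Pi.single_eq_of_ne (fun h => hji h.symm), map_zero]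
        ring
    rw [Finset.sum_congr rfl (fun j _ => h1 j), Finset.sum_add_distrib, ← Finset.mul_sum,
      ← Finset.mul_sum, Finset.sum_ite_eq' Finset.univ i, if_pos (Finset.mem_univ i)]
    rw [Finset.mul_sum]
    ring

/-- The total degree of a derivative of a polynomial is smaller. -/
theorem deg_lt {k : ℕ} (P : MvPolynomial (Fin k) ℚ) (j : Fin k)
    (h : MvPolynomial.pderiv j P ≠ 0) :
    (MvPolynomial.pderiv j P).totalDegree < P.totalDegree := by
  have hkey : ∀ m ∈ (MvPolynomial.pderiv j P).support, (m.sum fun _ e => e) < P.totalDegree := by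
    intro m hm
    rw [MvPolynomial.mem_support_iff, MvPolynomial.coeff_pderiv] at hm
    have h1 : m + Finsupp.single j 1 ∈ P.support := by
      rw [MvPolynomial.mem_support_iff]
      intro h0
      exact hm (by rw [h0, zero_mul])
    have h2 := MvPolynomial.le_totalDegree h1
    rw [Finsupp.sum_add_index' (fun _ => rfl) (fun _ _ _ => rfl), Finsupp.sum_single_index rfl] at h2
    exact h2
  obtain ⟨m0, hm0⟩ := MvPolynomial.support_nonempty.mpr h
  have hpos : 0 < P.totalDegree := lt_of_le_of_lt (Nat.zero_le _) (hkey m0 hm0)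
  rw [MvPolynomial.totalDegree, Finset.sup_lt_iff hpos]
  exact hkey

/-- A polynomial without derivatives is constant. -/
theorem const {k : ℕ} (P : MvPolynomial (Fin k) ℚ)
    (h : ∀ j, MvPolynomial.pderiv j P = 0) : P = MvPolynomial.C (P.coeff 0) := by
  ext m
  rw [MvPolynomial.coeff_C]
  split_ifs with h0
  · rw [← h0]
  · obtain ⟨j, hj⟩ : ∃ j, m j ≠ 0 := by
      by_contra hc
      push Not at hc
      apply h0
      ext j
      rw [hc j]
      rfl
    have h1 := MvPolynomial.coeff_pderiv (R := ℚ) (i := j) P (m - Finsupp.single j 1)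
    have h2 : m - Finsupp.single j 1 + Finsupp.single j 1 = m := by
      apply tsub_add_cancel_of_le
      rw [Finsupp.single_le_iff]
      exact Nat.one_le_iff_ne_zero.mpr hj
    rw [h j, MvPolynomial.coeff_zero, h2] at h1
    rcases mul_eq_zero.mp h1.symm with h4 | h4
    · exact h4
    · exact absurd h4 (Nat.cast_add_one_ne_zero _)

/-- The relation. -/
theorem relation {k : ℕ} (y : Fin k → ℂ) (h : ¬ AlgebraicIndependent ℚ y) :
    ∃ c : Fin k → ℂ, c ≠ 0 ∧ ∀ D : Derivation ℚ ℂ ℂ, ∑ j, c j * D (y j) = 0 := by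
  have hex : ∃ d : ℕ, ∃ P : MvPolynomial (Fin k) ℚ, P ≠ 0 ∧ MvPolynomial.aeval y P = 0 ∧
      P.totalDegree = d := by
    rw [algebraicIndependent_iff] at h
    push Not at h
    obtain ⟨P, hP, hP0⟩ := h
    exact ⟨_, P, hP0, hP, rfl⟩
  classical
  obtain ⟨P, hP0, hPy, hPd⟩ := Nat.find_spec hex
  have hmin : ∀ Q : MvPolynomial (Fin k) ℚ, Q ≠ 0 → MvPolynomial.aeval y Q = 0 →
      P.totalDegree ≤ Q.totalDegree := by
    intro Q hQ0 hQy
    rw [hPd]
    exact Nat.find_min' hex ⟨Q, hQ0, hQy, rfl⟩
  refine ⟨fun j => MvPolynomial.aeval y (MvPolynomial.pderiv j P), ?_, ?_⟩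
  · intro hc
    have hj : ∃ j, MvPolynomial.pderiv j P ≠ 0 := by
      by_contra hno
      push Not at hno
      have h1 := const P hno
      rw [h1, MvPolynomial.aeval_C] at hPy
      have h2 : P.coeff 0 = 0 := by
        rw [eq_ratCast] at hPy
        exact_mod_cast hPy
      rw [h2, map_zero] at h1
      exact hP0 h1
    obtain ⟨j, hj⟩ := hj
    have h2 := hmin _ hj (congrFun hc j)
    exact absurd (deg_lt P j hj) (not_lt.mpr h2)
  · intro D
    rw [← chain, hPy, map_zero]

end JLE_DZ

open JLE_DZ in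
theorem le_DZ : StDZ := by
  intro m b z D h
  obtain ⟨c, hc, hD⟩ := relation _ h
  obtain ⟨t, ht, hrw⟩ : ∃ t : Fin (m + 1) → ℂ, (∀ j, t j ≠ 0) ∧
      ∀ (E : Derivation ℚ ℂ ℂ) (j : Fin (m + 1)), rw' b E z j * t j = E (ys b z j) := by
    refine ⟨Fin.cons 1 fun j => Complex.exp (b j * z), ?_, ?_⟩
    · intro j
      refine Fin.cases ?_ (fun i => ?_) j
      · exact one_ne_zero
      · exact Complex.exp_ne_zero _
    · intro E j
      refine Fin.cases ?_ (fun i => ?_) j
      · exact mul_one _
      · exact div_mul_cancel₀ _ (Complex.exp_ne_zero (b i * z))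
  rw [← Matrix.exists_mulVec_eq_zero_iff]
  refine ⟨fun j => t j * c j, ?_, ?_⟩
  · intro h0
    apply hc
    ext j
    have h1 := congrFun h0 j
    exact (mul_eq_zero.mp h1).resolve_left (ht j)
  · ext a
    have h1 := hD (D a)
    refine Eq.trans ?_ h1
    simp only [Matrix.mulVec, dotProduct, Matrix.of_apply]
    apply Finset.sum_congr rfl
    intro j _
    rw [← hrw (D a) j]
    ring

end Pool.Agent.Work.MP_327059_nt.LD
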