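import Pool.Agent.Work.MP_327059_nt.LD.StmtsP

/-!
Block LE of problem 327059, item EU.
-/

set_option autoImplicit false

namespace Pool.Agent.Work.MP_327059_nt.LD

open MvPolynomial

/-- A functional. -/
theorem le_EU : StEU := by
  intro σ _ H d U hH hex
  obtain ⟨u₀, hu₀U, hu₀⟩ := hex
  let R : Submodule ℂ (σ → ℂ) :=
    { carrier := {r | r ∈ U ∧ ∀ u ∈ U, ∑ i, r i * eval u (pderiv i H) = 0}
      add_mem' := by
        intro a b ha hb
        refine ⟨U.add_mem ha.1 hb.1, fun u hu => ?_⟩
        have h1 := ha.2 u hu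
        have h2 := hb.2 u hu
        simp only [Pi.add_apply, add_mul, Finset.sum_add_distrib]
        rw [h1, h2, add_zero]
      zero_mem' := by
        refine ⟨U.zero_mem, fun u _ => ?_⟩
        simp
      smul_mem' := by
        intro c a ha
        refine ⟨U.smul_mem c ha.1, fun u hu => ?_⟩
        have h1 := ha.2 u hu
        have h2 : ∑ i, (c • a) i * eval u (pderiv i H) =
            c * ∑ i, a i * eval u (pderiv i H) := by
          rw [Finset.mul_sum]
          refine Finset.sum_congr rfl fun i _ => ?_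
          simp only [Pi.smul_apply, smul_eq_mul]
          ring
        rw [h2, h1, mul_zero] }
  have hne : u₀ ∉ R := by
    intro h
    have h1 : ∑ i, u₀ i * eval u₀ (pderiv i H) = 0 := h.2 u₀ hu₀U
    have h2 : ∑ i, u₀ i * eval u₀ (pderiv i H) = ((d + 1 : ℕ) : ℂ) * eval u₀ H := by
      have h3 := congrArg (eval u₀) hH.sum_X_mul_pderiv
      rw [map_sum] at h3
      simp only [map_mul, eval_X, nsmul_eq_mul, map_natCast] at h3
      exact h3
    rw [h1] at h2
    have h4 : ((d + 1 : ℕ) : ℂ) ≠ 0 := Nat.cast_ne_zero.mpr (Nat.succ_ne_zero d)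
    exact (mul_ne_zero h4 hu₀) h2.symm
  obtain ⟨l, hl1, hl2⟩ := Submodule.exists_le_ker_of_notMem hne
  refine ⟨l, ⟨u₀, hu₀U, hl1⟩, ?_⟩
  intro r hr hlr
  by_contra hcon
  push Not at hcon
  exact hlr (hl2 (show r ∈ R from ⟨hr, hcon⟩))

end Pool.Agent.Work.MP_327059_nt.LD
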