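import Pool.Agent.Work.MP_327059_nt.LD.StmtsG

/-!
# MP_327059_nt, block LE, item GD: generic derivations
-/

set_option autoImplicit false

namespace Pool.Agent.Work.MP_327059_nt.LD

open Pool.Agent.Work.MP_327059_nt.AA Pool.Agent.Work.MP_327059_nt.FL Pool.Agent.Work.MP_327059_nt.UB

namespace JLE_GD

open KaehlerDifferential

/-- the factors `1` and `1 / exp (b_j z)` -/
noncomputable def cf {m : ℕ} (b : Fin m → ℂ) (z : ℂ) : Fin (m + 1) → ℂ :=
  Fin.cons 1 fun j => (Complex.exp (b j * z))⁻¹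

theorem cf_ne {m : ℕ} (b : Fin m → ℂ) (z : ℂ) (l : Fin (m + 1)) : cf b z l ≠ 0 := by
  refine Fin.cases ?_ (fun j => ?_) l
  · simp [cf]
  · simp only [cf, Fin.cons_succ]
    exact inv_ne_zero (Complex.exp_ne_zero _)

theorem rw_eq {m : ℕ} (b : Fin m → ℂ) (E : Derivation ℚ ℂ ℂ) (z : ℂ) (l : Fin (m + 1)) :
    rw' b E z l = cf b z l * E (ys b z l) := by
  refine Fin.cases ?_ (fun j => ?_) l
  · simp [cf, rw', ys]
  · simp only [cf, rw', ys, Fin.cons_succ]
    rw [ld_apply (b j) E, div_eq_mul_inv, mul_comm]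

/-- the elements of `Ω[ℂ⁄ℚ]` -/
noncomputable def wv {m : ℕ} (b : Fin m → ℂ) (z : ℂ) (l : Fin (m + 1)) : Ω[ℂ⁄ℚ] :=
  cf b z l • (D ℚ ℂ (ys b z l))

theorem wv_ind {m : ℕ} (b : Fin m → ℂ) (z : ℂ) (h : AlgebraicIndependent ℚ (ys b z)) :
    LinearIndependent ℂ (wv b z) := by
  classical
  rw [Fintype.linearIndependent_iff]
  intro g hg j
  obtain ⟨X, hX⟩ := Pool.Agent.ED.exists_derivation h (fun l => if l = j then (1 : ℂ) else 0)
  have hl : ∀ x : ℂ, X.liftKaehlerDifferential (D ℚ ℂ x) = X x :=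
    fun x => X.liftKaehlerDifferential_comp_D x
  have h1 := congrArg X.liftKaehlerDifferential hg
  rw [map_sum, map_zero] at h1
  have h2 : ∀ l, X.liftKaehlerDifferential (g l • wv b z l) =
      if l = j then g j * cf b z j else 0 := by
    intro l
    rw [map_smul, wv, map_smul, hl, hX l]
    by_cases hlj : l = j
    · subst hlj
      simp
    · simp [hlj]
  rw [Finset.sum_congr rfl fun l _ => h2 l] at h1
  simp only [Finset.sum_ite_eq', Finset.mem_univ, if_true] at h1
  exact (mul_eq_zero.1 h1).resolve_right (cf_ne b z j)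

end JLE_GD

open JLE_GD in
theorem le_GD (hMG : StMG) : StGD := by
  intro m b z
  classical
  by_cases hex : ∃ i, AlgebraicIndependent ℚ (ys b (z i))
  · obtain ⟨i0, h0⟩ := hex
    obtain ⟨φ, hφ⟩ := hMG _ m
      (fun i => if AlgebraicIndependent ℚ (ys b (z i)) then wv b (z i) else wv b (z i0))
      (fun i => by
        by_cases hi : AlgebraicIndependent ℚ (ys b (z i))
        · simp only [if_pos hi]
          exact wv_ind b (z i) hi
        · simp only [if_neg hi]
          exact wv_ind b (z i0) h0)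
    refine ⟨fun a => (φ a).compDer (KaehlerDifferential.D ℚ ℂ), fun i hi => ?_⟩
    have h1 := hφ i
    simp only [if_pos hi] at h1
    have h2 : (Matrix.of fun a j => rw' b ((φ a).compDer (KaehlerDifferential.D ℚ ℂ)) (z i) j) =
        Matrix.of fun a j => φ a (wv b (z i) j) := by
      ext a j
      simp only [Matrix.of_apply]
      rw [rw_eq, wv, map_smul, smul_eq_mul]
      rfl
    rw [h2]
    exact h1
  · exact ⟨fun _ => 0, fun i hi => absurd ⟨i, hi⟩ hex⟩

end Pool.Agent.Work.MP_327059_nt.LD
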