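import Pool.Agent.Work.MP_327059_nt.LD.StmtsP
import Pool.Agent.Work.MP_327059_nt.LD.I_GV

/-!
# MP_327059_nt, block LE, item MG: generic functionals
-/

set_option autoImplicit false

namespace Pool.Agent.Work.MP_327059_nt.LD

open MvPolynomial

namespace JLE_MG

/-- The induction: `k` generic functionals. -/
theorem step (M : Type) [AddCommGroup M] [Module ℂ M] (m : ℕ) (w : ℕ → Fin (m + 1) → M)
    (hw : ∀ i, LinearIndependent ℂ (w i)) (k : ℕ) (hk : k ≤ m + 1) :
    ∃ φ : Fin k → (M →ₗ[ℂ] ℂ), ∀ i,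
      LinearIndependent ℂ (fun (a : Fin k) (j : Fin (m + 1)) => φ a (w i j)) := by
  induction k with
  | zero =>
    refine ⟨fun _ => 0, fun i => ?_⟩
    exact linearIndependent_empty_type
  | succ k ih =>
    obtain ⟨φ, hφ⟩ := ih (by omega)
    have hc : ∀ i : ℕ, ∃ c : Fin (m + 1) → ℂ, c ≠ 0 ∧ ∀ a : Fin k, ∑ j, c j * φ a (w i j) = 0 := by
      intro i
      let f : (Fin (m + 1) → ℂ) →ₗ[ℂ] (Fin k → ℂ) :=
        Matrix.mulVecLin (Matrix.of fun (a : Fin k) (j : Fin (m + 1)) => φ a (w i j))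
      have hlt : Module.finrank ℂ (Fin k → ℂ) < Module.finrank ℂ (Fin (m + 1) → ℂ) := by
        rw [Module.finrank_fin_fun, Module.finrank_fin_fun]
        omega
      have hker : LinearMap.ker f ≠ ⊥ := LinearMap.ker_ne_bot_of_finrank_lt hlt
      obtain ⟨c, hcm, hc0⟩ := Submodule.exists_mem_ne_zero_of_ne_bot hker
      refine ⟨c, hc0, fun a => ?_⟩
      have h1 : f c = 0 := LinearMap.mem_ker.1 hcm
      have h2 := congrFun h1 a
      have h3 : f c a = ∑ j, φ a (w i j) * c j := by
        simp only [f, Matrix.mulVecLin_apply, Matrix.mulVec, dotProduct, Matrix.of_apply]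
      rw [h3] at h2
      have h2' : ∑ j, φ a (w i j) * c j = 0 := h2
      refine Eq.trans (Finset.sum_congr rfl fun j _ => mul_comm _ _) h2'
    choose c hc0 hcs using hc
    have hv : ∀ i, ∑ j, c i j • w i j ≠ 0 := by
      intro i h
      apply hc0 i
      funext j
      exact Fintype.linearIndependent_iff.1 (hw i) (c i) h j
    obtain ⟨ψ, hψ⟩ := ld_GV M (fun i => ∑ j, c i j • w i j) hv
    refine ⟨Fin.cons ψ φ, fun i => ?_⟩
    have h4 : (fun (a : Fin (k + 1)) (j : Fin (m + 1)) =>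
        (Fin.cons ψ φ : Fin (k + 1) → (M →ₗ[ℂ] ℂ)) a (w i j)) =
        Fin.cons (fun j : Fin (m + 1) => ψ (w i j))
          (fun (a : Fin k) (j : Fin (m + 1)) => φ a (w i j)) := by
      funext a
      refine Fin.cases ?_ (fun b => ?_) a
      · simp
      · simp
    rw [h4, linearIndependent_finCons]
    refine ⟨hφ i, fun hmem => ?_⟩
    let L : (Fin (m + 1) → ℂ) →ₗ[ℂ] ℂ := ∑ j, c i j • LinearMap.proj j
    have hL : ∀ y, L y = ∑ j, c i j * y j := by
      intro y
      simp [L]
    have hle : Submodule.span ℂ (Set.range (fun (a : Fin k) (j : Fin (m + 1)) => φ a (w i j))) ≤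
        LinearMap.ker L := by
      rw [Submodule.span_le]
      rintro _ ⟨a, rfl⟩
      simp only [SetLike.mem_coe, LinearMap.mem_ker]
      rw [hL]
      exact hcs i a
    have h5 := LinearMap.mem_ker.1 (hle hmem)
    rw [hL] at h5
    apply hψ i
    have h6 : ψ (∑ j, c i j • w i j) = ∑ j, c i j * ψ (w i j) := by
      rw [map_sum]
      exact Finset.sum_congr rfl fun j _ => by rw [map_smul, smul_eq_mul]
    exact h6.trans h5

end JLE_MG

/-- Item MG. -/
theorem le_MG : StMG := by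
  intro M _ _ m w hw
  obtain ⟨φ, hφ⟩ := JLE_MG.step M m w hw (m + 1) le_rfl
  refine ⟨φ, fun i => ?_⟩
  have h1 : LinearIndependent ℂ (Matrix.of fun a j => φ a (w i j)).row := hφ i
  have h2 := Matrix.linearIndependent_rows_iff_isUnit.1 h1
  exact isUnit_iff_ne_zero.1 ((Matrix.isUnit_iff_isUnit_det _).1 h2)

end Pool.Agent.Work.MP_327059_nt.LD
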