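import Pool.Agent.Work.MP_327059_nt.LD.StmtsG
import Pool.Agent.Work.MP_327059_nt.FR.Asm

/-!
# MP_327059_nt, block LE, item NV: an element with independent numbers over an infinite set of primes
-/

set_option autoImplicit false

namespace Pool.Agent.Work.MP_327059_nt.LD

open Pool.Agent.Work.MP_327059_nt.AA Pool.Agent.Work.MP_327059_nt.FL Pool.Agent.Work.MP_327059_nt.UB

namespace JLE_NV

theorem exp_lg {p : ℕ} (hp : p.Prime) : IsAlgebraic ℚ (Complex.exp (lg p)) := by
  have h0 : (0 : ℝ) < (p : ℝ) := by exact_mod_cast hp.pos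
  have h1 : Complex.exp (lg p) = (p : ℂ) := by
    unfold lg
    rw [← Complex.ofReal_exp, Real.exp_log h0, Complex.ofReal_natCast]
  rw [h1]
  exact isAlgebraic_natCast p

theorem exp_span (S : Set ℂ) (hS : ∀ z ∈ S, IsAlgebraic ℚ (Complex.exp z)) (z : ℂ)
    (hz : z ∈ Submodule.span ℚ S) : IsAlgebraic ℚ (Complex.exp z) := by
  induction hz using Submodule.span_induction with
  | mem x hx => exact hS x hx
  | zero => rw [Complex.exp_zero]; exact isAlgebraic_one
  | add x y _ _ hx hy => rw [Complex.exp_add]; exact hx.mul hy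
  | smul q x _ hx =>
    have h1 : q • x = (q : ℂ) * x := Rat.smul_def q x
    rw [h1]
    exact FinB_exp_rat q hx

theorem avoid (V : Submodule ℚ ℂ) (T : Set (Submodule ℚ ℂ)) (hT : T.Finite)
    (h : ∀ W ∈ T, ¬ V ≤ W) : ∃ z ∈ V, ∀ W ∈ T, z ∉ W := by
  have : Finite T := hT.to_subtype
  obtain ⟨x, hx⟩ := Submodule.exists_forall_notMem_of_forall_ne_top (K := ℚ) (M := V)
    (fun W : T => (W : Submodule ℚ ℂ).comap V.subtype) (fun W hW => h W W.2 (by
      rwa [Submodule.comap_subtype_eq_top] at hW))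
  exact ⟨x, x.2, fun W hW hxW => hx ⟨W, hW⟩ hxW⟩

theorem lz_emb {n : ℕ} (e : Fin n ↪ ℕ) (c : Fin n → ℚ) :
    lz (Finsupp.embDomain e (Finsupp.equivFunOnFinite.symm c)) = ∑ i, c i • lg (e i) := by
  unfold lz
  rw [Finsupp.sum_embDomain, Finsupp.sum_fintype]
  · refine Finset.sum_congr rfl fun i _ => ?_
    rw [Rat.smul_def]
    rfl
  · intro i
    rw [Rat.cast_zero, zero_mul]

end JLE_NV

open JLE_NV

theorem le_NV (hLQ : StLQ) : StNV := by
  classical
  intro m b hb hbi Q hQ hQp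
  obtain ⟨n₀, hn⟩ := FR.final FR.y_CovB m
  let e : Fin (n₀ + 1) ↪ ℕ :=
    (Fin.valEmbedding.trans (Set.Infinite.natEmbedding Q hQ)).trans (Function.Embedding.subtype _)
  have heQ : ∀ i, e i ∈ Q := fun i => (Set.Infinite.natEmbedding Q hQ i.val).2
  let f : Fin (n₀ + 1) → Nat.Primes := fun i => ⟨e i, hQp _ (heQ i)⟩
  have hf : Function.Injective f := by
    intro i j h
    have h1 : e i = e j := congrArg (fun x : Nat.Primes => (x : ℕ)) h
    exact e.injective h1
  have hli : LinearIndependent ℚ (fun i => lg (e i)) := hLQ.comp f hf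
  obtain ⟨T, hT1, hT2, hT3⟩ := hn b hb hbi (Submodule.span ℚ (Set.range fun i => lg (e i)))
    (FiniteDimensional.span_of_finite ℚ (Set.finite_range _)) (exp_span _ (by
      rintro z ⟨i, rfl⟩
      exact exp_lg (hQp _ (heQ i))))
  have hfr : Module.finrank ℚ (Submodule.span ℚ (Set.range fun i => lg (e i))) = n₀ + 1 := by
    rw [finrank_span_eq_card hli, Fintype.card_fin]
  obtain ⟨z, hz, hzT⟩ := avoid (Submodule.span ℚ (Set.range fun i => lg (e i))) T hT1 (by
    intro W hW hle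
    have h1 := le_antisymm (hT2 W hW).1 hle
    have h2 := (hT2 W hW).2
    rw [h1, hfr] at h2
    exact Nat.not_succ_le_self n₀ h2)
  obtain ⟨c, hc⟩ := (Submodule.mem_span_range_iff_exists_fun ℚ).1 hz
  refine ⟨Finsupp.embDomain e (Finsupp.equivFunOnFinite.symm c), ?_, ?_⟩
  · intro p hp
    rw [Finsupp.support_embDomain, Finset.mem_map] at hp
    obtain ⟨i, _, rfl⟩ := hp
    exact heQ i
  · rw [lz_emb, hc]
    by_contra hcon
    obtain ⟨W, hW, hzW⟩ := hT3 z hz hcon
    exact hzT W hW hzW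

end Pool.Agent.Work.MP_327059_nt.LD
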