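import Pool.Agent.Work.MP_327059_nt.LD.StmtsP
import Pool.Agent.Work.MP_327059_nt.LD.I_TH

/-!
# MP_327059_nt, block LE, item PZ: zeros of a polynomial in an additive function
-/

set_option autoImplicit false

namespace Pool.Agent.Work.MP_327059_nt.LD

open MvPolynomial

namespace JLE_PZ

theorem equiv : Nonempty (ℂ ≃ₗ[ℚ] ℝ) :=
  nonempty_linearEquiv_of_rank_eq (by rw [Complex.rank_rat_complex, Real.rank_rat_real])

theorem ind_le {A B : Set ℕ} (h : A ⊆ B) (n : ℕ) : ind A n ≤ ind B n := by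
  unfold ind
  by_cases hA : n ∈ A
  · rw [Set.indicator_of_mem hA, Set.indicator_of_mem (h hA)]
  · rw [Set.indicator_of_notMem hA]
    exact Set.indicator_nonneg (fun _ _ => zero_le_one) n

theorem LNull_mono {A B : Set ℕ} (h : A ⊆ B) (hB : LNull B) : LNull A := by
  intro ε hε
  obtain ⟨C, hC⟩ := hB ε hε
  refine ⟨C, fun N => le_trans ?_ (hC N)⟩
  unfold ws
  refine Finset.sum_le_sum fun n _ => ?_
  exact div_le_div_of_nonneg_right (ind_le h n) (Nat.cast_nonneg n)

theorem LNull_empty {A : Set ℕ} (h : ∀ n, n ∉ A) : LNull A := by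
  intro ε hε
  refine ⟨0, fun N => ?_⟩
  have h0 : ws (ind A) N = 0 := by
    unfold ws ind
    refine Finset.sum_eq_zero fun n _ => ?_
    rw [Set.indicator_of_notMem (h n), zero_div]
  rw [h0]
  have := mul_nonneg hε.le (Real.log_natCast_nonneg N)
  linarith

/-- The values at products of primes of a set. -/
theorem prod_mem {σ : Type} (F : ℕ → (σ → ℂ)) (U : Submodule ℂ (σ → ℂ))
    (hF : ∀ m n : ℕ, 0 < m → 0 < n → F (m * n) = F m + F n) (f : (σ → ℂ) →ₗ[ℚ] ℝ) :
    ∀ m : ℕ, 1 < m → (∀ p : ℕ, p.Prime → p ∣ m → F p ∈ U ∧ 0 < f (F p)) →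
      F m ∈ U ∧ 0 < f (F m) := by
  intro m
  induction m using Nat.strong_induction_on with
  | _ m ih =>
    intro hm hp
    have hpr : (Nat.minFac m).Prime := Nat.minFac_prime (by omega)
    obtain ⟨k, hk⟩ := Nat.minFac_dvd m
    obtain ⟨h1, h2⟩ := hp _ hpr (Nat.minFac_dvd m)
    have hk0 : 0 < k := by
      rcases Nat.eq_zero_or_pos k with h | h
      · rw [h, mul_zero] at hk
        omega
      · exact h
    by_cases hk1 : k = 1
    · have hmm : m = Nat.minFac m := by
        rw [hk1, mul_one] at hk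
        exact hk
      rw [hmm]
      exact ⟨h1, h2⟩
    · have hk2 : 1 < k := by omega
      have hlt : k < m := by
        have h3 := hpr.two_le
        calc k < 2 * k := by omega
          _ ≤ Nat.minFac m * k := Nat.mul_le_mul_right k h3
          _ = m := hk.symm
      obtain ⟨h3, h4⟩ := ih k hlt hk2 (fun p hpp hpk => hp p hpp (by rw [hk]; exact Dvd.dvd.mul_left hpk _))
      have hadd : F m = F (Nat.minFac m) + F k := by
        have := hF (Nat.minFac m) k hpr.pos hk0
        rwa [← hk] at this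
      rw [hadd, map_add]
      exact ⟨U.add_mem h1 h3, add_pos h2 h4⟩

end JLE_PZ

theorem le_PZ (hCJ : StCJ) (hSH : StSH) (hEU : StEU) : StPZ := by
  obtain ⟨hmono, hunion, -⟩ := ld_TH
  obtain ⟨e⟩ := JLE_PZ.equiv
  intro σ _ F U hF hthin hmin d
  induction d with
  | zero =>
    intro P hP hu
    obtain ⟨u, -, hu⟩ := hu
    apply JLE_PZ.LNull_empty
    rintro n ⟨-, hn⟩
    apply hu
    have hc : P = C (coeff 0 P) := totalDegree_eq_zero_iff_eq_C.1 (Nat.le_zero.1 hP)
    have h0 : homogeneousComponent 0 P = C (coeff 0 P) := homogeneousComponent_zero P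
    rw [h0, eval_C]
    rw [hc, eval_C] at hn
    exact hn
  | succ d ih =>
    intro P hP hu
    obtain ⟨l, ⟨u0, hu0, hlu0⟩, hl⟩ := hEU σ (homogeneousComponent (d + 1) P) d U
      (homogeneousComponent_isHomogeneous (d + 1) P) hu
    -- the main step
    have step : ∀ g : ℂ →ₗ[ℚ] ℝ, ¬ Thin {p | p.Prime ∧ F p ∈ U ∧ 0 < g (l (F p))} →
        LNull {n | 1 ≤ n ∧ eval (F n) P = 0} := by
      intro g hg
      refine hCJ {n | 1 ≤ n ∧ eval (F n) P = 0} {p | p.Prime ∧ F p ∈ U ∧ 0 < g (l (F p))}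
        (fun p hp => hp.1) hg ?_
      intro m hm hfac
      have hf : ∀ v : σ → ℂ, (g ∘ₗ (l.restrictScalars ℚ)) v = g (l v) := fun v => rfl
      obtain ⟨hrU, hrl⟩ := JLE_PZ.prod_mem F U hF (g ∘ₗ (l.restrictScalars ℚ)) m hm (by
        intro p hp hpm
        obtain ⟨-, h2, h3⟩ := hfac p hp hpm
        exact ⟨h2, by rw [hf]; exact h3⟩)
      rw [hf] at hrl
      have hlr : l (F m) ≠ 0 := by
        intro h
        rw [h, map_zero] at hrl
        exact lt_irrefl _ hrl
      obtain ⟨P', hP1, hP2, hP3⟩ := hSH σ P d (F m) hP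
      obtain ⟨u, huU, hune⟩ := hl (F m) hrU hlr
      refine JLE_PZ.LNull_mono ?_ (ih P' hP2 ⟨u, huU, by rw [hP3 u]; exact hune⟩)
      rintro n ⟨⟨hn1, hn2⟩, -, hn4⟩
      refine ⟨hn1, ?_⟩
      have hadd : F (m * n) = F n + F m := by
        rw [hF m n (by omega) (by omega), add_comm]
      rw [hP1, ← hadd, hn4, hn2, sub_zero]
    -- one of the two sets of primes is not thin
    have hS : ¬ Thin {p | p.Prime ∧ F p ∈ U ∧ l (F p) ≠ 0} := by
      intro hS
      have hlt : U ⊓ LinearMap.ker l < U := by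
        refine lt_of_le_of_ne inf_le_left ?_
        intro h
        have : u0 ∈ U ⊓ LinearMap.ker l := by rw [h]; exact hu0
        exact hlu0 (LinearMap.mem_ker.1 this.2)
      refine hmin _ hlt (hmono _ _ ?_ (hunion _ _ hthin hS))
      rintro p ⟨hp, hpU⟩
      by_cases h : F p ∈ U
      · refine Or.inr ⟨hp, h, ?_⟩
        intro h0
        exact hpU ⟨h, LinearMap.mem_ker.2 h0⟩
      · exact Or.inl ⟨hp, h⟩
    by_cases hQ : Thin {p | p.Prime ∧ F p ∈ U ∧ 0 < (e : ℂ →ₗ[ℚ] ℝ) (l (F p))}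
    · apply step (-(e : ℂ →ₗ[ℚ] ℝ))
      intro hn
      refine hS (hmono _ _ ?_ (hunion _ _ hQ hn))
      rintro p ⟨hp, hpU, hp0⟩
      have hne : e (l (F p)) ≠ 0 := fun h => hp0 (e.map_eq_zero_iff.1 h)
      rcases lt_or_gt_of_ne hne with h | h
      · refine Or.inr ⟨hp, hpU, ?_⟩
        rw [LinearMap.neg_apply]
        exact neg_pos.2 h
      · exact Or.inl ⟨hp, hpU, h⟩
    · exact step _ hQ

end Pool.Agent.Work.MP_327059_nt.LD
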