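import Pool.Agent.Work.MP_327059_nt.LD.StmtsP

set_option autoImplicit false

namespace Pool.Agent.Work.MP_327059_nt.LD

open MvPolynomial

namespace JLE_SH

variable {σ : Type}

/-- All monomials of `Q` have degree at most `k - j`. -/
def W (j k : ℕ) (Q : MvPolynomial σ ℂ) : Prop := ∀ s, coeff s Q ≠ 0 → s.degree + j ≤ k

lemma W_zero (j k : ℕ) : W j k (0 : MvPolynomial σ ℂ) := by
  intro s hs
  exact absurd (coeff_zero s) hs

lemma W_add {j k : ℕ} {P Q : MvPolynomial σ ℂ} (hP : W j k P) (hQ : W j k Q) : W j k (P + Q) := by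
  intro s hs
  by_cases h : coeff s P = 0
  · apply hQ
    intro h2
    apply hs
    rw [coeff_add, h, h2, add_zero]
  · exact hP s h

lemma W_smul {j k : ℕ} {Q : MvPolynomial σ ℂ} (a : ℂ) (hQ : W j k Q) : W j k (C a * Q) := by
  intro s hs
  apply hQ
  intro h
  apply hs
  rw [coeff_C_mul, h, mul_zero]

lemma W_mono {j k j' k' : ℕ} {Q : MvPolynomial σ ℂ} (h : k + j' ≤ k' + j) (hQ : W j k Q) :
    W j' k' Q := by
  intro s hs
  have := hQ s hs
  omega

lemma W_mulX {j k : ℕ} {Q : MvPolynomial σ ℂ} (i : σ) (hQ : W j k Q) : W j (k + 1) (Q * X i) := by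
  classical
  intro s hs
  rw [coeff_mul_X'] at hs
  split_ifs at hs with h
  · have h1 := hQ _ hs
    have h2 : s - Finsupp.single i 1 + Finsupp.single i 1 = s := by
      apply tsub_add_cancel_of_le
      rw [Finsupp.single_le_iff]
      have := Finsupp.mem_support_iff.1 h
      omega
    have h3 : s.degree = (s - Finsupp.single i 1).degree + 1 := by
      conv_lhs => rw [← h2]
      rw [map_add, Finsupp.degree_single]
    omega
  · exact absurd rfl hs

/-- The translate. -/
noncomputable def S (r : σ → ℂ) (P : MvPolynomial σ ℂ) : MvPolynomial σ ℂ :=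
  aeval (fun i => X i + C (r i)) P

variable [Fintype σ]

/-- The directional derivative. -/
noncomputable def D (r : σ → ℂ) (P : MvPolynomial σ ℂ) : MvPolynomial σ ℂ :=
  ∑ i, C (r i) * pderiv i P

/-- The remainder. -/
noncomputable def R (r : σ → ℂ) (P : MvPolynomial σ ℂ) : MvPolynomial σ ℂ :=
  S r P - P - D r P

omit [Fintype σ] in
lemma S_add (r : σ → ℂ) (P Q : MvPolynomial σ ℂ) : S r (P + Q) = S r P + S r Q := by
  unfold S
  rw [map_add]

omit [Fintype σ] in
lemma S_mulX (r : σ → ℂ) (P : MvPolynomial σ ℂ) (i : σ) :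
    S r (P * X i) = S r P * (X i + C (r i)) := by
  unfold S
  rw [map_mul, aeval_X]

omit [Fintype σ] in
lemma eval_S (r x : σ → ℂ) (P : MvPolynomial σ ℂ) : eval x (S r P) = eval (x + r) P := by
  induction P using MvPolynomial.induction_on with
  | C a =>
    unfold S
    rw [aeval_C, algebraMap_eq, eval_C, eval_C]
  | add p q hp hq =>
    rw [S_add, map_add, hp, hq, map_add]
  | mul_X p i hp =>
    rw [S_mulX, map_mul, hp, map_mul, map_add, eval_X, eval_C, eval_X, Pi.add_apply]

lemma D_add (r : σ → ℂ) (P Q : MvPolynomial σ ℂ) : D r (P + Q) = D r P + D r Q := by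
  unfold D
  rw [← Finset.sum_add_distrib]
  apply Finset.sum_congr rfl
  intro i _
  rw [map_add, mul_add]

lemma D_mulX (r : σ → ℂ) (P : MvPolynomial σ ℂ) (i : σ) :
    D r (P * X i) = D r P * X i + C (r i) * P := by
  classical
  unfold D
  have h1 : ∀ j, C (r j) * pderiv j (P * X i) =
      C (r j) * pderiv j P * X i + (if j = i then C (r j) * P else 0) := by
    intro j
    rw [pderiv_mul]
    by_cases h : j = i
    · subst h
      rw [pderiv_X_self, if_pos rfl]
      ring
    · rw [pderiv_X_of_ne (fun h' => h h'.symm), if_neg h]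
      ring
  rw [Finset.sum_congr rfl (fun j _ => h1 j), Finset.sum_add_distrib, ← Finset.sum_mul]
  congr 1
  rw [Finset.sum_ite_eq' Finset.univ i (fun j => C (r j) * P)]
  simp

lemma R_add (r : σ → ℂ) (P Q : MvPolynomial σ ℂ) : R r (P + Q) = R r P + R r Q := by
  unfold R
  rw [S_add, D_add]
  ring

lemma R_mulX (r : σ → ℂ) (P : MvPolynomial σ ℂ) (i : σ) :
    R r (P * X i) = R r P * X i + C (r i) * (R r P + D r P) := by
  unfold R
  rw [S_mulX, D_mulX]
  ring

/-- The two degree bounds. -/
def Good (r : σ → ℂ) (k : ℕ) (P : MvPolynomial σ ℂ) : Prop := W 1 k (D r P) ∧ W 2 k (R r P)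

lemma Good_add {r : σ → ℂ} {k : ℕ} {P Q : MvPolynomial σ ℂ} (hP : Good r k P) (hQ : Good r k Q) :
    Good r k (P + Q) := by
  refine ⟨?_, ?_⟩
  · rw [D_add]
    exact W_add hP.1 hQ.1
  · rw [R_add]
    exact W_add hP.2 hQ.2

lemma D_C (r : σ → ℂ) (c : ℂ) : D r (C c) = 0 := by
  unfold D
  apply Finset.sum_eq_zero
  intro i _
  rw [pderiv_C, mul_zero]

lemma R_C (r : σ → ℂ) (c : ℂ) : R r (C c) = 0 := by
  unfold R
  rw [D_C]
  unfold S
  rw [aeval_C]
  simp

lemma Good_C (r : σ → ℂ) (k : ℕ) (c : ℂ) : Good r k (C c) := by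
  refine ⟨?_, ?_⟩
  · rw [D_C]
    exact W_zero _ _
  · rw [R_C]
    exact W_zero _ _

omit [Fintype σ] in
lemma W_monomial (s : σ →₀ ℕ) (c : ℂ) : W 0 s.degree (monomial s c) := by
  classical
  intro t ht
  rw [coeff_monomial] at ht
  split_ifs at ht with h
  · rw [h]
    omega
  · exact absurd rfl ht

lemma Good_mono {r : σ → ℂ} {k k' : ℕ} {P : MvPolynomial σ ℂ} (h : k ≤ k') (hP : Good r k P) :
    Good r k' P :=
  ⟨W_mono (by omega) hP.1, W_mono (by omega) hP.2⟩

lemma Good_monomial (r : σ → ℂ) : ∀ (n : ℕ) (s : σ →₀ ℕ) (c : ℂ), s.degree = n →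
    Good r n (monomial s c) := by
  intro n
  induction n with
  | zero =>
    intro s c hs
    rw [Finsupp.degree_eq_zero_iff] at hs
    subst hs
    exact Good_C r 0 c
  | succ n ih =>
    intro s c hs
    have hne : s ≠ 0 := by
      intro h
      rw [h, map_zero] at hs
      omega
    obtain ⟨i, hi⟩ := Finsupp.ne_iff.1 hne
    have hi' : 1 ≤ s i := by
      have : s i ≠ 0 := hi
      omega
    have h2 : s - Finsupp.single i 1 + Finsupp.single i 1 = s := by
      apply tsub_add_cancel_of_le
      rw [Finsupp.single_le_iff]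
      exact hi'
    have h3 : s.degree = (s - Finsupp.single i 1).degree + 1 := by
      conv_lhs => rw [← h2]
      rw [map_add, Finsupp.degree_single]
    have h4 : (s - Finsupp.single i 1).degree = n := by omega
    have h5 : monomial s c = monomial (s - Finsupp.single i 1) c * X i := by
      conv_lhs => rw [← h2]
      rw [monomial_add_single, pow_one]
    have hG := ih (s - Finsupp.single i 1) c h4
    have hW := W_monomial (s - Finsupp.single i 1) c
    rw [h4] at hW
    rw [h5]
    refine ⟨?_, ?_⟩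
    · rw [D_mulX]
      exact W_add (W_mulX i hG.1) (W_smul _ (W_mono (by omega) hW))
    · rw [R_mulX]
      exact W_add (W_mulX i hG.2) (W_smul _ (W_add (W_mono (by omega) hG.2)
        (W_mono (by omega) hG.1)))

lemma Good_of_totalDegree (r : σ → ℂ) (k : ℕ) (P : MvPolynomial σ ℂ) (hP : P.totalDegree ≤ k) :
    Good r k P := by
  have h0 : P = ∑ s ∈ P.support, monomial s (coeff s P) := as_sum P
  rw [h0]
  apply Finset.sum_induction _ (Good r k)
  · intro a b ha hb
    exact Good_add ha hb
  · have := Good_C r k 0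
    rwa [C_0] at this
  · intro s hs
    apply Good_mono _ (Good_monomial r s.degree s (coeff s P) rfl)
    exact le_trans (le_totalDegree hs) hP

lemma hc_D (r : σ → ℂ) (d : ℕ) (P : MvPolynomial σ ℂ) :
    homogeneousComponent d (D r P) = D r (homogeneousComponent (d + 1) P) := by
  classical
  unfold D
  rw [map_sum]
  apply Finset.sum_congr rfl
  intro i _
  rw [homogeneousComponent_C_mul]
  congr 1
  ext s
  rw [coeff_homogeneousComponent, coeff_pderiv, coeff_pderiv, coeff_homogeneousComponent]
  have h3 : (s + Finsupp.single i 1).degree = s.degree + 1 := by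
    rw [map_add, Finsupp.degree_single]
  rw [h3]
  by_cases h : s.degree = d
  · rw [if_pos h, if_pos (by omega)]
  · rw [if_neg h, if_neg (by omega), zero_mul]

end JLE_SH

theorem le_SH : StSH := by
  classical
  intro σ _ P d r hP
  have hG := JLE_SH.Good_of_totalDegree r (d + 1) P hP
  have hPR : JLE_SH.S r P - P = JLE_SH.R r P + JLE_SH.D r P := by
    unfold JLE_SH.R
    ring
  refine ⟨JLE_SH.S r P - P, ?_, ?_, ?_⟩
  · intro x
    rw [map_sub]
    rw [JLE_SH.eval_S]
  · rw [hPR]
    have hW : JLE_SH.W 1 (d + 1) (JLE_SH.R r P + JLE_SH.D r P) := JLE_SH.W_add (JLE_SH.W_mono (by omega) hG.2) hG.1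
    rw [totalDegree]
    apply Finset.sup_le
    intro s hs
    have := hW s (mem_support_iff.1 hs)
    have h2 : s.degree = s.sum fun _ e => e := rfl
    omega
  · intro u
    rw [hPR, map_add]
    have h1 : homogeneousComponent d (JLE_SH.R r P) = 0 := by
      ext s
      rw [coeff_homogeneousComponent, coeff_zero]
      split_ifs with h
      · by_contra h2
        have := hG.2 s h2
        omega
      · rfl
    rw [h1, zero_add, JLE_SH.hc_D]
    unfold JLE_SH.D
    rw [map_sum]
    apply Finset.sum_congr rfl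
    intro i _
    rw [map_mul, eval_C]

end Pool.Agent.Work.MP_327059_nt.LD
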