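import Pool.Agent.Work.MP_327059_nt.LD.FG
import Pool.Agent.Work.MP_327059_nt.LD.TL
import Pool.Agent.Work.MP_327059_nt.LD.I_TH
import Pool.Agent.Work.MP_327059_nt.LD.J_CJ
import Pool.Agent.Work.MP_327059_nt.LD.J_SH
import Pool.Agent.Work.MP_327059_nt.LD.J_EU
import Pool.Agent.Work.MP_327059_nt.LD.J_EG
import Pool.Agent.Work.MP_327059_nt.LD.J_PZ
import Pool.Agent.Work.MP_327059_nt.LD.J_MG
import Pool.Agent.Work.MP_327059_nt.LD.J_DT
import Pool.Agent.Work.MP_327059_nt.LD.J_LQ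
import Pool.Agent.Work.MP_327059_nt.LD.J_DZ
import Pool.Agent.Work.MP_327059_nt.LD.J_GD
import Pool.Agent.Work.MP_327059_nt.LD.J_NV

/-!
# MP_327059_nt, block LE: the closed theorem
-/

set_option autoImplicit false

namespace Pool.Agent.Work.MP_327059_nt.LD

open Filter Topology

theorem cFG : StFG :=
  le_FG ld_TH (le_PZ le_CJ le_SH le_EU) le_EG le_DT le_DZ (le_GD le_MG) (le_NV le_LQ)

theorem almostAllG : ∀ (m : ℕ) (b : Fin m → ℂ), (∀ j, IsAlgebraic ℚ (b j)) →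
    LinearIndependent ℚ (Fin.cons 1 b : Fin (m + 1) → ℂ) →
    Tendsto (fun N : ℕ => (∑ n ∈ Finset.Icc 1 N, {n : ℕ | ¬ AlgebraicIndependent ℚ
      (Fin.cons ((Real.log n : ℝ) : ℂ) (fun j => Complex.exp (b j * ((Real.log n : ℝ) : ℂ))) :
        Fin (m + 1) → ℂ)}.indicator (fun n => (1 : ℝ) / n) n) / Real.log N) atTop (𝓝 0) :=
  fun m b h1 h2 => tendsto_of_LNull _ (cFG m b h1 h2)

end Pool.Agent.Work.MP_327059_nt.LD
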