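import Pool.Agent.Work.MP_327059_nt.LD.Stmts

/-!
# MP_327059_nt, block LE (captain helper12): one exceptional set, statements with complete proofs
-/

set_option autoImplicit false

namespace Pool.Agent.Work.MP_327059_nt.LD

/-- [PI] (EASY-MEDIUM) The ideal of the sets of logarithmic density `0` is a P-ideal. PROOF (`ld_WS` (b) if needed). Put
`B i = A 0 ∪ ⋯ ∪ A i` (`⋃ j ≤ i`), `LNull` as a finite union (`ind (A ∪ A') ≤ ind A + ind A'`). By `LNull` with `ε = 1 / (2 (i + 1))`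
there is `N₀` such that `ws (ind (B i)) N ≤ (1 / (i + 1)) * log N` for all `N ≥ N₀` (`log N → ∞`); so there is a strictly increasing
sequence `K 0 < K 1 < ⋯` with `ws (ind (B i)) N ≤ (1 / (i + 1)) * log N` for all `N ≥ K i`. Let
`E = {n | ∃ i, K i ≤ n ∧ n ∈ A i}`. `A i \ E ⊆ {n | n < K i}` is finite. `LNull E`: let `ε > 0`, `i₀` with `1 / (i₀ + 1) ≤ ε`. For
`N ≥ K i₀` let `i ≥ i₀` be the greatest index with `K i ≤ N`; if `n ≤ N` is in `E`, `n ∈ A j` with `K j ≤ n ≤ N`, then `j ≤ i`, so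
`n ∈ B i`: `ws (ind E) N ≤ ws (ind (B i)) N ≤ (1 / (i + 1)) log N ≤ ε log N`. For `N < K i₀`: `ws (ind E) N` is at most
`C = ∑_(n ≤ K i₀) 1`, and `log N ≥ 0`. -/
def StPI : Prop := ∀ A : ℕ → Set ℕ, (∀ i, LNull (A i)) →
  ∃ E : Set ℕ, LNull E ∧ ∀ i, (A i \ E).Finite

end Pool.Agent.Work.MP_327059_nt.LD
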