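import Pool.Agent.Work.MP_327059_nt.LD.FinalG
import Pool.Agent.Work.MP_327059_nt.LD.StmtsQ

/-!
# MP_327059_nt, block LE: one exceptional set for all exponents
-/

set_option autoImplicit false

namespace Pool.Agent.Work.MP_327059_nt.LD

open Filter Topology

open Classical in
theorem oneSet_of (hPI : StPI) : ∃ E : Set ℕ,
    Tendsto (fun N : ℕ => (∑ n ∈ Finset.Icc 1 N, E.indicator (fun n => (1 : ℝ) / n) n) /
      Real.log N) atTop (𝓝 0) ∧
    ∀ (m : ℕ) (b : Fin m → ℂ), (∀ j, IsAlgebraic ℚ (b j)) →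
      LinearIndependent ℚ (Fin.cons 1 b : Fin (m + 1) → ℂ) →
      {n : ℕ | 1 ≤ n ∧ n ∉ E ∧ ¬ AlgebraicIndependent ℚ
        (Fin.cons ((Real.log n : ℝ) : ℂ) (fun j => Complex.exp (b j * ((Real.log n : ℝ) : ℂ))) :
          Fin (m + 1) → ℂ)}.Finite := by
  have hc1 : Countable {z : ℂ // IsAlgebraic ℚ z} := (Algebraic.countable ℚ ℂ).to_subtype
  have hne : Nonempty (Σ m : ℕ, (Fin m → {z : ℂ // IsAlgebraic ℚ z})) := ⟨⟨0, fun j => j.elim0⟩⟩
  obtain ⟨en, hen⟩ := exists_surjective_nat (Σ m : ℕ, (Fin m → {z : ℂ // IsAlgebraic ℚ z}))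
  obtain ⟨A, hA⟩ : ∃ A : ℕ → Set ℕ, A = fun i =>
      {n : ℕ | (LinearIndependent ℚ
        (Fin.cons 1 (fun j => ((en i).2 j : ℂ)) : Fin ((en i).1 + 1) → ℂ)) ∧
        (1 ≤ n ∧ ¬ AlgebraicIndependent ℚ (ys (fun j => ((en i).2 j : ℂ)) (lg n)))} := ⟨_, rfl⟩
  have hnull : ∀ i, LNull (A i) := by
    intro i
    rw [hA]
    by_cases h : LinearIndependent ℚ
        (Fin.cons 1 (fun j => ((en i).2 j : ℂ)) : Fin ((en i).1 + 1) → ℂ)
    · refine ILD_FN.LNull_mono ?_ (cFG (en i).1 (fun j => ((en i).2 j : ℂ))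
        (fun j => ((en i).2 j).2) h)
      rintro n ⟨_, hn⟩
      exact hn
    · refine ILD_FN.LNull_mono (B := ∅) ?_ ?_
      · rintro n ⟨hn, _⟩
        exact absurd hn h
      · intro ε hε
        refine ⟨0, fun N => ?_⟩
        unfold ws ind
        have h0 : ∀ n ∈ Finset.Icc 1 N, (Set.indicator (∅ : Set ℕ) (fun _ => (1 : ℝ)) n) / n = 0 := by
          intro n _
          rw [Set.indicator_empty, zero_div]
        rw [Finset.sum_eq_zero h0, add_zero]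
        exact mul_nonneg hε.le (Real.log_natCast_nonneg N)
  obtain ⟨E, hE1, hE2⟩ := hPI A hnull
  refine ⟨E, ?_, ?_⟩
  · exact tendsto_of_LNull E (ILD_FN.LNull_mono (fun n hn => hn.2) hE1)
  · intro m b hb hlin
    obtain ⟨i, hi⟩ := hen ⟨m, fun j => ⟨b j, hb j⟩⟩
    refine (hE2 i).subset ?_
    rintro n ⟨hn1, hn2, hn3⟩
    refine ⟨?_, hn2⟩
    rw [hA]
    show (LinearIndependent ℚ
        (Fin.cons 1 (fun j => ((en i).2 j : ℂ)) : Fin ((en i).1 + 1) → ℂ)) ∧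
        (1 ≤ n ∧ ¬ AlgebraicIndependent ℚ (ys (fun j => ((en i).2 j : ℂ)) (lg n)))
    rw [hi]
    exact ⟨hlin, hn1, hn3⟩

end Pool.Agent.Work.MP_327059_nt.LD
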