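import Pool.Agent.Work.MP_327059_nt.LD.StmtsQ

/-!
# MP_327059_nt, block LE, item PI: the sets of logarithmic density zero form a P-ideal
-/

set_option autoImplicit false

namespace Pool.Agent.Work.MP_327059_nt.LD

namespace JLE_PI

theorem ind_nonneg (A : Set ℕ) (n : ℕ) : 0 ≤ ind A n := by
  unfold ind
  exact Set.indicator_nonneg (fun _ _ => zero_le_one) n

theorem ind_le (A A' : Set ℕ) (n : ℕ) (h : n ∈ A → n ∈ A') : ind A n ≤ ind A' n := by
  unfold ind
  by_cases hA : n ∈ A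
  · rw [Set.indicator_of_mem hA, Set.indicator_of_mem (h hA)]
  · rw [Set.indicator_of_notMem hA]
    exact Set.indicator_nonneg (fun _ _ => zero_le_one) n

theorem ws_le (A A' : Set ℕ) (N : ℕ) (h : ∀ n, n ≤ N → n ∈ A → n ∈ A') :
    ws (ind A) N ≤ ws (ind A') N := by
  unfold ws
  refine Finset.sum_le_sum fun n hn => ?_
  rw [Finset.mem_Icc] at hn
  exact div_le_div_of_nonneg_right (ind_le A A' n (h n hn.2)) (Nat.cast_nonneg n)

theorem ws_union (A A' : Set ℕ) (N : ℕ) :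
    ws (ind (A ∪ A')) N ≤ ws (ind A) N + ws (ind A') N := by
  unfold ws
  rw [← Finset.sum_add_distrib]
  refine Finset.sum_le_sum fun n _ => ?_
  rw [← add_div]
  refine div_le_div_of_nonneg_right ?_ (Nat.cast_nonneg n)
  by_cases hA : n ∈ A
  · have h1 := ind_le (A ∪ A') A n (fun _ => hA)
    have h2 := ind_nonneg A' n
    linarith
  · have h1 := ind_le (A ∪ A') A' n (fun h => h.resolve_left hA)
    have h2 := ind_nonneg A n
    linarith

theorem ws_mono (A : Set ℕ) (N N' : ℕ) (h : N ≤ N') : ws (ind A) N ≤ ws (ind A) N' := by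
  unfold ws
  refine Finset.sum_le_sum_of_subset_of_nonneg (Finset.Icc_subset_Icc_right h) fun i _ _ => ?_
  exact div_nonneg (ind_nonneg A i) (Nat.cast_nonneg i)

theorem ws_nonneg (A : Set ℕ) (N : ℕ) : 0 ≤ ws (ind A) N := by
  unfold ws
  exact Finset.sum_nonneg fun i _ => div_nonneg (ind_nonneg A i) (Nat.cast_nonneg i)

theorem lnull_union (A A' : Set ℕ) (h : LNull A) (h' : LNull A') : LNull (A ∪ A') := by
  intro ε hε
  obtain ⟨C, hC⟩ := h (ε / 2) (by positivity)
  obtain ⟨C', hC'⟩ := h' (ε / 2) (by positivity)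
  refine ⟨C + C', fun N => ?_⟩
  have h1 := ws_union A A' N
  have h2 := hC N
  have h3 := hC' N
  linarith

/-- the union of the first sets -/
def B (A : ℕ → Set ℕ) (i : ℕ) : Set ℕ := {n | ∃ j, j ≤ i ∧ n ∈ A j}

theorem lnull_B (A : ℕ → Set ℕ) (hA : ∀ i, LNull (A i)) : ∀ i, LNull (B A i) := by
  intro i
  induction i with
  | zero =>
    have h : B A 0 = A 0 := by
      ext n
      constructor
      · rintro ⟨j, hj, hn⟩
        have : j = 0 := Nat.le_zero.1 hj
        rw [this] at hn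
        exact hn
      · intro hn
        exact ⟨0, le_rfl, hn⟩
    rw [h]
    exact hA 0
  | succ i ih =>
    have h : B A (i + 1) = B A i ∪ A (i + 1) := by
      ext n
      constructor
      · rintro ⟨j, hj, hn⟩
        rcases Nat.lt_or_ge i j with h1 | h1
        · have : j = i + 1 := by omega
          rw [this] at hn
          exact Or.inr hn
        · exact Or.inl ⟨j, h1, hn⟩
      · rintro (⟨j, hj, hn⟩ | hn)
        · exact ⟨j, by omega, hn⟩
        · exact ⟨i + 1, le_rfl, hn⟩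
    rw [h]
    exact lnull_union _ _ ih (hA (i + 1))

theorem start (A : ℕ → Set ℕ) (hA : ∀ i, LNull (A i)) (i : ℕ) :
    ∃ N₀ : ℕ, ∀ N : ℕ, N₀ ≤ N → ws (ind (B A i)) N ≤ 1 / ((i : ℝ) + 1) * Real.log N := by
  have hi : (0 : ℝ) < (i : ℝ) + 1 := by positivity
  obtain ⟨C, hC⟩ := lnull_B A hA i (1 / (2 * ((i : ℝ) + 1))) (by positivity)
  have ht : Filter.Tendsto (fun N : ℕ => Real.log (N : ℝ)) Filter.atTop Filter.atTop :=
    Real.tendsto_log_atTop.comp tendsto_natCast_atTop_atTop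
  obtain ⟨N₀, hN₀⟩ := Filter.eventually_atTop.1 (ht.eventually_ge_atTop (2 * ((i : ℝ) + 1) * C))
  refine ⟨N₀, fun N hN => ?_⟩
  have h1 := hC N
  have h2 : 2 * ((i : ℝ) + 1) * C ≤ Real.log N := hN₀ N hN
  have h3 : C ≤ 1 / (2 * ((i : ℝ) + 1)) * Real.log N := by
    rw [one_div, inv_mul_eq_div, le_div_iff₀ (by positivity)]
    linarith
  have h4 : 1 / (2 * ((i : ℝ) + 1)) * Real.log N + 1 / (2 * ((i : ℝ) + 1)) * Real.log N =
      1 / ((i : ℝ) + 1) * Real.log N := by
    field_simp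
    ring
  linarith

end JLE_PI

theorem le_PI : StPI := by
  intro A hA
  choose N₀ hN₀ using JLE_PI.start A hA
  obtain ⟨K, hK⟩ : ∃ K : ℕ → ℕ, K = fun i => i + ∑ j ∈ Finset.range (i + 1), N₀ j := ⟨_, rfl⟩
  have hKN : ∀ i, N₀ i ≤ K i := by
    intro i
    rw [hK]
    have := Finset.single_le_sum (f := N₀) (fun j _ => Nat.zero_le _)
      (Finset.mem_range.2 (Nat.lt_succ_self i))
    show N₀ i ≤ i + ∑ j ∈ Finset.range (i + 1), N₀ j
    exact this.trans (Nat.le_add_left _ _)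
  have hKi : ∀ i, i ≤ K i := by
    intro i
    rw [hK]
    exact Nat.le_add_right _ _
  refine ⟨{n | ∃ i, K i ≤ n ∧ n ∈ A i}, ?_, ?_⟩
  · intro ε hε
    obtain ⟨i₀, hi₀⟩ := exists_nat_one_div_lt hε
    refine ⟨ws (ind {n | ∃ i, K i ≤ n ∧ n ∈ A i}) (K i₀), fun N => ?_⟩
    have hlog : 0 ≤ Real.log (N : ℝ) := Real.log_natCast_nonneg N
    rcases Nat.lt_or_ge N (K i₀) with hN | hN
    · have h1 := JLE_PI.ws_mono {n | ∃ i, K i ≤ n ∧ n ∈ A i} N (K i₀) hN.le
      have h2 : 0 ≤ ε * Real.log N := mul_nonneg hε.le hlog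
      linarith
    · have hi₀N : i₀ ≤ N := (hKi i₀).trans hN
      obtain ⟨i, hi⟩ : ∃ i, i = Nat.findGreatest (fun i => K i ≤ N) N := ⟨_, rfl⟩
      have h1 : K i ≤ N := by
        rw [hi]
        exact Nat.findGreatest_spec (P := fun i => K i ≤ N) hi₀N hN
      have h2 : i₀ ≤ i := by
        rw [hi]
        exact Nat.le_findGreatest hi₀N hN
      have h3 : ∀ n, n ≤ N → n ∈ {n | ∃ i, K i ≤ n ∧ n ∈ A i} → n ∈ JLE_PI.B A i := by
        rintro n hn ⟨j, hj, hnj⟩
        refine ⟨j, ?_, hnj⟩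
        rw [hi]
        exact Nat.le_findGreatest ((hKi j).trans (hj.trans hn)) (hj.trans hn)
      have h4 := JLE_PI.ws_le _ _ N h3
      have h5 := hN₀ i N ((hKN i).trans h1)
      have h6 : (1 : ℝ) / ((i : ℝ) + 1) ≤ ε := by
        refine le_trans ?_ hi₀.le
        apply one_div_le_one_div_of_le (by positivity)
        have : (i₀ : ℝ) ≤ i := by exact_mod_cast h2
        linarith
      have h7 := mul_le_mul_of_nonneg_right h6 hlog
      have h8 := JLE_PI.ws_nonneg {n | ∃ i, K i ≤ n ∧ n ∈ A i} (K i₀)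
      linarith
  · intro i
    refine (Set.finite_lt_nat (K i)).subset ?_
    rintro n ⟨hn, hnE⟩
    show n < K i
    by_contra h
    exact hnE ⟨i, not_lt.1 h, hn⟩

end Pool.Agent.Work.MP_327059_nt.LD
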