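import Pool.Agent.Work.MP_327059_nt.LD.FinalH
import Pool.Agent.Work.MP_327059_nt.LD.J_PI

/-!
# MP_327059_nt, block LE: the closed theorem, one exceptional set
-/

set_option autoImplicit false

namespace Pool.Agent.Work.MP_327059_nt.LD

open Filter Topology

theorem oneSet : ∃ E : Set ℕ,
    Tendsto (fun N : ℕ => (∑ n ∈ Finset.Icc 1 N, E.indicator (fun n => (1 : ℝ) / n) n) /
      Real.log N) atTop (𝓝 0) ∧
    ∀ (m : ℕ) (b : Fin m → ℂ), (∀ j, IsAlgebraic ℚ (b j)) →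
      LinearIndependent ℚ (Fin.cons 1 b : Fin (m + 1) → ℂ) →
      {n : ℕ | 1 ≤ n ∧ n ∉ E ∧ ¬ AlgebraicIndependent ℚ
        (Fin.cons ((Real.log n : ℝ) : ℂ) (fun j => Complex.exp (b j * ((Real.log n : ℝ) : ℂ))) :
          Fin (m + 1) → ℂ)}.Finite :=
  oneSet_of le_PI

end Pool.Agent.Work.MP_327059_nt.LD
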