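import Pool.Agent.Work.MP_327059_nt.LD.Stmts

/-! Item [327059 LD ES]: the essential subspace. -/

set_option autoImplicit false

namespace Pool.Agent.Work.MP_327059_nt.LD

/-- Existence of an essential subspace: a minimal subspace outside of which only a thin set of
primes is sent. -/
theorem ld_ES : StES := by
  intro F
  have htop : Thin {p | p.Prime ∧ F p ∉ (⊤ : Submodule ℂ (Fin 4 → ℂ))} := by
    have h : {p : ℕ | p.Prime ∧ F p ∉ (⊤ : Submodule ℂ (Fin 4 → ℂ))} = ∅ := by
      apply Set.eq_empty_iff_forall_notMem.2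
      intro p hp
      exact hp.2 Submodule.mem_top
    rw [h]
    unfold Thin
    rw [Set.indicator_empty]
    exact summable_zero
  obtain ⟨U, hU, hmin⟩ := (wellFounded_lt (α := Submodule ℂ (Fin 4 → ℂ))).has_min
    {U | Thin {p | p.Prime ∧ F p ∉ U}} ⟨⊤, htop⟩
  exact ⟨U, hU, fun U' hU' hT => hmin U' hT hU'⟩

end Pool.Agent.Work.MP_327059_nt.LD
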