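import Pool.Agent.Work.MP_327059_nt.LD.StmtsP

/-!
# MP_327059_nt, block LE, item LQ: logarithms of primes
-/

set_option autoImplicit false

namespace Pool.Agent.Work.MP_327059_nt.LD

open MvPolynomial

namespace JLE_LQ

theorem fac (s : Finset Nat.Primes) (a : Nat.Primes → ℕ) (q : Nat.Primes) (hq : q ∈ s) :
    (∏ p ∈ s, ((p : ℕ)) ^ (a p)).factorization (q : ℕ) = a q := by
  rw [Nat.factorization_prod fun x _ => pow_ne_zero _ x.2.ne_zero, Finset.sum_apply']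
  rw [Finset.sum_eq_single q]
  · rw [q.2.factorization_pow, Finsupp.single_eq_same]
  · intro p _ hpq
    rw [p.2.factorization_pow, Finsupp.single_apply, if_neg]
    exact fun h => hpq (Subtype.ext h)
  · exact fun h => absurd hq h

theorem log_prod (s : Finset Nat.Primes) (a : Nat.Primes → ℕ) :
    Real.log ((∏ p ∈ s, ((p : ℕ)) ^ (a p) : ℕ) : ℝ) = ∑ p ∈ s, (a p : ℝ) * Real.log (p : ℕ) := by
  rw [Nat.cast_prod, Real.log_prod]
  · refine Finset.sum_congr rfl fun p _ => ?_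
    rw [Nat.cast_pow, Real.log_pow]
  · intro p _
    have : (p : ℕ) ≠ 0 := p.2.ne_zero
    exact_mod_cast pow_ne_zero _ this

theorem pos (s : Finset Nat.Primes) (a : Nat.Primes → ℕ) :
    (0 : ℝ) < ((∏ p ∈ s, ((p : ℕ)) ^ (a p) : ℕ) : ℝ) := by
  have : 0 < ∏ p ∈ s, ((p : ℕ)) ^ (a p) := Finset.prod_pos fun p _ => pow_pos p.2.pos _
  exact_mod_cast this

theorem main (s : Finset Nat.Primes) (g : Nat.Primes → ℤ)
    (h : ∑ p ∈ s, (g p : ℝ) * Real.log (p : ℕ) = 0) (q : Nat.Primes) (hq : q ∈ s) : g q = 0 := by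
  have hlog : Real.log ((∏ p ∈ s, ((p : ℕ)) ^ ((g p).toNat) : ℕ) : ℝ) =
      Real.log ((∏ p ∈ s, ((p : ℕ)) ^ ((-g p).toNat) : ℕ) : ℝ) := by
    rw [log_prod s fun p => (g p).toNat, log_prod s fun p => (-g p).toNat, ← sub_eq_zero,
      ← Finset.sum_sub_distrib, ← h]
    refine Finset.sum_congr rfl fun p _ => ?_
    have e : (g p : ℤ) = ((g p).toNat : ℤ) - ((-g p).toNat : ℤ) := by omega
    have e' : (g p : ℝ) = ((g p).toNat : ℝ) - ((-g p).toNat : ℝ) := by exact_mod_cast e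
    rw [e', sub_mul]
  have heq := Real.log_injOn_pos (Set.mem_Ioi.2 (pos s _)) (Set.mem_Ioi.2 (pos s _)) hlog
  have heq' : (∏ p ∈ s, ((p : ℕ)) ^ ((g p).toNat)) = ∏ p ∈ s, ((p : ℕ)) ^ ((-g p).toNat) := by
    exact_mod_cast heq
  have hf := congrArg (fun n : ℕ => n.factorization (q : ℕ)) heq'
  rw [fac s (fun p => (g p).toNat) q hq, fac s (fun p => (-g p).toNat) q hq] at hf
  omega

end JLE_LQ

theorem le_LQ : StLQ := by
  show LinearIndependent ℚ (fun p : Nat.Primes => ((Real.log (p : ℕ) : ℝ) : ℂ))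
  rw [← LinearIndependent.iff_fractionRing ℤ ℚ, linearIndependent_iff']
  intro s g hg q hq
  have h1 : ∑ p ∈ s, ((g p : ℤ) : ℂ) * ((Real.log (p : ℕ) : ℝ) : ℂ) = 0 := by
    rw [← hg]
    exact Finset.sum_congr rfl fun p _ => (zsmul_eq_mul _ _).symm
  have h2 : ∑ p ∈ s, (g p : ℝ) * Real.log (p : ℕ) = 0 := by
    exact_mod_cast h1
  exact JLE_LQ.main s g h2 q hq

end Pool.Agent.Work.MP_327059_nt.LD
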