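import Mathlib

/-!
# MP_327059_nt, block LD (captain helper12): logarithmic density, statements with complete proofs

Elementary number theory and linear algebra of the block. Item `XX`: file `LD/I_XX.lean`, theorem `ld_XX`.
-/

set_option autoImplicit false

namespace Pool.Agent.Work.MP_327059_nt.LD

/-- The sum of `f n / n` over `1 ≤ n ≤ N`. -/
noncomputable def ws (f : ℕ → ℝ) (N : ℕ) : ℝ := ∑ n ∈ Finset.Icc 1 N, f n / n

/-- The indicator function of a set of naturals. -/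
noncomputable def ind (A : Set ℕ) : ℕ → ℝ := A.indicator fun _ => 1

/-- The set `A` has logarithmic density `0`. -/
def LNull (A : Set ℕ) : Prop :=
  ∀ ε : ℝ, 0 < ε → ∃ C : ℝ, ∀ N : ℕ, ws (ind A) N ≤ ε * Real.log N + C

/-- The sum of `1 / p`, `p ∈ P`, converges. -/
def Thin (P : Set ℕ) : Prop := Summable (P.indicator fun p => (1 : ℝ) / p)

/-- The number of elements of `P` which divide `n`. -/
noncomputable def om (P : Finset ℕ) (n : ℕ) : ℝ := ∑ p ∈ P, if p ∣ n then 1 else 0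

/-- The sum of `1 / p`, `p ∈ P`. -/
noncomputable def rs (P : Finset ℕ) : ℝ := ∑ p ∈ P, (1 : ℝ) / p

/-- [WS] (EASY) Weighted sums. PROOF. (a) `n = m n'` (`Finset.sum_bij` or `sum_nbij'`; `m n' ≤ N ↔ n' ≤ N / m`). (b) clear.
(c) `ws 1 = harmonic`: `harmonic_le_one_add_log`. (d) Put `k = N / m`. `ws f N - ws f k` is at most the sum of `1 / n` over
`k < n ≤ N`, that is `H(N) - H(k) ≤ 1 + log N - log (k + 1)` (`log_add_one_le_harmonic`) and `k + 1 > N / m` (real quotient);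
`N = 0` separately. -/
def StWS : Prop :=
  (∀ (f : ℕ → ℝ) (m N : ℕ), 0 < m →
    ws (fun n => if m ∣ n then f n else 0) N = (1 / (m : ℝ)) * ws (fun n => f (m * n)) (N / m)) ∧
  (∀ (f : ℕ → ℝ) (N N' : ℕ), (∀ n, 0 ≤ f n) → N ≤ N' → ws f N ≤ ws f N') ∧
  (∀ N : ℕ, ws (fun _ => 1) N ≤ Real.log N + 1) ∧
  ∀ (f : ℕ → ℝ) (m N : ℕ), (∀ n, 0 ≤ f n ∧ f n ≤ 1) → 0 < m →
    ws f N ≤ ws f (N / m) + Real.log m + 1

/-- [TH] (EASY) Thin sets. PROOF. (a) `Summable.of_nonneg_of_le`. (b) the indicator of the union is at most the sum.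
(c) `Nat.Primes.not_summable_one_div` / `not_summable_one_div_on_primes`. (d) a finite set is thin
(`summable_of_finite_support` / `summable_of_ne_finset_zero`). (e) otherwise all primes would be thin by (b).
(f) from (d) and (e). -/
def StTH : Prop :=
  (∀ P Q : Set ℕ, P ⊆ Q → Thin Q → Thin P) ∧ (∀ P Q : Set ℕ, Thin P → Thin Q → Thin (P ∪ Q)) ∧
  ¬ Thin {p | p.Prime} ∧ (∀ P : Set ℕ, P.Finite → Thin P) ∧
  (∀ P : Set ℕ, Thin P → ¬ Thin {p | p.Prime ∧ p ∉ P}) ∧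
  ∀ P : Set ℕ, Thin P → {p | p.Prime ∧ p ∉ P}.Infinite

/-- [SP] (EASY-MEDIUM) Splitting. PROOF. The partial sums of the indicator tend to infinity
(`not_summable_iff_tendsto_nat_atTop_of_nonneg`), so for every `N` there is `N' > N` such that the sum of `1 / p` over
`P ∩ [N, N')` is at least `E` (a finite part does not matter); define `N_0 = 0`, `N_(j+1) = N_j'` and `G j = P ∩ [N_j, N_(j+1))`. -/
def StSP : Prop := ∀ (P : Set ℕ), ¬ Thin P → ∀ E : ℝ, ∃ G : ℕ → Finset ℕ,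
  (∀ j, (G j : Set ℕ) ⊆ P) ∧ (∀ i j, i ≠ j → Disjoint (G i) (G j)) ∧ ∀ j, E ≤ rs (G j)

/-- [DJ] (MEDIUM) Almost disjoint multiples. PROOF. Let `ε > 0` and `F ⊆ M` finite with `R = rs F ≥ 2 / ε` (the sum over `M`
diverges). For `m ∈ F` the function `n ↦ if m ∣ n then ind A (n / m) else 0` is the indicator of `m A`, and by StWS (a) its weighted
sum is `(1 / m) ws (ind A) (N / m)`, which is at least `(1 / m) (ws (ind A) N - log m - 1)` by StWS (d). With `k(n)` = the number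
of `m ∈ F` with `n ∈ m A`: `k ≤ 1 + k (k - 1)`, and `k (k - 1)` = the number of pairs `m ≠ m'` in `F` with `n ∈ m A ∩ m' A`. For such a
pair the weighted sum of the indicator of `m A ∩ m' A` is by StWS (a) `(1 / m) ws (ind B) (N / m) ≤ ws (ind B) N`,
`B = {a ∈ A | ∃ a' ∈ A, m * a = m' * a'}`, which is `LNull`: at most `ε' log N + C`, `ε' = 1 / (|F|^2 + 1)`. Altogether
`R ws (ind A) N ≤ log N + 1 + |F|^2 ε' log N + C' ≤ 2 log N + C''`; divide by `R ≥ 2 / ε`. -/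
def StDJ : Prop := ∀ (A M : Set ℕ), 0 ∉ M → ¬ Thin M →
  (∀ m ∈ M, ∀ m' ∈ M, m ≠ m' → LNull {a | a ∈ A ∧ ∃ a' ∈ A, m * a = m' * a'}) → LNull A

/-- [VR] (MEDIUM) Variance. PROOF (StWS). `ws (om P ^ 2) N = ∑_(p, p' ∈ P) ws [p ∣ n, p' ∣ n] N`; for `p ≠ p'` primes this is
`[p p' ∣ n]`, at most `(1 / (p p')) (log N + 1)` (StWS (a), (b), (c); `N / (p p') ≤ N`), for `p = p'` at most `(1 / p) (log N + 1)`; so
`ws (om P ^ 2) N ≤ (E^2 + E) (log N + 1)`, `E = rs P`. `ws (om P) N = ∑ (1 / p) ws 1 (N / p) ≥ ∑ (1 / p) (ws 1 N - log p - 1) ≥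
E log N - C` (StWS (a), (d), and `log N ≤ ws 1 N`: `log_add_one_le_harmonic`; `N = 0` is trivial). So
`ws ((om P - E)^2) N ≤ (E^2 + E) (log N + 1) - 2 E (E log N - C) + E^2 (log N + 1) ≤ E log N + C'`. -/
def StVR : Prop := ∀ P : Finset ℕ, (∀ p ∈ P, p.Prime) →
  ∃ C : ℝ, ∀ N : ℕ, ws (fun n => (om P n - rs P) ^ 2) N ≤ rs P * Real.log N + C

/-- [CH] (MEDIUM) Chain inequality. PROOF (StWS). For `f ≥ 0` and a finite set `P` of primes with `E = rs P > 0`:
(1) `ws (f * om P / E) N = ∑_(p ∈ P) (1 / (p E)) ws (n ↦ f (p n)) (N / p) ≤ ws (K f) N`, `K f n = ∑_(p ∈ P) (1 / (p E)) f (p n)`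
(StWS (a), (b)). Let `A` be the indicator of `{λ = c}`, `K_j` the operator of `G j`, and for `s ≤ T` let `h_T = A`,
`h_s = A + K_s h_(s+1)` (`s < T`; `K_s` belongs to `G s`). By downward induction `0 ≤ h_s ≤ 1` and `h_s n = 0` if `λ n > c` (`n ≥ 1`): if
`λ n > c`, then `λ (p n) > c`; if `λ n = c`, then `A n = 1` and `h_(s+1) (p n) = 0`; if `λ n < c`, then `A n = 0` and `K_s h` is an
average (`∑ 1 / (p E) = 1`) of numbers at most `1`. (2) For all `s ≤ T`: `ws (A * ∑_(s ≤ t ≤ T) ∏_(s ≤ j < t) om_j / E_j * Q) N ≤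
ws (h_s * Q) N` for every product `Q` of some `om_j / E_j`, `j < s`: downward induction on `s`; the sum is
`A Q + (om_s / E_s) (A * ∑_(s+1 ≤ t) ∏_(s+1 ≤ j < t) .. ) Q`; the induction hypothesis (with `Q * om_s / E_s` instead of `Q`) bounds the
second part by `ws (h_(s+1) Q om_s / E_s) ≤ ws (K_s (h_(s+1) Q)) = ws ((K_s h_(s+1)) Q)` by (1), because `om_j (p n) = om_j n` for
`p ∈ G s`, `j ≠ s` (disjoint sets of primes). For `s = 0`, `Q = 1`: the sum is at most `ws h_0 N ≤ ws 1 N`. (Any other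
organisation is welcome, for instance: sum over the tuples `(p_0, .., p_(T-1))` with the weights `∏ 1 / (p_j E_j)`, and at most one of the
numbers `n, p_0 n, p_0 p_1 n, ..` has `λ = c`.) -/
def StCH : Prop := ∀ (lam : ℕ → ℝ) (G : ℕ → Finset ℕ) (T N : ℕ) (c : ℝ),
  (∀ m n : ℕ, 0 < m → 0 < n → lam (m * n) = lam m + lam n) →
  (∀ j, ∀ p ∈ G j, p.Prime ∧ 0 < lam p) → (∀ i j, i ≠ j → Disjoint (G i) (G j)) →
  (∀ j, 0 < rs (G j)) →
  ws (fun n => ind {n | lam n = c} n *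
    ∑ t ∈ Finset.range (T + 1), ∏ j ∈ Finset.range t, (om (G j) n / rs (G j))) N ≤
    ws (fun _ => 1) N

/-- [NR] (MEDIUM) Level sets of a real additive function (Erdos). PROOF (StWS, StSP, StVR, StCH). Let `ε > 0`, `T ≥ 1` with `T ≥ 4 / ε`,
`E = 8 T^3 / ε + 1` (enough: `4 T^3 / E ≤ ε / 2`) and `G` from StSP. Call `n` good if `|om (G j) n / rs (G j) - 1| ≤ 1 / (2 T)` for all `j < T`.
For good `n` and `t ≤ T`: `∏_(j < t) ≥ (1 - 1 / (2 T))^T ≥ 1 / 2` (Bernoulli: `one_add_mul_le_pow`), so the inner sum of StCH is at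
least `(T + 1) / 2`. For `n` not good: `1 ≤ ∑_(j < T) 4 T^2 (om_j - E_j)^2 / E_j^2`. So
`ind A ≤ (2 / (T + 1)) * (the function of StCH) + ∑_(j < T) (4 T^2 / E_j^2) (om_j - E_j)^2`, and by StCH, StWS (c), StVR:
`ws (ind A) N ≤ (2 / (T + 1)) (log N + 1) + ∑_(j < T) (4 T^2 / E_j^2) (E_j log N + C_j) ≤ (ε / 2 + 4 T^3 / E) log N + C`. -/
def StNR : Prop := ∀ lam : ℕ → ℝ, (∀ m n : ℕ, 0 < m → 0 < n → lam (m * n) = lam m + lam n) →
  ¬ Thin {p | p.Prime ∧ 0 < lam p} → ∀ c : ℝ, LNull {n | lam n = c}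

/-- [NC] (EASY-MEDIUM) Level sets of a complex additive function. PROOF (StTH, StNR). `ℂ` and `ℝ` are isomorphic vector spaces over `ℚ`
(`Complex.rank_rat_complex`, `Real.rank_rat_real`, `LinearEquiv.nonempty_equiv_iff_rank_eq` or
`nonempty_linearEquiv_of_rank_eq`): let `e : ℂ ≃ₗ[ℚ] ℝ`, `lam = e ∘ L`. By StTH (b) `{p | lam p > 0}` or `{p | lam p < 0}` is not thin;
apply StNR to `lam` or `- lam`. -/
def StNC : Prop := ∀ L : ℕ → ℂ, (∀ m n : ℕ, 0 < m → 0 < n → L (m * n) = L m + L n) →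
  ¬ Thin {p | p.Prime ∧ L p ≠ 0} → ∀ c : ℂ, LNull {n | L n = c}

/-- [ES] (EASY) Essential subspace. PROOF (StTH). The set of the subspaces `U` for which `{p prime | F p ∉ U}` is thin contains `⊤`;
choose one of least `finrank` (or use that `<` on submodules is well founded). -/
def StES : Prop := ∀ F : ℕ → (Fin 4 → ℂ), ∃ U : Submodule ℂ (Fin 4 → ℂ),
  Thin {p | p.Prime ∧ F p ∉ U} ∧ ∀ U' : Submodule ℂ (Fin 4 → ℂ), U' < U →
    ¬ Thin {p | p.Prime ∧ F p ∉ U'}

/-- [GV] (MEDIUM) A generic functional. PROOF. Let `b` be a basis of `M` (`Module.Free.chooseBasis` / `Basis.ofVectorSpace`), `J` the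
union of the supports of the `b.repr (w i)`, countable; `k : J → ℕ` injective. For `t ∈ ℂ` let `φ_t` be the functional with `φ_t (b j) =
t ^ (k j)` for `j ∈ J` and `0` otherwise (`b.constr`). Then `φ_t (w i)` is the value at `t` of the polynomial
`∑_(j ∈ support) (b.repr (w i) j) X ^ (k j)`, which is not zero (`k` is injective, `w i ≠ 0`), so it has finitely many roots; all roots
together are a countable set, and `ℂ` is not countable. -/
def StGV : Prop := ∀ (M : Type) [AddCommGroup M] [Module ℂ M] (w : ℕ → M), (∀ i, w i ≠ 0) →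
  ∃ φ : M →ₗ[ℂ] ℂ, ∀ i, φ (w i) ≠ 0

/-- [LP] (EASY) PROOF. A rational relation becomes an integral one, `a log p + b log q + c log r = 0`, that is
`p^a q^b r^c = 1` with integers (`Real.log` of the product, `Real.log_injOn_pos`); move the negative exponents to the other side and use
unique factorisation (for instance `padicValRat`/`padicValNat` for `p`, `q`, `r`). -/
def StLP : Prop := ∀ p q r : ℕ, p.Prime → q.Prime → r.Prime → p ≠ q → p ≠ r → q ≠ r →
  LinearIndependent ℚ ![((Real.log p : ℝ) : ℂ), ((Real.log q : ℝ) : ℂ), ((Real.log r : ℝ) : ℂ)]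

end Pool.Agent.Work.MP_327059_nt.LD
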