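import Pool.Agent.Work.MP_327059_nt.LD.Stmts

/-!
# MP_327059_nt, block LE (captain helper12): all degrees, number theory; statements with complete proofs

`log n, n^(b_1), .., n^(b_m)` are algebraically independent for almost all `n`. Everything of block LD is proved
(`ld_WS`, `ld_TH`, `ld_SP`, `ld_VR`, `ld_GV`, `ld_NC`, ..: files `LD/I_XX.lean`) and may be imported.
Item `XX`: file `LD/J_XX.lean`, theorem `le_XX`.
-/

set_option autoImplicit false

namespace Pool.Agent.Work.MP_327059_nt.LD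

open MvPolynomial

/-- [CJ] (MEDIUM-HARD) Chains. PROOF (ld_WS, ld_SP, ld_VR; compare `I_CH.lean` and `I_NR.lean`). Let `ε > 0`, `T ≥ 4 / ε`,
`E = 8 T^3 / ε + 1`, `G` from `ld_SP Q E`, `E_j = rs (G j) ≥ E`. For `p = (p_0, .., p_(T-1))`, `p_j ∈ G j`, let `w(p) = ∏ 1 / (p_j E_j)`; the
sum of `w(p)` over all `p` is `1`. For `t ≤ T` and all `N` (expand the product of the `om`; the `p_j` are different primes, so
`p_j ∣ n` for all `j < t` means that `p_0 ⋯ p_(t-1) ∣ n`; `ld_WS` (a), (b)):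
`ws (ind A * ∏_(j < t) om (G j) / E_j) N ≤ ∑_p w(p) ws (n ↦ ind A (p_0 ⋯ p_(t-1) n)) N`.
(Recursive version: `K_j f n = ∑_(p ∈ G j) (1 / (p E_j)) f (p n)`, `ws (f * om (G j) / E_j) N ≤ ws (K_j f) N` for `f ≥ 0`, and
`om (G i) (p n) = om (G i) n` for `p ∈ G j`, `i ≠ j`, `n ≥ 1`.) For fixed `p` and `n`:
`∑_(t ≤ T) ind A (p_0 ⋯ p_(t-1) n) ≤ 1 + ∑_(t < t' ≤ T) ind B_m (a n)`, `a = p_0 ⋯ p_(t-1)`, `m = p_t ⋯ p_(t'-1)`,
`B_m = {n | n ∈ A ∧ m * n ∈ A}` (`k ≤ 1 + k (k - 1) / 2`). `B_m` is `LNull` by hypothesis, and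
`ws (n ↦ ind B_m (a n)) N ≤ a * ws (ind B_m) (a N) ≤ a (ε' log (a N) + C)` (`ld_WS` (a) with `a N` instead of `N`). There are finitely many
`p, t, t'`; choose `ε'` so small that the total is at most `log N + C'`. So
`ws (ind A * ∑_(t ≤ T) ∏_(j < t) om (G j) / E_j) N ≤ 2 log N + C''`. Conclude as in `I_NR.lean`: for good `n` the inner sum is at least
`(T + 1) / 2`, the others are counted by the variance:
`ws (ind A) N ≤ (4 / (T + 1)) log N + (4 T^3 / E) log N + C ≤ (3 ε / 2) log N + C`; replace `ε` by `ε / 2` at the start. -/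
def StCJ : Prop := ∀ (A Q : Set ℕ), (∀ p ∈ Q, p.Prime) → ¬ Thin Q →
  (∀ m : ℕ, 1 < m → (∀ p : ℕ, p.Prime → p ∣ m → p ∈ Q) → LNull {n | n ∈ A ∧ m * n ∈ A}) → LNull A

/-- [SH] (MEDIUM) Differences of a polynomial. PROOF. `P' = aeval (fun i => X i + C (r i)) P - P`. The three statements are linear in
`P` (for the last one with `d + 1` fixed and `totalDegree ≤ d + 1`), so it is enough to prove them for `P = C c * ∏ X i ^ (a i)` with
`|a| ≤ d + 1`, or: prove by `induction_on` that for all `P` of `totalDegree ≤ d + 1` the polynomial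
`P' - ∑_i C (r i) * pderiv i P` has `totalDegree ≤ d - 1` (product rule), and use that the homogeneous component of degree `d` of
`pderiv i P` is `pderiv i` of the component of degree `d + 1`. (Another way: `P = ∑_(k ≤ d+1) P_k` and for homogeneous `P_k` the Taylor
expansion.) -/
def StSH : Prop := ∀ (σ : Type) [Fintype σ] (P : MvPolynomial σ ℂ) (d : ℕ) (r : σ → ℂ),
  P.totalDegree ≤ d + 1 → ∃ P' : MvPolynomial σ ℂ, (∀ x, eval x P' = eval (x + r) P - eval x P) ∧
    P'.totalDegree ≤ d ∧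
    ∀ u, eval u (homogeneousComponent d P') =
      ∑ i, r i * eval u (pderiv i (homogeneousComponent (d + 1) P))

/-- [EU] (EASY-MEDIUM) A functional. PROOF. `R = {r ∈ U | ∀ u ∈ U, ∑_i r_i eval u (pderiv i H) = 0}` is a subspace of `U`, and the given
`u₀` is not in it by Euler's identity `∑_i u_i eval u (pderiv i H) = (d + 1) eval u H` (`IsHomogeneous.sum_X_mul_pderiv` or
similar). Take a functional which vanishes on `R` and not at `u₀` (`Submodule.exists_le_ker_of_notMem` or `exists_dual_map_eq_bot_of_notMem`). -/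
def StEU : Prop := ∀ (σ : Type) [Fintype σ] (H : MvPolynomial σ ℂ) (d : ℕ) (U : Submodule ℂ (σ → ℂ)),
  H.IsHomogeneous (d + 1) → (∃ u ∈ U, eval u H ≠ 0) →
  ∃ l : (σ → ℂ) →ₗ[ℂ] ℂ, (∃ u ∈ U, l u ≠ 0) ∧
    ∀ r ∈ U, l r ≠ 0 → ∃ u ∈ U, ∑ i, r i * eval u (pderiv i H) ≠ 0

/-- [EG] (EASY) Essential subspace, general. PROOF. As `I_ES.lean` (`ld_TH`). -/
def StEG : Prop := ∀ (σ : Type) [Fintype σ] (F : ℕ → (σ → ℂ)), ∃ U : Submodule ℂ (σ → ℂ),
  Thin {p | p.Prime ∧ F p ∉ U} ∧ ∀ U' : Submodule ℂ (σ → ℂ), U' < U →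
    ¬ Thin {p | p.Prime ∧ F p ∉ U'}

/-- [PZ] (MEDIUM) Zeros of a polynomial in an additive function. PROOF (StCJ, StSH, StEU, `ld_TH`) by induction on `d`, for all
`P`. `d = 0`: `P = C c`, `c ≠ 0`, no zeros (`LNull ∅`). `d + 1`: let `l` be the functional of StEU for
`H = homogeneousComponent (d + 1) P`. The set of the primes `p` with `F p ∈ U` and `l (F p) ≠ 0` is not thin (otherwise
`{p | F p ∉ U ⊓ ker l}` would be thin, and `U ⊓ ker l < U`). Let `e : ℂ ≃ₗ[ℚ] ℝ` (as in `I_NC.lean`), `lam = e ∘ l ∘ F`; one of the sets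
`Q = {p | p.Prime ∧ F p ∈ U ∧ 0 < lam p}`, `{p | .. lam p < 0}` is not thin; by symmetry (`- e`) the first. StCJ with this `Q` and
`A = {n | 1 ≤ n ∧ eval (F n) P = 0}`: let all prime factors of `m > 1` be in `Q`. By induction on the factorisation `r := F m ∈ U` and
`lam m > 0` (for products of at least one prime), so `l r ≠ 0`. Let `P'` be as in StSH for `r`; by StEU its component of degree `d` does not vanish
on `U`, so by induction `{n | 1 ≤ n ∧ eval (F n) P' = 0}` is `LNull`; it contains `{n | n ∈ A ∧ m * n ∈ A}` as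
`eval (F n) P' = eval (F n + r) P - eval (F n) P = eval (F (m * n)) P - 0 = 0`. -/
def StPZ : Prop := ∀ (σ : Type) [Fintype σ] (F : ℕ → (σ → ℂ)) (U : Submodule ℂ (σ → ℂ)),
  (∀ m n : ℕ, 0 < m → 0 < n → F (m * n) = F m + F n) →
  Thin {p | p.Prime ∧ F p ∉ U} →
  (∀ U' : Submodule ℂ (σ → ℂ), U' < U → ¬ Thin {p | p.Prime ∧ F p ∉ U'}) →
  ∀ (d : ℕ) (P : MvPolynomial σ ℂ), P.totalDegree ≤ d →
    (∃ u ∈ U, eval u (homogeneousComponent d P) ≠ 0) →
    LNull {n | 1 ≤ n ∧ eval (F n) P = 0}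

/-- [MG] (MEDIUM) Generic functionals. PROOF (StGV: `ld_GV`). By induction on `k ≤ m + 1`: there are `φ_0, .., φ_(k-1)` such that for
all `i` their restrictions to the span of the `w i j`, `j ∈ Fin (m + 1)`, are linearly independent; equivalently the `k × (m + 1)` matrix
`φ_a (w i j)` has independent rows. Step: for every `i` there is `0 ≠ c ∈ ℂ^(m+1)` with `∑_j c_j φ_a (w i j) = 0` for all `a < k` (fewer than
`m + 1` equations); `v_i = ∑ c_j w i j ≠ 0`; by `ld_GV` there is `φ_k` with `φ_k (v_i) ≠ 0` for all `i`; if `∑_(a ≤ k) x_a φ_a (w i j) = 0` for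
all `j`, multiply by `c_j` and sum: `x_k φ_k (v_i) = 0`, so `x_k = 0`, and the rest by induction. For `k = m + 1` the determinant is not
zero (`Matrix.linearIndependent_rows_iff_isUnit`, `isUnit_iff_isUnit_det`). -/
def StMG : Prop := ∀ (M : Type) [AddCommGroup M] [Module ℂ M] (m : ℕ) (w : ℕ → Fin (m + 1) → M),
  (∀ i, LinearIndependent ℂ (w i)) →
  ∃ φ : Fin (m + 1) → (M →ₗ[ℂ] ℂ), ∀ i, (Matrix.of fun a j => φ a (w i j)).det ≠ 0

/-- [DT] (EASY) The determinant as a polynomial. PROOF. `P = (Matrix.of fun a j => X (a, j)).det` (`Matrix.det_apply`: a sum of products of `k`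
variables, homogeneous of degree `k`: `IsHomogeneous.sum`, `IsHomogeneous.prod`, `isHomogeneous_X`), `RingHom.map_det`. -/
def StDT : Prop := ∀ k : ℕ, ∃ P : MvPolynomial (Fin k × Fin k) ℂ, P.IsHomogeneous k ∧
  ∀ x : Fin k × Fin k → ℂ, eval x P = (Matrix.of fun a j => x (a, j)).det

/-- [LQ] (EASY-MEDIUM) Logarithms of primes. PROOF. As `I_LP.lean` for any number of primes: a rational relation becomes an integral
one, `∑ a_p log p = 0`, so the product of the `p ^ a_p` with `a_p > 0` is equal to the product of the `p ^ (-a_p)` with `a_p < 0`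
(`Real.exp`/`Real.log` injective), unique factorisation. -/
def StLQ : Prop := LinearIndependent ℚ (fun p : Nat.Primes => ((Real.log (p : ℕ) : ℝ) : ℂ))

end Pool.Agent.Work.MP_327059_nt.LD
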