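import Pool.Agent.Work.MP_327059_nt.LD.StmtsL
import Pool.Agent.Work.MP_327059_nt.LD.StmtsP

/-!
# MP_327059_nt, block LE (captain helper12): all degrees, logarithms; statements with complete proofs

`lg n = log n`. `ED.exists_derivation` (see its use in `AA/AlgB.lean`, `FL/Alg.lean`, `FL/Fin.lean`): for an algebraically independent
family there is a derivation with prescribed values. Item `XX`: file `LD/J_XX.lean`, theorem `le_XX`.
-/

set_option autoImplicit false

namespace Pool.Agent.Work.MP_327059_nt.LD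

open Pool.Agent.Work.MP_327059_nt.AA Pool.Agent.Work.MP_327059_nt.FL Pool.Agent.Work.MP_327059_nt.UB

/-- The `m + 1` numbers `z, exp (b_1 z), .., exp (b_m z)`. -/
noncomputable def ys {m : ℕ} (b : Fin m → ℂ) (z : ℂ) : Fin (m + 1) → ℂ :=
  Fin.cons z fun j => Complex.exp (b j * z)

/-- The row of a derivation: `D z, D (exp (b_j z)) / exp (b_j z)`. -/
noncomputable def rw' {m : ℕ} (b : Fin m → ℂ) (D : Derivation ℚ ℂ ℂ) (z : ℂ) : Fin (m + 1) → ℂ :=
  Fin.cons (D z) fun j => ld (b j) D z

/-- The elements of the rational span of the `log n`. -/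
noncomputable def lz (c : ℕ →₀ ℚ) : ℂ := c.sum fun n q => (q : ℂ) * lg n

/-- [DZ] (EASY-MEDIUM) Dependent numbers have determinant zero. PROOF. Let `S ⊆ Fin (m + 1)` be maximal with `(ys b z)` restricted to `S`
algebraically independent (`exists_isTranscendenceBasis_..` or finite maximality), `|S| ≤ m`; all `y_j` are algebraic over
`ℚ(y_s, s ∈ S)`. Let `D_s` be derivations with `D_s y_(s') = δ_(ss')` (`ED.exists_derivation`). For every `D` the derivation
`D - ∑_s (D y_s) • D_s` kills `y_S`, so all `y_j` (the kernel of a derivation is an algebraically closed subfield of `ℂ`, as in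
`der_alg`). So `D y_j = ∑_s (D y_s) (D_s y_j)`: the rows `(D_a y_j)_j`, `a ∈ Fin (m + 1)`, lie in the span of at most `m` vectors, so the
determinant of `(D_a y_j)` is zero, and with it the determinant of `rw' b (D a) z j = D_a y_j * (1 or 1 / y_j)`
(`Matrix.det_mul_row` / `det_mul_column`). -/
def StDZ : Prop := ∀ (m : ℕ) (b : Fin m → ℂ) (z : ℂ) (D : Fin (m + 1) → Derivation ℚ ℂ ℂ),
  ¬ AlgebraicIndependent ℚ (ys b z) → (Matrix.of fun a j => rw' b (D a) z j).det = 0

/-- [GD] (MEDIUM) Generic derivations. PROOF (StMG, `ED.exists_derivation`). `M = Ω[ℂ⁄ℚ]`, `w i 0 = d(z i)`,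
`w i (j+1) = (1 / y) • d y`, `y = exp (b j * z i)` (`KaehlerDifferential.D ℚ ℂ`). For an algebraically independent `ys b (z i)` these
are linearly independent over `ℂ`: a relation `∑ c_j w i j = 0` is mapped by the functional of a derivation with values `δ` at
`ys b (z i)` to `c_j * (1 or 1 / y) = 0`. For the other `i` replace `w i` by some fixed independent family (or enumerate only the
`i` with independent numbers; if there is none, nothing is to be proved). StMG gives functionals `φ_a`, and `D_a = φ_a ∘ d`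
(`LinearMap.compDer` / `KaehlerDifferential.linearMapEquivDerivation`); `D_a (z i) = φ_a (w i 0)`, `ld (b j) D_a (z i) = φ_a (w i (j+1))`. -/
def StGD : Prop := ∀ (m : ℕ) (b : Fin m → ℂ) (z : ℕ → ℂ), ∃ D : Fin (m + 1) → Derivation ℚ ℂ ℂ,
  ∀ i, AlgebraicIndependent ℚ (ys b (z i)) → (Matrix.of fun a j => rw' b (D a) (z i) j).det ≠ 0

/-- [NV] (MEDIUM) An independent element. PROOF (StLQ; `Pool.Agent.Results.MP_327059_nt.FinitelyManySubspaces.result`, that is
`FR.final FR.y_CovB`, import `Pool.Agent.Work.MP_327059_nt.FR.Asm`). Let `n₀` be as there, `p_0, .., p_(n₀)` different elements of the infinite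
set `Q` of primes, `V` the span of the `lg p_i`, of dimension `n₀ + 1` (StLQ), all `exp z`, `z ∈ V`, algebraic (`exp (q lg p)` is a root of
`X^N - p^k`; or: the set of the `z` with `exp z` algebraic is a `ℚ`-subspace, see `FL/Alg.lean`, `GL/..`). `V` is not the union of the
finitely many `W ∈ T` (finrank `≤ n₀`, proper; `Subspace.biUnion_ne_univ_of_top_notMem` or similar), so some `z ∈ V` is in none of
them: `AlgebraicIndependent ℚ (ys b z)`. Write `z = lz c`, `c` supported on the `p_i`. -/
def StNV : Prop := ∀ (m : ℕ) (b : Fin m → ℂ), (∀ j, IsAlgebraic ℚ (b j)) →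
  LinearIndependent ℚ (Fin.cons 1 b : Fin (m + 1) → ℂ) → ∀ Q : Set ℕ, Q.Infinite → (∀ p ∈ Q, p.Prime) →
  ∃ c : ℕ →₀ ℚ, (∀ p ∈ c.support, p ∈ Q) ∧ AlgebraicIndependent ℚ (ys b (lz c))

/-- [FG] (MEDIUM, helper12) The theorem. PROOF (StPZ, StEG, StDT, StDZ, StGD, StNV, `ld_TH`). Enumerate `ℕ →₀ ℚ` and take the `D_a` of StGD
for all `lz c`. `F n (a, j) = rw' b (D a) (lg n) j`, completely additive; `U` from StEG; `P` from StDT for `k = m + 1`. StNV for
`Q = {p prime | F p ∈ U}` gives `c`, and `u = ∑ c_p F p ∈ U` is the matrix of `lz c`, so `eval u P ≠ 0`. StPZ; an exceptional `n` is in the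
set by StDZ. -/
def StFG : Prop := ∀ (m : ℕ) (b : Fin m → ℂ), (∀ j, IsAlgebraic ℚ (b j)) →
  LinearIndependent ℚ (Fin.cons 1 b : Fin (m + 1) → ℂ) →
  LNull {n | 1 ≤ n ∧ ¬ AlgebraicIndependent ℚ (ys b (lg n))}

end Pool.Agent.Work.MP_327059_nt.LD
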