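import Pool.Agent.Work.MP_327059_nt.UB.Defs
import Pool.Agent.Work.MP_327059_nt.LD.Stmts

/-!
# MP_327059_nt, block LD (captain helper12): logarithms, statements with complete proofs

`UB.bf β D D' z w = D z * ld β D' w - D' z * ld β D w`; `ld β D z = D (exp (β z)) / exp (β z)` is `ℚ`-linear in `z`;
`Alg θ x`: `x` is algebraic over `ℚ(θ)`. All files of block UB may be imported (`UB.I_BD : ub_BD`, `UB.I_ND : ub_ND`, ..).
Item `XX`: file `LD/I_XX.lean`, theorem `ld_XX`.
-/

set_option autoImplicit false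

namespace Pool.Agent.Work.MP_327059_nt.LD

open Pool.Agent.Work.MP_327059_nt.AA Pool.Agent.Work.MP_327059_nt.FL Pool.Agent.Work.MP_327059_nt.UB

/-- The symmetric form. -/
noncomputable def sf (β : ℂ) (D D' : Derivation ℚ ℂ ℂ) (z w : ℂ) : ℂ :=
  bf β D D' z w + bf β D D' w z

/-- The logarithm of a natural number. -/
noncomputable def lg (n : ℕ) : ℂ := ((Real.log n : ℝ) : ℂ)

/-- [GP] (MEDIUM) A generic pair of derivations. PROOF (StGV). Let `D₁ i, D₂ i` be derivations with `sf β (D₁ i) (D₂ i) (x i) (y i) ≠ 0`.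
For a fixed derivation `D'` the map `D ↦ sf β D D' x y` is the evaluation of `D` at the element
`w = (ld β D' y) • dx - (D' x / exp (β y)) • d(exp (β y)) + (ld β D' x) • dy - (D' y / exp (β x)) • d(exp (β x))` of `Ω[ℂ⁄ℚ]`
(`KaehlerDifferential.D ℚ ℂ`; a derivation `D` is the composition of `D.liftKaehlerDifferential` with `KaehlerDifferential.D`). StGV for
these elements for `D' = D₂ i` (not zero) gives a functional, so a derivation `D` with `sf β D (D₂ i) (x i) (y i) ≠ 0` for all `i`. Now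
`D' ↦ sf β D D' x y` is minus the same expression with the roles exchanged (`sf` is alternating in the derivations), StGV again. -/
def StGP : Prop := ∀ (β : ℂ) (x y : ℕ → ℂ),
  (∀ i, ∃ D D' : Derivation ℚ ℂ ℂ, sf β D D' (x i) (y i) ≠ 0) →
  ∃ D D' : Derivation ℚ ℂ ℂ, ∀ i, sf β D D' (x i) (y i) ≠ 0

/-- [QB] (EASY) PROOF. `x` is transcendental (`LW.transcendental_exp`, as in item BD of block UB), `D0 x = 1` (`exists_der_one`). If `D x = 0`,
then `0 = bf β D0 D x x = ld β D x`, so `D (exp (β x)) = 0`; `alg_of_der` gives `Alg x (exp (β x))`, and StBD (second part) of block UB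
(`ub_BD`) gives `Bad β x`. -/
def StQB : Prop := ∀ (β x : ℂ), x ≠ 0 → IsAlgebraic ℚ (Complex.exp x) →
  (∀ D D' : Derivation ℚ ℂ ℂ, sf β D D' x x = 0) → Bad β x

/-- [IN] (EASY-MEDIUM) PROOF (StLP; `ub_ND`, `full_T23` as in `UB/I_VA.lean`). Otherwise the set contains three different primes
`p, q, s`. By `ub_ND` `Alg r (lg p)`, `Alg r (exp (β lg p))`, and the same for `q, s`. Apply `full_T23 r β ![lg p, lg q, lg s]` as in the
proof of `finrank ≤ 2` in `UB/I_VA.lean` (`exp (lg p) = p` is algebraic; independence: StLP): contradiction. (Or use StVA for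
`V` = the span of `r, lg p, lg q, lg s`.) -/
def StIN : Prop := ∀ (β r : ℂ), IsAlgebraic ℚ β → (∀ q : ℚ, β ≠ q) → Bad β r →
  {p : ℕ | p.Prime ∧ ∀ D D' : Derivation ℚ ℂ ℂ, sf β D D' r (lg p) = 0}.Finite

/-- [KY] (MEDIUM) The key lemma. PROOF (StTH, StES, StGP, StQB, StIN). Consider the countably many pairs `(x, y)`, `x = lg a - lg b`,
`y = x` or `y = lg c`, `a, b, c ∈ ℕ`, for which some `sf β D D' x y` is not zero (there is one: otherwise every prime would be in the
set of StIN for `r = lg 2`, which is `Bad` by StQB), enumerate them (`exists_surjective_nat`) and let `D, D'` be the generic pair of StGP: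
(*) if `sf β D D' x y = 0` for such a pair `(x, y)`, then `sf β D₁ D₂ x y = 0` for all `D₁, D₂`.
Let `Φ z = ![D z, D' z, ld β D z, ld β D' z]` and `B u v = u 0 * v 3 - u 1 * v 2 + v 0 * u 3 - v 1 * u 2`, so that
`sf β D D' z w = B (Φ z) (Φ w)`. Let `U` be as in StES for `F p = Φ (lg p)`, `P₀ = {p | p.Prime ∧ F p ∉ U}`. Let `p ≠ q` be primes not in
`P₀`, `r = lg p - lg q`, and suppose `{s | s.Prime ∧ sf β D D' r (lg s) ≠ 0}` is thin. `U' = {u ∈ U | B (Φ r) u = 0}` is a subspace of `U` and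
`{s | s.Prime ∧ F s ∉ U'}` is contained in the union of `P₀` and this set, so it is thin, so `U' = U`. As `Φ r = F p - F q ∈ U`:
`sf β D D' r r = B (Φ r) (Φ r) = 0`, and `sf β D D' r (lg s) = 0` for all primes `s ∉ P₀`. By (*) all `sf β D₁ D₂ r r = 0`, so `Bad β r` (StQB;
`r ≠ 0`, `exp r = p / q`), and all `sf β D₁ D₂ r (lg s) = 0` for the infinitely many (StTH (f)) primes `s ∉ P₀`: against StIN. -/
def StKY : Prop := ∀ β : ℂ, IsAlgebraic ℚ β → (∀ q : ℚ, β ≠ q) →
  ∃ (D D' : Derivation ℚ ℂ ℂ) (P₀ : Set ℕ), Thin P₀ ∧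
    ∀ p q : ℕ, p.Prime → q.Prime → p ∉ P₀ → q ∉ P₀ → p ≠ q →
      ¬ Thin {s | s.Prime ∧ sf β D D' (lg p - lg q) (lg s) ≠ 0}

/-- [FN] (MEDIUM, helper12) The theorem. PROOF (StTH, StDJ, StNC, StKY). `A = {n | 1 ≤ n ∧ sf β D D' (lg n) (lg n) = 0}` contains
all exceptional `n` (`ub_BD`). StDJ with `M` = the primes not in `P₀`: for `p ≠ q` in `M` and `n, n' ∈ A`, `p n = q n'`:
`lg n' = lg n + r`, `r = lg p - lg q`, so `0 = 2 sf β D D' r (lg n) + sf β D D' r r`: `n` is in a level set of the completely additive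
function `n ↦ sf β D D' r (lg n)`, `LNull` by StNC. -/
def StFN : Prop := ∀ β : ℂ, IsAlgebraic ℚ β → (∀ q : ℚ, β ≠ q) →
  LNull {n | 1 ≤ n ∧ ¬ AlgebraicIndependent ℚ ![lg n, Complex.exp (β * lg n)]}

end Pool.Agent.Work.MP_327059_nt.LD
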